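import Pool.Agent.Lib.MP_8f66f0_al_CC.Sys.Rays
import Pool.Agent.Lib.MP_8f66f0_al_CC.End.Spec

/-!
# Theorem CC: the coefficient rings (statements)

`TwE k k'`: a commutative ring `k'` between `k` and the Laurent series over `k`, with the variable as a
unit. `S_psi` provides the homomorphism `Ψ : U Γ k' S → LaurentSeries (U Γ k S ⧸ J f)` (coefficientwise;
the coefficients of an element of `U Γ k' S` lie in a finitely generated additive group, so they have a
common bound for the poles, and the coefficients of `y ^ m` lie in a finitely generated group again).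
-/

set_option autoImplicit false

namespace Pool.Agent.CC

open Pool.Agent.TQ Pool.Agent.Wald

/-- A ring between `k` and the Laurent series over `k`. -/
structure TwE (k k' : Type) [CommRing k] [CommRing k'] where
  /-- the inclusion into the Laurent series -/
  τ : k' →+* LaurentSeries k
  /-- the inclusion of `k` -/
  i : k →+* k'
  hi : ∀ a, τ (i a) = HahnSeries.C a
  /-- the variable -/
  y : k'
  /-- its inverse -/
  y' : k'
  hy : τ y = HahnSeries.single 1 1
  yy' : y * y' = 1

/-- The base change and the map to the Laurent series. -/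
def S_psi : Prop :=
  ∀ (O Y C Γ k k' : Type) [DecidableEq O] [Group Γ] [MulAction Γ O] [MulAction Γ C] [CommRing k]
    [CommRing k'] (D : TwE k k') (S : Sys O Y C) (f : ℕ),
    ∃ (j : U Γ k S →+* U Γ k' S) (y y' : U Γ k' S)
      (Ψ : U Γ k' S →+* LaurentSeries (U Γ k S ⧸ J Γ k S f)),
      (∀ x g v w, cf (j x).1 g v w = D.i (cf x.1 g v w)) ∧
      (∀ x, Ψ (j x) = HahnSeries.C (Ideal.Quotient.mk (J Γ k S f) x)) ∧
      Ψ y = HahnSeries.single 1 1 ∧ (∀ z ∈ J Γ k' S f, Ψ z = 0) ∧ (∀ x, y * j x = j x * y) ∧
      y * y' = 1 ∧ y' * y = 1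

end Pool.Agent.CC
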