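import Pool.Agent.Lib.MP_8f66f0_al_CC.Sys.Ring
import Pool.Agent.Lib.MP_8f66f0_al_CC.End.KR

/-!
# Corners

`kz_of_lad`: if the idempotents over the corner rings `T b` modulo `I b` are stably trivial, then
idempotents over `R` which are congruent to a diagonal idempotent modulo `J` can be improved to
congruence modulo `J'`.
-/

set_option autoImplicit false

namespace Pool.Agent.CC

open Matrix Pool.Agent.Wald

/-- All idempotent matrices modulo `I` are stably trivial: `K_0(Y / I) = 0`. -/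
def KQ {Y : Type} [Ring Y] (I : Ideal Y) : Prop :=
  ∀ (n : Type) [Fintype n] [DecidableEq n] (e : Matrix n n Y), Cg I (e * e) e →
    ∃ (m : Type) (_ : Fintype m) (_ : DecidableEq m) (a : Matrix (n ⊕ m) m Y)
      (b : Matrix m (n ⊕ m) Y), Cg I (a * b) (fromBlocks e 0 0 1) ∧ Cg I (b * a) 1

section Conj

variable {Y : Type} [Ring Y] {I : Ideal Y} {n : Type} [Fintype n] [DecidableEq n]

theorem kq_fin (h : KQ I) (e : Matrix n n Y) (he : MC I (e * e) e) :
    ∃ k0 : ℕ, ∀ k, k0 ≤ k → ∃ (a : Matrix (n ⊕ Fin k) (Fin k) Y) (b : Matrix (Fin k) (n ⊕ Fin k) Y),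
      MC I (a * b) (fromBlocks e 0 0 1) ∧ MC I (b * a) 1 := by
  obtain ⟨m, _, _, a, b, h1, h2⟩ := h n e he
  refine ⟨Fintype.card m, fun k hk => ?_⟩
  obtain ⟨l, rfl⟩ := Nat.exists_eq_add_of_le hk
  let τ : Fin (Fintype.card m + l) ≃ m ⊕ Fin l :=
    finSumFinEquiv.symm.trans (Equiv.sumCongr (Fintype.equivFin m).symm (Equiv.refl _))
  let σ : n ⊕ Fin (Fintype.card m + l) ≃ (n ⊕ m) ⊕ Fin l :=
    (Equiv.sumCongr (Equiv.refl n) τ).trans (Equiv.sumAssoc n m (Fin l)).symm
  let A : Matrix ((n ⊕ m) ⊕ Fin l) (m ⊕ Fin l) Y := fromBlocks a 0 0 1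
  let B : Matrix (m ⊕ Fin l) ((n ⊕ m) ⊕ Fin l) Y := fromBlocks b 0 0 1
  have hAB : MC I (A * B) (fromBlocks (fromBlocks e 0 0 1) 0 0 1) := by
    simp only [A, B]
    rw [fromBlocks_multiply]
    simp only [Matrix.mul_zero, Matrix.zero_mul, add_zero, zero_add, mul_one]
    exact MC.fromBlocks h1 (MC.refl _) (MC.refl _) (MC.refl _)
  have hBA : MC I (B * A) 1 := by
    simp only [A, B]
    rw [fromBlocks_multiply, ← fromBlocks_one]
    simp only [Matrix.mul_zero, Matrix.zero_mul, add_zero, zero_add, mul_one]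
    exact MC.fromBlocks h2 (MC.refl _) (MC.refl _) (MC.refl _)
  refine ⟨A.submatrix σ τ, B.submatrix τ σ, ?_, ?_⟩
  · rw [Matrix.submatrix_mul_equiv]
    refine (hAB.submatrix σ σ).trans (MC.of_eq ?_)
    ext i j
    rcases i with i | i
    · rcases j with j | j
      · rfl
      · show (fromBlocks (fromBlocks e 0 0 1) 0 0 (1 : Matrix (Fin l) (Fin l) Y))
          ((Equiv.sumAssoc n m (Fin l)).symm (Sum.inl i)) ((Equiv.sumAssoc n m (Fin l)).symm
            (Sum.inr (τ j))) = 0
        rcases τ j with j' | j' <;> rfl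
    · rcases j with j | j
      · show (fromBlocks (fromBlocks e 0 0 1) 0 0 (1 : Matrix (Fin l) (Fin l) Y))
          ((Equiv.sumAssoc n m (Fin l)).symm (Sum.inr (τ i))) ((Equiv.sumAssoc n m (Fin l)).symm
            (Sum.inl j)) = 0
        rcases τ i with j' | j' <;> rfl
      · show (fromBlocks (fromBlocks e 0 0 1) 0 0 (1 : Matrix (Fin l) (Fin l) Y))
          ((Equiv.sumAssoc n m (Fin l)).symm (Sum.inr (τ i))) ((Equiv.sumAssoc n m (Fin l)).symm
            (Sum.inr (τ j))) = (1 : Matrix _ _ Y) i j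
        have h3 : (1 : Matrix (Fin (Fintype.card m + l)) (Fin (Fintype.card m + l)) Y) i j =
            (1 : Matrix (m ⊕ Fin l) (m ⊕ Fin l) Y) (τ i) (τ j) := by
          rw [Matrix.one_apply, Matrix.one_apply]
          simp only [EmbeddingLike.apply_eq_iff_eq]
        rw [h3, ← fromBlocks_one]
        rcases τ i with i' | i' <;> rcases τ j with j' | j' <;> rfl
  · rw [Matrix.submatrix_mul_equiv]
    refine (hBA.submatrix τ τ).trans (MC.of_eq ?_)
    rw [submatrix_one_equiv]

/-- Idempotents modulo `I` are stably conjugate by invertible matrices over `Y`. -/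
theorem conj_of_kq [I.IsTwoSided] (h : KQ I) (e f : Matrix n n Y) (he : MC I (e * e) e) (hf : MC I (f * f) f) :
    ∃ (m : Type) (_ : Fintype m) (_ : DecidableEq m) (R : m → Prop)
      (W W' : Matrix (n ⊕ m) (n ⊕ m) Y), W * W' = 1 ∧ W' * W = 1 ∧
        MC I (W * fromBlocks e 0 0 (pj R) * W') (fromBlocks f 0 0 (pj R)) := by
  obtain ⟨k1, h1⟩ := kq_fin h e he
  obtain ⟨k2, h2⟩ := kq_fin h f hf
  obtain ⟨a1, b1, c1, d1⟩ := h1 (max k1 k2) (le_max_left _ _)
  obtain ⟨a2, b2, c2, d2⟩ := h2 (max k1 k2) (le_max_right _ _)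
  generalize max k1 k2 = k at a1 b1 c1 d1 a2 b2 c2 d2
  let E : Matrix (n ⊕ Fin k) (n ⊕ Fin k) Y := fromBlocks e 0 0 1
  let F : Matrix (n ⊕ Fin k) (n ⊕ Fin k) Y := fromBlocks f 0 0 1
  have hE : MC I (E * E) E := by
    simp only [E]
    rw [fromBlocks_multiply]
    simp only [Matrix.mul_zero, Matrix.zero_mul, add_zero, zero_add, mul_one]
    exact MC.fromBlocks he (MC.refl _) (MC.refl _) (MC.refl _)
  have hF : MC I (F * F) F := by
    simp only [F]
    rw [fromBlocks_multiply]
    simp only [Matrix.mul_zero, Matrix.zero_mul, add_zero, zero_add, mul_one]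
    exact MC.fromBlocks hf (MC.refl _) (MC.refl _) (MC.refl _)
  have c1' : MC I (a1 * b1) E := c1
  have c2' : MC I (a2 * b2) F := c2
  have Ea : MC I (E * a1) a1 := by
    refine (c1'.symm.mul_right a1).trans ?_
    rw [Matrix.mul_assoc]
    have := d1.mul_left a1
    rwa [Matrix.mul_one] at this
  have bE : MC I (b1 * E) b1 := by
    refine (c1'.symm.mul_left b1).trans ?_
    rw [← Matrix.mul_assoc]
    have := d1.mul_right b1
    rwa [Matrix.one_mul] at this
  have Fa : MC I (F * a2) a2 := by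
    refine (c2'.symm.mul_right a2).trans ?_
    rw [Matrix.mul_assoc]
    have := d2.mul_left a2
    rwa [Matrix.mul_one] at this
  have bF : MC I (b2 * F) b2 := by
    refine (c2'.symm.mul_left b2).trans ?_
    rw [← Matrix.mul_assoc]
    have := d2.mul_right b2
    rwa [Matrix.one_mul] at this
  let x := a1 * b2
  let y := a2 * b1
  have xy : MC I (x * y) E := by
    have e1 : x * y = a1 * (b2 * a2) * b1 := by simp only [x, y, Matrix.mul_assoc]
    rw [e1]
    have := (d2.mul_left a1).mul_right b1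
    rw [Matrix.mul_one] at this
    exact this.trans c1'
  have yx : MC I (y * x) F := by
    have e1 : y * x = a2 * (b1 * a1) * b2 := by simp only [x, y, Matrix.mul_assoc]
    rw [e1]
    have := (d1.mul_left a2).mul_right b2
    rw [Matrix.mul_one] at this
    exact this.trans c2'
  have Ex : MC I (E * x) x := by
    rw [show E * x = E * a1 * b2 from (Matrix.mul_assoc _ _ _).symm]
    exact Ea.mul_right b2
  have xF : MC I (x * F) x := by
    rw [show x * F = a1 * (b2 * F) from Matrix.mul_assoc _ _ _]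
    exact bF.mul_left a1
  have Fy : MC I (F * y) y := by
    rw [show F * y = F * a2 * b1 from (Matrix.mul_assoc _ _ _).symm]
    exact Fa.mul_right b1
  have yE : MC I (y * E) y := by
    rw [show y * E = a2 * (b1 * E) from Matrix.mul_assoc _ _ _]
    exact bE.mul_left a2
  let V : Matrix ((n ⊕ Fin k) ⊕ (n ⊕ Fin k)) ((n ⊕ Fin k) ⊕ (n ⊕ Fin k)) Y :=
    fromBlocks y (1 - F) (1 - E) x
  let V' : Matrix ((n ⊕ Fin k) ⊕ (n ⊕ Fin k)) ((n ⊕ Fin k) ⊕ (n ⊕ Fin k)) Y :=
    fromBlocks x (1 - E) (1 - F) y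
  have idc : ∀ G : Matrix (n ⊕ Fin k) (n ⊕ Fin k) Y, MC I (G * G) G →
      MC I ((1 - G) * (1 - G)) (1 - G) := by
    intro G hG
    have e1 : (1 - G) * (1 - G) = 1 - G - G + G * G := by noncomm_ring
    rw [e1]
    have := (MC.refl (J := I) (1 - G - G)).add hG
    rwa [sub_add_cancel] at this
  have VV' : MC I (V * V') 1 := by
    simp only [V, V']
    rw [fromBlocks_multiply, ← fromBlocks_one (l := n ⊕ Fin k) (m := n ⊕ Fin k)]
    refine MC.fromBlocks ?_ ?_ ?_ ?_
    · have := yx.add (idc F hF)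
      rwa [add_sub_cancel] at this
    · have e1 : y * (1 - E) + (1 - F) * y = (y - y * E) + (y - F * y) := by noncomm_ring
      rw [e1]
      have := ((MC.refl y).sub yE).add ((MC.refl y).sub Fy)
      rwa [sub_self, add_zero] at this
    · have e1 : (1 - E) * x + x * (1 - F) = (x - E * x) + (x - x * F) := by noncomm_ring
      rw [e1]
      have := ((MC.refl x).sub Ex).add ((MC.refl x).sub xF)
      rwa [sub_self, add_zero] at this
    · have := (idc E hE).add xy
      rwa [sub_add_cancel] at this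
  have V'V : MC I (V' * V) 1 := by
    simp only [V, V']
    rw [fromBlocks_multiply, ← fromBlocks_one (l := n ⊕ Fin k) (m := n ⊕ Fin k)]
    refine MC.fromBlocks ?_ ?_ ?_ ?_
    · have := xy.add (idc E hE)
      rwa [add_sub_cancel] at this
    · have e1 : x * (1 - F) + (1 - E) * x = (x - x * F) + (x - E * x) := by noncomm_ring
      rw [e1]
      have := ((MC.refl x).sub xF).add ((MC.refl x).sub Ex)
      rwa [sub_self, add_zero] at this
    · have e1 : (1 - F) * y + y * (1 - E) = (y - F * y) + (y - y * E) := by noncomm_ring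
      rw [e1]
      have := ((MC.refl y).sub Fy).add ((MC.refl y).sub yE)
      rwa [sub_self, add_zero] at this
    · have := (idc F hF).add yx
      rwa [sub_add_cancel] at this
  have VEV : MC I (V * fromBlocks E 0 0 0 * V') (fromBlocks F 0 0 0) := by
    simp only [V, V']
    rw [fromBlocks_multiply, fromBlocks_multiply]
    simp only [Matrix.mul_zero, Matrix.zero_mul, add_zero]
    have e0 : MC I ((1 - E) * E) 0 := by
      have e1 : (1 - E) * E = E - E * E := by noncomm_ring
      rw [e1]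
      have := (MC.refl E).sub hE
      rwa [sub_self] at this
    refine MC.fromBlocks ?_ ?_ ?_ ?_
    · rw [Matrix.mul_assoc]
      exact (Ex.mul_left y).trans yx
    · have e1 : y * E * (1 - E) = y * (E - E * E) := by noncomm_ring
      rw [e1]
      have := ((MC.refl E).sub hE).mul_left y
      rwa [sub_self, Matrix.mul_zero] at this
    · have := e0.mul_right x
      rwa [Matrix.zero_mul] at this
    · have := e0.mul_right (1 - E)
      rwa [Matrix.zero_mul] at this
  obtain ⟨W, W', w1, w2, w3, w4⟩ := lift_diag V V' VV' V'V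
  let σ : n ⊕ (Fin k ⊕ ((n ⊕ Fin k) ⊕ ((n ⊕ Fin k) ⊕ (n ⊕ Fin k)))) ≃
      ((n ⊕ Fin k) ⊕ (n ⊕ Fin k)) ⊕ ((n ⊕ Fin k) ⊕ (n ⊕ Fin k)) :=
    (Equiv.sumAssoc n (Fin k) _).symm.trans (Equiv.sumAssoc (n ⊕ Fin k) (n ⊕ Fin k) _).symm
  have key : ∀ (g : Matrix n n Y), (fromBlocks (fromBlocks (fromBlocks g 0 0 1) 0 0 0) 0 0 0 :
      Matrix (((n ⊕ Fin k) ⊕ (n ⊕ Fin k)) ⊕ ((n ⊕ Fin k) ⊕ (n ⊕ Fin k)))
        (((n ⊕ Fin k) ⊕ (n ⊕ Fin k)) ⊕ ((n ⊕ Fin k) ⊕ (n ⊕ Fin k))) Y).submatrix σ σ =
      fromBlocks g 0 0 (pj (Sum.elim (fun _ => True) fun _ => False)) := by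
    intro g
    rw [pj_sum, pj_true, pj_false]
    ext i j
    rcases i with i | i | i | i | i <;> rcases j with j | j | j | j | j <;> rfl
  refine ⟨Fin k ⊕ ((n ⊕ Fin k) ⊕ ((n ⊕ Fin k) ⊕ (n ⊕ Fin k))), inferInstance, inferInstance,
    Sum.elim (fun _ => True) fun _ => False, W.submatrix σ σ, W'.submatrix σ σ, ?_, ?_, ?_⟩
  · rw [submatrix_mul_equiv, w1, submatrix_one_equiv]
  · rw [submatrix_mul_equiv, w2, submatrix_one_equiv]
  · rw [← key e, ← key f, submatrix_mul_equiv, submatrix_mul_equiv]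
    refine MC.submatrix ?_ _ _
    refine ((w3.mul_right _).mul w4).trans ?_
    rw [fromBlocks_multiply, fromBlocks_multiply]
    simp only [Matrix.mul_zero, Matrix.zero_mul, add_zero]
    exact MC.fromBlocks VEV (MC.refl _) (MC.refl _) (MC.refl _)

end Conj

section Em

variable {X Y : Type} [Ring X] [Ring Y] (ε : Y →ₙ+* X)

/-- The matrix `A` over `Y` extended by the diagonal idempotent `P` outside. -/
noncomputable def Em {n : Type} (P : n → Prop) (A : Matrix n n Y) : Matrix n n X :=
  pj P + (A - pj P).map ε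

variable {n m : Type}

theorem map_add' {l k : Type} (A B : Matrix l k Y) : (A + B).map ε = A.map ε + B.map ε :=
  Matrix.ext fun _ _ => map_add ε _ _

theorem map_sub' {l k : Type} (A B : Matrix l k Y) : (A - B).map ε = A.map ε - B.map ε :=
  Matrix.ext fun _ _ => map_sub ε _ _

theorem map_mul' {l k r : Type} [Fintype k] (A : Matrix l k Y) (B : Matrix k r Y) :
    (A * B).map ε = A.map ε * B.map ε := Matrix.ext fun i j => by
  rw [Matrix.map_apply, Matrix.mul_apply, Matrix.mul_apply, map_sum]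
  exact Finset.sum_congr rfl fun _ _ => map_mul ε _ _

theorem pj_mul_map [Fintype n] [DecidableEq n] (P : n → Prop) (B : Matrix n n Y) :
    (pj P : Matrix n n X) * B.map ε = (pj P * B).map ε := by
  classical
  ext i j
  rw [Matrix.map_apply, pj_eq, pj_eq, diagonal_mul, diagonal_mul, Matrix.map_apply]
  split_ifs
  · rw [one_mul, one_mul]
  · rw [zero_mul, zero_mul, map_zero]

theorem map_mul_pj [Fintype n] [DecidableEq n] (P : n → Prop) (B : Matrix n n Y) :
    B.map ε * (pj P : Matrix n n X) = (B * pj P).map ε := by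
  classical
  ext i j
  rw [Matrix.map_apply, pj_eq, pj_eq, mul_diagonal, mul_diagonal, Matrix.map_apply]
  split_ifs
  · rw [mul_one, mul_one]
  · rw [mul_zero, mul_zero, map_zero]

theorem em_mul [Fintype n] [DecidableEq n] (P R : n → Prop) (A B : Matrix n n Y) :
    Em ε P A * Em ε R B = Em ε (fun i => P i ∧ R i) (A * B) := by
  unfold Em
  rw [mul_add, add_mul, add_mul, pj_mul_map, map_mul_pj, ← map_mul', ← pj_mul (X := X),
    ← pj_mul (X := Y)]
  have e1 : A * B - (pj P : Matrix n n Y) * pj R =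
      (A - pj P) * pj R + pj P * (B - pj R) + (A - pj P) * (B - pj R) := by noncomm_ring
  rw [e1, map_add', map_add']
  abel

theorem em_pj (P : n → Prop) : Em ε P (pj P) = pj P := by
  unfold Em
  rw [sub_self]
  ext i j
  rw [Matrix.add_apply, Matrix.map_apply, Matrix.zero_apply, map_zero, add_zero]

theorem em_blocks (P : n → Prop) (R : m → Prop) (A : Matrix n n Y) :
    Em ε (Sum.elim P R) (fromBlocks A 0 0 (pj R)) = fromBlocks (Em ε P A) 0 0 (pj R) := by
  unfold Em
  rw [pj_sum, pj_sum]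
  ext i j
  rcases i with i | i <;> rcases j with j | j
  · rfl
  · show (0 : X) + ε (0 - 0) = 0
    rw [sub_zero, map_zero, add_zero]
  · show (0 : X) + ε (0 - 0) = 0
    rw [sub_zero, map_zero, add_zero]
  · show (pj R i j : X) + ε (pj R i j - pj R i j) = pj R i j
    rw [sub_self, map_zero, add_zero]

theorem mc_em {I : Ideal Y} {J : Ideal X} (h : ∀ x, x ∈ I → ε x ∈ J) {P : n → Prop}
    {A B : Matrix n n Y} (hAB : MC I A B) : MC J (Em ε P A) (Em ε P B) := fun i j => by
  have e1 : Em ε P A i j - Em ε P B i j = ε (A i j - B i j) := by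
    unfold Em
    rw [Matrix.add_apply, Matrix.add_apply, Matrix.map_apply, Matrix.map_apply, Matrix.sub_apply, Matrix.sub_apply, map_sub, map_sub,
      map_sub]
    abel
  rw [e1]
  exact h _ (hAB i j)

end Em

section Lad

variable {R : Type} [Ring R] {J' J : Ideal R} {β : Type} [Preorder β] {T : β → Type}
  [∀ b, Ring (T b)] {I : ∀ b, Ideal (T b)} {ε : ∀ b, T b →ₙ+* R}

theorem Lad.twoSided [J'.IsTwoSided] (h : Lad R J' J β T I ε) (b : β) : (I b).IsTwoSided :=
  ⟨fun y hx => by
    rw [← h.pre, map_mul]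
    exact J'.mul_mem_right _ ((h.pre b _).2 hx)⟩

theorem Lad.common (h : Lad R J' J β T I ε) {ι : Type} [Finite ι] (x : ι → R)
    (hx : ∀ i, x i ∈ J) : ∃ b, ∀ i, ∃ c : T b, x i - ε b c ∈ J' := by
  classical
  have := Fintype.ofFinite ι
  have key : ∀ s : Finset ι, ∃ b, ∀ i ∈ s, ∃ c : T b, x i - ε b c ∈ J' := by
    intro s
    induction s using Finset.induction_on with
    | empty =>
      obtain ⟨b, -⟩ := h.dec 0 J.zero_mem
      exact ⟨b, fun i hi => absurd hi (Finset.notMem_empty i)⟩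
    | insert a s ha ih =>
      obtain ⟨b, hb⟩ := ih
      obtain ⟨c, c', hc⟩ := h.dec (x a) (hx a)
      obtain ⟨d, hbd, hcd⟩ := h.dir b c
      refine ⟨d, fun i hi => ?_⟩
      rcases Finset.mem_insert.1 hi with rfl | hi
      · obtain ⟨c'', h''⟩ := h.mono c d hcd c'
        exact ⟨c'', by rw [← sub_add_sub_cancel]; exact J'.add_mem hc h''⟩
      · obtain ⟨c1, h1⟩ := hb i hi
        obtain ⟨c'', h''⟩ := h.mono b d hbd c1
        exact ⟨c'', by rw [← sub_add_sub_cancel]; exact J'.add_mem h1 h''⟩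
  obtain ⟨b, hb⟩ := key Finset.univ
  exact ⟨b, fun i => hb i (Finset.mem_univ i)⟩

/-- Corners: if the idempotents over the corner rings are stably trivial modulo `I b`. -/
theorem kz_of_lad [J'.IsTwoSided] (h : Lad R J' J β T I ε) (hK : ∀ b, KQ (I b)) : KZ J J' J := by
  intro n _ _ P e he heP
  obtain ⟨b, hb⟩ := h.common (fun p : n × n => e p.1 p.2 - (pj P : Matrix n n R) p.1 p.2)
    fun p => heP p.1 p.2
  choose c hc using hb
  have := h.twoSided b
  let eb : Matrix n n (T b) := pj P + Matrix.of fun i j => c (i, j)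
  have h1 : MC J' e (Em (ε b) P eb) := by
    intro i j
    have e1 : e i j - Em (ε b) P eb i j = e i j - (pj P : Matrix n n R) i j - ε b (c (i, j)) := by
      unfold Em
      rw [Matrix.add_apply, Matrix.map_apply, Matrix.sub_apply]
      show e i j - (pj P i j + ε b (pj P i j + c (i, j) - pj P i j)) = _
      rw [add_sub_cancel_left]
      abel
    rw [e1]
    exact hc (i, j)
  have h2 : MC (I b) (eb * eb) eb := by
    have h3 : MC J' (Em (ε b) P (eb * eb)) (Em (ε b) P eb) := by
      have h4 := em_mul (ε b) P P eb eb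
      simp only [and_self] at h4
      rw [← h4]
      refine (h1.symm.mul h1.symm).trans ?_
      rw [he]
      exact h1
    intro i j
    rw [← h.pre, map_sub]
    have h5 := h3 i j
    have e1 : Em (ε b) P (eb * eb) i j - Em (ε b) P eb i j =
        ε b ((eb * eb) i j) - ε b (eb i j) := by
      unfold Em
      rw [Matrix.add_apply, Matrix.add_apply, Matrix.map_apply, Matrix.map_apply, Matrix.sub_apply, Matrix.sub_apply, map_sub, map_sub]
      abel
    rwa [e1] at h5
  obtain ⟨m, _, _, S, W, W', w1, w2, w3⟩ := conj_of_kq (hK b) eb (pj P) h2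
    (MC.of_eq (pj_idem P))
  have T1 : ∀ A B : Matrix (n ⊕ m) (n ⊕ m) (T b), Em (ε b) (fun _ => True) A *
      Em (ε b) (fun _ => True) B = Em (ε b) (fun _ => True) (A * B) := fun A B => by
    rw [em_mul]
    simp only [and_self]
  have T2 : Em (ε b) (fun _ => True) (1 : Matrix (n ⊕ m) (n ⊕ m) (T b)) = 1 := by
    have h3 := em_pj (n := n ⊕ m) (ε b) (fun _ => True)
    rwa [pj_true, pj_true] at h3
  refine ⟨m, inferInstance, inferInstance, S, Em (ε b) (fun _ => True) W,
    Em (ε b) (fun _ => True) W', ?_, ?_, ?_, ?_⟩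
  · rw [T1, w1, T2]
  · rw [T1, w2, T2]
  · intro i j
    unfold Em
    rw [pj_true, Matrix.add_apply, add_sub_cancel_left]
    exact h.mem b _
  · have h3 : MC J' (fromBlocks e 0 0 (pj S)) (Em (ε b) (Sum.elim P S) (fromBlocks eb 0 0 (pj S))) := by
      rw [em_blocks]
      exact MC.fromBlocks h1 (MC.refl _) (MC.refl _) (MC.refl _)
    refine ((h3.mul_left _).mul_right _).trans ?_
    rw [em_mul, em_mul]
    simp only [true_and, and_true]
    have h4 := mc_em (J := J') (P := Sum.elim P S) (ε b) (fun x hx => (h.pre b x).2 hx) w3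
    refine h4.trans (MC.of_eq ?_)
    rw [← pj_sum, em_pj]

end Lad

end Pool.Agent.CC
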