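import Pool.Agent.Lib.MP_8f66f0_al_CC.Sys.Gl

/-!
# The finite step in the ring of a system

`fs`: an idempotent matrix over `U Γ k S`, `S` exact, which is a diagonal idempotent modulo `J 0` is
stably conjugate, by a matrix which is `1` modulo `J 0`, to a diagonal matrix of projections onto sets of
objects.
-/

set_option autoImplicit false
set_option linter.unusedSectionVars false

namespace Pool.Agent.CC

open Matrix Pool.Agent.TQ Pool.Agent.FH Pool.Agent.Wald

section Inc

variable {A T Z : Type} [Ring A] [Fintype T] [DecidableEq T] [Fintype Z] [DecidableEq Z]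

/-- The inclusion of a basis. -/
def ic (A : Type) [Ring A] (ι : T → Z) : Matrix Z T A := Matrix.of fun z t => if z = ι t then 1 else 0

/-- The restriction to a basis. -/
def ir (A : Type) [Ring A] (ι : T → Z) : Matrix T Z A := Matrix.of fun t z => if z = ι t then 1 else 0

theorem ir_ic {ι : T → Z} (hι : Function.Injective ι) : ir A ι * ic A ι = 1 := by
  refine Matrix.ext fun t t' => ?_
  rw [Matrix.mul_apply, Finset.sum_eq_single (ι t) (fun z _ hz => by
    rw [ir, Matrix.of_apply, if_neg hz, zero_mul]) fun h => absurd (Finset.mem_univ _) h]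
  rw [ir, ic, Matrix.of_apply, Matrix.of_apply, if_pos rfl, one_mul]
  by_cases h : t = t'
  · subst h
    rw [if_pos rfl, Matrix.one_apply_eq]
  · rw [if_neg fun h' => h (hι h'), Matrix.one_apply_ne h]

theorem ic_mul_ir (ι : T → Z) (w : Matrix T T A) (t t' : T) (hι : Function.Injective ι) :
    (ic A ι * w * ir A ι) (ι t) (ι t') = w t t' := by
  rw [Matrix.mul_apply, Finset.sum_eq_single t' (fun z _ hz => by
    rw [ir, Matrix.of_apply, if_neg fun h => hz (hι h).symm, mul_zero]) fun h =>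
      absurd (Finset.mem_univ _) h, ir, Matrix.of_apply, if_pos rfl, mul_one,
    Matrix.mul_apply, Finset.sum_eq_single t (fun z _ hz => by
    rw [ic, Matrix.of_apply, if_neg fun h => hz (hι h).symm, zero_mul]) fun h =>
      absurd (Finset.mem_univ _) h, ic, Matrix.of_apply, if_pos rfl, one_mul]

theorem ic_mul_ir_ne {ι : T → Z} {w : Matrix T T A} {z z' : Z}
    (h : (ic A ι * w * ir A ι) z z' ≠ 0) : ∃ t t', z = ι t ∧ z' = ι t' := by
  rw [Matrix.mul_apply] at h
  obtain ⟨t', _, h1⟩ := Finset.exists_ne_zero_of_sum_ne_zero h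
  have h2 : z' = ι t' := by
    by_contra h3
    apply h1
    rw [ir, Matrix.of_apply, if_neg h3, mul_zero]
  have h4 := left_ne_zero_of_mul h1
  rw [Matrix.mul_apply] at h4
  obtain ⟨t, _, h5⟩ := Finset.exists_ne_zero_of_sum_ne_zero h4
  refine ⟨t, t', ?_, h2⟩
  by_contra h3
  apply h5
  rw [ic, Matrix.of_apply, if_neg h3, zero_mul]

/-- The extension of a matrix by `1`. -/
def ex1 (ι : T → Z) (w : Matrix T T A) : Matrix Z Z A := 1 - ic A ι * ir A ι + ic A ι * w * ir A ι

variable {ι : T → Z} (hι : Function.Injective ι) (w : Matrix T T A)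

include hι

theorem ex1_ic : ex1 ι w * ic A ι = ic A ι * w := by
  rw [ex1, Matrix.add_mul, Matrix.sub_mul, Matrix.one_mul, Matrix.mul_assoc (ic A ι) (ir A ι),
    ir_ic hι, Matrix.mul_one, sub_self, zero_add, Matrix.mul_assoc _ (ir A ι), ir_ic hι,
    Matrix.mul_one]

theorem ir_ex1 : ir A ι * ex1 ι w = w * ir A ι := by
  rw [ex1, Matrix.mul_add, Matrix.mul_sub, Matrix.mul_one, ← Matrix.mul_assoc, ir_ic hι,
    Matrix.one_mul, sub_self, zero_add, ← Matrix.mul_assoc, ← Matrix.mul_assoc, ir_ic hι,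
    Matrix.one_mul]

theorem ex1_sq (hw : w * w = 1) : ex1 ι w * ex1 ι w = 1 := by
  conv_lhs => arg 2; rw [ex1]
  rw [Matrix.mul_add, Matrix.mul_sub, Matrix.mul_one, ← Matrix.mul_assoc, ex1_ic hι,
    ← Matrix.mul_assoc, ← Matrix.mul_assoc, ex1_ic hι, Matrix.mul_assoc (ic A ι) w w, hw,
    Matrix.mul_one, ex1]
  abel

theorem ex1_conj (q : Matrix T T A) (B : Matrix Z Z A) (h1 : ir A ι * B = 0)
    (h2 : B * ic A ι = 0) : ex1 ι w * (ic A ι * q * ir A ι + B) * ex1 ι w =
      ic A ι * (w * q * w) * ir A ι + B := by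
  have e1 : ex1 ι w * B = B := by
    rw [ex1, Matrix.add_mul, Matrix.sub_mul, Matrix.one_mul, Matrix.mul_assoc, h1,
      Matrix.mul_assoc _ (ir A ι) B, h1, Matrix.mul_zero, Matrix.mul_zero, sub_zero, add_zero]
  have e2 : B * ex1 ι w = B := by
    rw [ex1, Matrix.mul_add, Matrix.mul_sub, Matrix.mul_one, ← Matrix.mul_assoc, h2,
      ← Matrix.mul_assoc, ← Matrix.mul_assoc, h2, Matrix.zero_mul, Matrix.zero_mul,
      Matrix.zero_mul, sub_zero, add_zero]
  rw [Matrix.mul_add, Matrix.add_mul, e1, e2, ← Matrix.mul_assoc, ← Matrix.mul_assoc, ex1_ic hι,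
    Matrix.mul_assoc _ (ir A ι) (ex1 ι w), ir_ex1 hι]
  simp only [Matrix.mul_assoc]

end Inc

section Mem

variable {O Y C Γ k N : Type} [DecidableEq O] [Group Γ] [MulAction Γ O] [MulAction Γ C]
  [CommRing k] (S : Sys O Y C)

theorem exists_low (s : Finset Y) : ∃ h : O →₀ ℕ, ∀ y ∈ s, S.F h y = ∅ := by
  obtain ⟨h, hh⟩ := Sys.exists_height (s.biUnion S.A)
  refine ⟨h, fun y hy => ?_⟩
  rw [Finset.eq_empty_iff_forall_notMem]
  intro o ho
  rw [S.mem_F] at ho
  obtain ⟨n, h1, h2⟩ := ho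
  have h3 : n < h o := Sys.mem_low.1 (hh (Finset.mem_biUnion.2 ⟨y, hy, h1⟩))
  omega

theorem mem_J0_of {s : Finset Y} {z : U Γ k S}
    (h : ∀ y' y, ent z.1 y' y ≠ 0 → y' ∈ s ∧ y ∈ s) : z ∈ J Γ k S 0 := by
  obtain ⟨h1, H⟩ := exists_low S s
  refine ⟨h1, fun g y' y hc => ?_⟩
  obtain ⟨a, b⟩ := h y' y (cf_ne_of_ne hc)
  rw [H y' a, H y b]
  exact ⟨le_refl _, le_refl _⟩

theorem J0_fin {z : U Γ k S} (hz : z ∈ J Γ k S 0) :
    ∃ s : Finset Y, ∀ y' y, ent z.1 y' y ≠ 0 → y' ∈ s ∧ y ∈ s := by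
  obtain ⟨h, H⟩ := hz
  refine ⟨(S.F_empty_fin h).toFinset, fun y' y hc => ?_⟩
  obtain ⟨g, hg⟩ : ∃ g, cf z.1 g y' y ≠ 0 := by
    by_contra hn
    push Not at hn
    exact hc (MonoidAlgebra.ext (Finsupp.ext hn))
  obtain ⟨a, b⟩ := H g y' y hg
  rw [Set.Finite.mem_toFinset, Set.Finite.mem_toFinset]
  exact ⟨Finset.card_eq_zero.1 (Nat.le_zero.1 a), Finset.card_eq_zero.1 (Nat.le_zero.1 b)⟩

theorem cf_gl_ne {s : Finset Y} {a : Matrix (N × s) (N × s) (MonoidAlgebra k Γ)} {P : N → Prop}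
    {p q : N} {y' y : Y} {g : Γ} (h : cf (gl s a P p q) g y' y ≠ 0) :
    (∃ (h' : y' ∈ s) (h : y ∈ s), (a (p, ⟨y', h'⟩) (q, ⟨y, h⟩)).coeff g ≠ 0) ∨
      (y' = y ∧ g = 1) := by
  classical
  by_cases hy : y' ∈ s ∧ y ∈ s
  · left
    refine ⟨hy.1, hy.2, ?_⟩
    rwa [cf, ent_gl, glE_in hy.1 hy.2] at h
  · right
    rw [cf, ent_gl] at h
    by_cases h1 : y' = y ∧ p = q ∧ P p
    · obtain ⟨rfl, rfl, hP⟩ := h1
      rw [glE_out (fun h => hy ⟨h, h⟩) hP, MonoidAlgebra.one_def, MonoidAlgebra.coeff_single,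
        Finsupp.single_apply] at h
      refine ⟨rfl, ?_⟩
      by_contra hg
      exact h (if_neg (Ne.symm hg))
    · rw [glE_ne (not_and_or.1 hy) h1, MonoidAlgebra.coeff_zero] at h
      exact absurd rfl h

theorem gl_mem [Finite N] (s : Finset Y) (a : Matrix (N × s) (N × s) (MonoidAlgebra k Γ))
    (P : N → Prop) (ha : Lb (fun i : N × s => S.lab i.2) (fun i : N × s => S.lab i.2) a)
    (p q : N) : gl s a P p q ∈ U Γ k S := by
  classical
  refine ⟨fun g y' y h => ?_, fun h' => ?_, ?_⟩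
  · rcases cf_gl_ne h with ⟨h', h1, h2⟩ | ⟨rfl, rfl⟩
    · exact ha _ _ _ h2
    · rw [one_smul]
  · obtain ⟨h0, H⟩ := exists_low S s
    refine ⟨h' ⊔ h0, fun g y' y h => ?_⟩
    rcases cf_gl_ne h with ⟨h1, h2, _⟩ | ⟨rfl, rfl⟩
    · refine ⟨fun o ho => ?_, fun o ho => ?_⟩
      · have := S.F_anti le_sup_right y ho
        rw [H y h2] at this
        exact absurd this (Finset.notMem_empty _)
      · have := S.F_anti le_sup_right y' ho
        rw [H y' h1] at this
        exact absurd this (Finset.notMem_empty _)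
    · refine ⟨fun o ho => ?_, fun o ho => ?_⟩
      · rw [one_smul]
        exact S.F_anti le_sup_left y' ho
      · rw [inv_one, one_smul]
        exact S.F_anti le_sup_left y' ho
  · have hfin : (insert (1 : k) (⋃ i : (N × s) × (N × s),
        Set.range fun g : (a i.1 i.2).coeff.support => (a i.1 i.2).coeff g)).Finite :=
      (Set.finite_iUnion fun i => Set.finite_range _).insert _
    refine ⟨Submodule.span ℤ (insert (1 : k) (⋃ i : (N × s) × (N × s),
        Set.range fun g : (a i.1 i.2).coeff.support => (a i.1 i.2).coeff g)),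
      Submodule.fg_span hfin, fun g y' y => ?_⟩
    by_cases h : cf (gl s a P p q) g y' y = 0
    · rw [h]
      exact Submodule.zero_mem _
    · by_cases hy : y' ∈ s ∧ y ∈ s
      · rw [cf, ent_gl, glE_in hy.1 hy.2] at h ⊢
        refine Submodule.subset_span (Or.inr (Set.mem_iUnion.2
          ⟨((p, ⟨y', hy.1⟩), (q, ⟨y, hy.2⟩)), ⟨g, Finsupp.mem_support_iff.2 h⟩, rfl⟩))
      · rw [cf, ent_gl] at h ⊢
        by_cases h1 : y' = y ∧ p = q ∧ P p
        · obtain ⟨rfl, rfl, hP⟩ := h1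
          rw [glE_out (fun h => hy ⟨h, h⟩) hP, MonoidAlgebra.one_def,
            MonoidAlgebra.coeff_single, Finsupp.single_apply] at h ⊢
          by_cases hg : 1 = g
          · rw [if_pos hg]
            exact Submodule.subset_span (Or.inl rfl)
          · rw [if_neg hg]
            exact Submodule.zero_mem _
        · rw [glE_ne (not_and_or.1 hy) h1, MonoidAlgebra.coeff_zero]
          exact Submodule.zero_mem _

end Mem

end Pool.Agent.CC
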