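import Pool.Agent.Lib.MP_8f66f0_al_CC.Sys.Ring

/-!
# Lifting modulo an ideal, after adding a diagonal matrix

`LL J D c`: after adding a diagonal matrix with entries in `D`, the matrix `c` is, modulo `J`, an
invertible matrix. `ll_step`: one step of the improvement of a diagonal idempotent by an isometry.
-/

set_option autoImplicit false

namespace Pool.Agent.CC

open Matrix Pool.Agent.Wald

section LL

variable {X : Type} [Ring X]

/-- The matrix `c`, plus a diagonal matrix with entries in `D`, lifts to an invertible matrix. -/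
def LL (J : Ideal X) (D : Set X) {n : Type} [Fintype n] [DecidableEq n] (c : Matrix n n X) :
    Prop :=
  ∃ (m : Type) (_ : Fintype m) (_ : DecidableEq m) (d : m → X) (u u' : Matrix (n ⊕ m) (n ⊕ m) X),
    (∀ l, d l ∈ D) ∧ u * u' = 1 ∧ u' * u = 1 ∧ MC J u (fromBlocks c 0 0 (diagonal d))

variable {J : Ideal X} {D : Set X} {n m : Type} [Fintype n] [DecidableEq n] [Fintype m]
  [DecidableEq m]

theorem LL.congr {c c' : Matrix n n X} (h : LL J D c) (hc : MC J c c') : LL J D c' := by
  obtain ⟨m, _, _, d, u, u', h1, h2, h3, h4⟩ := h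
  exact ⟨m, _, _, d, u, u', h1, h2, h3,
    h4.trans (MC.fromBlocks hc (MC.refl _) (MC.refl _) (MC.refl _))⟩

theorem LL.of_unit {u u' : Matrix n n X} (h : u * u' = 1) (h' : u' * u = 1) : LL J D u := by
  refine ⟨Empty, inferInstance, inferInstance, Empty.elim, fromBlocks u 0 0 1, fromBlocks u' 0 0 1,
    fun l => l.elim, ?_, ?_, ?_⟩
  · rw [fromBlocks_multiply, ← fromBlocks_one]
    simp [h]
  · rw [fromBlocks_multiply, ← fromBlocks_one]
    simp [h']
  · refine MC.of_eq ?_
    congr 1
    exact Matrix.ext fun i => i.elim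

theorem sub_mul_equiv {n m : Type} [Fintype n] [DecidableEq n] [Fintype m] [DecidableEq m]
    (σ : n ≃ m) (A B : Matrix m m X) :
    A.submatrix σ σ * B.submatrix σ σ = (A * B).submatrix σ σ :=
  Matrix.submatrix_mul_equiv A B σ σ σ

theorem fb_one {n m : Type} [Fintype n] [DecidableEq n] [Fintype m] [DecidableEq m]
    {A B : Matrix n n X} (h : A * B = 1) :
    (fromBlocks A 0 0 1 : Matrix (n ⊕ m) (n ⊕ m) X) * fromBlocks B 0 0 1 = 1 := by
  rw [fromBlocks_multiply]
  simp [h]

/-- The equivalence which exchanges the last two summands. -/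
def sw (n m k : Type) : n ⊕ (m ⊕ k) ≃ (n ⊕ k) ⊕ m where
  toFun := Sum.elim (fun i => Sum.inl (Sum.inl i))
    (Sum.elim (fun i => Sum.inr i) fun i => Sum.inl (Sum.inr i))
  invFun := Sum.elim (Sum.elim (fun i => Sum.inl i) fun i => Sum.inr (Sum.inr i))
    fun i => Sum.inr (Sum.inl i)
  left_inv := by rintro (i | i | i) <;> rfl
  right_inv := by rintro ((i | i) | i) <;> rfl

theorem LL.mul [J.IsTwoSided] {c c' : Matrix n n X} (h : LL J D c) (h' : LL J D c') :
    LL J D (c * c') := by
  obtain ⟨m, _, _, d, u, v, h1, h2, h3, h4⟩ := h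
  obtain ⟨k, _, _, d', u', v', g1, g2, g3, g4⟩ := h'
  let σ : n ⊕ (m ⊕ k) ≃ (n ⊕ m) ⊕ k := (Equiv.sumAssoc n m k).symm
  let τ := sw n m k
  refine ⟨m ⊕ k, inferInstance, inferInstance, Sum.elim d d',
    (fromBlocks u 0 0 1).submatrix σ σ * (fromBlocks u' 0 0 1).submatrix τ τ,
    (fromBlocks v' 0 0 1).submatrix τ τ * (fromBlocks v 0 0 1).submatrix σ σ, ?_, ?_, ?_, ?_⟩
  · rintro (l | l)
    · exact h1 l
    · exact g1 l
  · calc _ = (fromBlocks u 0 0 1).submatrix σ σ * ((fromBlocks u' 0 0 1).submatrix τ τ *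
        (fromBlocks v' 0 0 1).submatrix τ τ) * (fromBlocks v 0 0 1).submatrix σ σ := by
          simp only [Matrix.mul_assoc]
      _ = 1 := by
          rw [sub_mul_equiv, fb_one g2, submatrix_one_equiv, mul_one, sub_mul_equiv, fb_one h2,
            submatrix_one_equiv]
  · calc _ = (fromBlocks v' 0 0 1).submatrix τ τ * ((fromBlocks v 0 0 1).submatrix σ σ *
        (fromBlocks u 0 0 1).submatrix σ σ) * (fromBlocks u' 0 0 1).submatrix τ τ := by
          simp only [Matrix.mul_assoc]
      _ = 1 := by
          rw [sub_mul_equiv, fb_one h3, submatrix_one_equiv, mul_one, sub_mul_equiv, fb_one g3,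
            submatrix_one_equiv]
  · have e1 : MC J ((fromBlocks u 0 0 1).submatrix σ σ)
        (fromBlocks c 0 0 (fromBlocks (diagonal d) 0 0 (1 : Matrix k k X))) := by
      refine ((MC.fromBlocks h4 (MC.refl _) (MC.refl _) (MC.refl _)).submatrix σ σ).trans
        (MC.of_eq ?_)
      ext i j
      rcases i with i | i | i <;> rcases j with j | j | j <;> rfl
    have e2 : MC J ((fromBlocks u' 0 0 1).submatrix τ τ)
        (fromBlocks c' 0 0 (fromBlocks (1 : Matrix m m X) 0 0 (diagonal d'))) := by
      refine ((MC.fromBlocks g4 (MC.refl _) (MC.refl _) (MC.refl _)).submatrix τ τ).trans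
        (MC.of_eq ?_)
      ext i j
      rcases i with i | i | i <;> rcases j with j | j | j <;> rfl
    refine (e1.mul e2).trans (MC.of_eq ?_)
    rw [fromBlocks_multiply, fromBlocks_multiply, ← fromBlocks_diagonal]
    simp

theorem LL.diag [J.IsTwoSided] (hD : ∀ d ∈ D, ∃ d' ∈ D, d * d' - 1 ∈ J ∧ d' * d - 1 ∈ J)
    (d : n → X) (hd : ∀ i, d i ∈ D) : LL J D (diagonal d) := by
  choose d' h1 h2 h3 using fun i => hD (d i) (hd i)
  have e : ∀ a b : n → X, (∀ i, a i * b i - 1 ∈ J) → MC J (diagonal a * diagonal b) 1 := by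
    intro a b hab i j
    rw [diagonal_mul_diagonal]
    by_cases h : i = j
    · subst h
      rw [diagonal_apply_eq, one_apply_eq]
      exact hab i
    · rw [diagonal_apply_ne _ h, one_apply_ne h, sub_self]
      exact J.zero_mem
  obtain ⟨w, w', a1, a2, a3, _⟩ := lift_diag (diagonal d) (diagonal d') (e d d' h2) (e d' d h3)
  exact ⟨n, inferInstance, inferInstance, d', w, w', h1, a1, a2, a3⟩

theorem LL.of_sum (hD : (1 : X) ∈ D) {c : Matrix n n X}
    (h : LL J D (fromBlocks c 0 0 1 : Matrix (n ⊕ m) (n ⊕ m) X)) : LL J D c := by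
  obtain ⟨k, _, _, d, u, v, h1, h2, h3, h4⟩ := h
  let σ : n ⊕ (m ⊕ k) ≃ (n ⊕ m) ⊕ k := (Equiv.sumAssoc n m k).symm
  refine ⟨m ⊕ k, inferInstance, inferInstance, Sum.elim (fun _ => 1) d, u.submatrix σ σ,
    v.submatrix σ σ, ?_, ?_, ?_, ?_⟩
  · rintro (l | l)
    · exact hD
    · exact h1 l
  · rw [sub_mul_equiv, h2, submatrix_one_equiv]
  · rw [sub_mul_equiv, h3, submatrix_one_equiv]
  · refine (h4.submatrix σ σ).trans (MC.of_eq ?_)
    rw [← fromBlocks_diagonal, diagonal_one]
    ext i j
    rcases i with i | i | i <;> rcases j with j | j | j <;> rfl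

theorem LL.of_diag_mul [J.IsTwoSided]
    (hD : ∀ d ∈ D, ∃ d' ∈ D, d * d' - 1 ∈ J ∧ d' * d - 1 ∈ J) (d : n → X) (hd : ∀ i, d i ∈ D)
    {c : Matrix n n X} (h : LL J D (diagonal d * c)) : LL J D c := by
  choose d' h1 h2 h3 using fun i => hD (d i) (hd i)
  refine ((LL.diag hD d' h1).mul h).congr ?_
  rw [← Matrix.mul_assoc, diagonal_mul_diagonal]
  have e : MC J (diagonal fun i => d' i * d i) (1 : Matrix n n X) := by
    intro i j
    by_cases h : i = j
    · subst h
      rw [diagonal_apply_eq, one_apply_eq]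
      exact h3 i
    · rw [diagonal_apply_ne _ h, one_apply_ne h, sub_self]
      exact J.zero_mem
  have e2 := e.mul_right c
  rwa [one_mul] at e2

/-- The unit `q y + (1 - q)` if `y` commutes with the idempotent `q`. -/
theorem LL.of_comm {q y y' : Matrix n n X} (y1 : y * y' = 1) (y2 : y' * y = 1) (qq : q * q = q)
    (yq : y * q * y' = q) : LL J D (q * y + (1 - q)) := by
  have yq' : y * q = q * y := by
    calc y * q = y * q * (y' * y) := by rw [y2, mul_one]
      _ = y * q * y' * y := by noncomm_ring
      _ = q * y := by rw [yq]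
  have y'q : y' * q = q * y' := by
    calc y' * q = y' * q * (y * y') := by rw [y1, mul_one]
      _ = y' * (q * y) * y' := by noncomm_ring
      _ = y' * (y * q) * y' := by rw [yq']
      _ = (y' * y) * q * y' := by noncomm_ring
      _ = q * y' := by rw [y2, one_mul]
  refine LL.of_unit (u' := q * y' + (1 - q)) ?_ ?_
  · calc (q * y + (1 - q)) * (q * y' + (1 - q)) = q * (y * q) * y' + (q * y - q * (y * q)) +
          (q - q * q) * y' + (1 - q - q + q * q) := by noncomm_ring
      _ = (q * q) * (y * y') + (q * y - (q * q) * y) + (q - q * q) * y' + (1 - q - q + q * q) := by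
          rw [yq']; noncomm_ring
      _ = 1 := by rw [y1, qq]; noncomm_ring
  · calc (q * y' + (1 - q)) * (q * y + (1 - q)) = q * (y' * q) * y + (q * y' - q * (y' * q)) +
          (q - q * q) * y + (1 - q - q + q * q) := by noncomm_ring
      _ = (q * q) * (y' * y) + (q * y' - (q * q) * y') + (q - q * q) * y + (1 - q - q + q * q) := by
          rw [y'q]; noncomm_ring
      _ = 1 := by rw [y2, qq]; noncomm_ring

end LL

section Step

variable {X : Type} [Ring X] {n : Type} [Fintype n] [DecidableEq n]

/-- The matrix `[s', 0; π, s]` at the places `p` and `()`. -/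
def wA (p : n) (s s' : X) : Matrix (n ⊕ Unit) (n ⊕ Unit) X :=
  fromBlocks (diagonal (Function.update (fun _ => 1) p s')) 0
    (Matrix.of fun _ j => if j = p then 1 - s * s' else 0) (Matrix.of fun _ _ => s)

/-- The inverse matrix `[s, π; 0, s']`. -/
def wB (p : n) (s s' : X) : Matrix (n ⊕ Unit) (n ⊕ Unit) X :=
  fromBlocks (diagonal (Function.update (fun _ => 1) p s))
    (Matrix.of fun i _ => if i = p then 1 - s * s' else 0) 0 (Matrix.of fun _ _ => s')

theorem s_pi {s s' : X} (h : s' * s = 1) : (1 - s * s') * s = 0 := by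
  rw [sub_mul, one_mul, mul_assoc, h, mul_one, sub_self]

theorem pi_s {s s' : X} (h : s' * s = 1) : s' * (1 - s * s') = 0 := by
  rw [mul_sub, mul_one, ← mul_assoc, h, one_mul, sub_self]

theorem pi_pi {s s' : X} (h : s' * s = 1) : (1 - s * s') * (1 - s * s') = 1 - s * s' := by
  rw [mul_sub, mul_one, ← mul_assoc, s_pi h, zero_mul, sub_zero]

/-- Conjugation of a diagonal matrix by `wA`, `wB`. -/
theorem wA_mul_wB (p : n) {s s' : X} (h : s' * s = 1) (T : n → X) (t : X)
    (h1 : (1 - s * s') * T p = (1 - s * s') * t) (h2 : T p * (1 - s * s') = t * (1 - s * s'))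
    (h3 : t = 0 ∨ t = 1) :
    wA p s s' * fromBlocks (diagonal T) 0 0 (Matrix.of fun _ _ => t) * wB p s s' =
      fromBlocks (diagonal (Function.update T p (s' * T p * s))) 0 0 (Matrix.of fun _ _ => t) := by
  have hst : s' * (T p * (1 - s * s')) = 0 := by
    rw [h2]
    rcases h3 with rfl | rfl
    · rw [zero_mul, mul_zero]
    · rw [one_mul, pi_s h]
  have hts : (1 - s * s') * (T p * s) = 0 := by
    rw [← mul_assoc, h1]
    rcases h3 with rfl | rfl
    · rw [mul_zero, zero_mul]
    · rw [mul_one, s_pi h]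
  have hpp : (1 - s * s') * (T p * (1 - s * s')) + s * (t * s') = t := by
    rw [h2, ← mul_assoc]
    rcases h3 with rfl | rfl
    · simp
    · rw [mul_one, one_mul, pi_pi h]
      abel
  have kB : (Matrix.of fun (_ : Unit) (j : n) => if j = p then 1 - s * s' else 0) * diagonal T =
      Matrix.of fun _ j => if j = p then (1 - s * s') * T p else 0 := by
    ext i j
    rw [Matrix.mul_diagonal, Matrix.of_apply, Matrix.of_apply]
    by_cases hj : j = p
    · rw [if_pos hj, if_pos hj, hj]
    · rw [if_neg hj, if_neg hj, zero_mul]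
  rw [wA, wB, fromBlocks_multiply, fromBlocks_multiply, kB]
  congr 1
  · ext i j
    simp only [Matrix.mul_zero, add_zero, diagonal_mul_diagonal]
    by_cases hij : i = j
    · subst hij
      rw [diagonal_apply_eq, diagonal_apply_eq]
      by_cases hi : i = p
      · subst hi
        simp
      · simp [Function.update_of_ne hi]
    · rw [diagonal_apply_ne _ hij, diagonal_apply_ne _ hij]
  · ext i j
    simp only [Matrix.mul_zero, add_zero, Matrix.zero_mul, diagonal_mul_diagonal,
      Matrix.zero_apply, diagonal_mul, Matrix.of_apply, Matrix.add_apply]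
    by_cases hi : i = p
    · subst hi
      rw [if_pos rfl, Function.update_self, mul_assoc, hst]
    · rw [if_neg hi, mul_zero]
  · ext i j
    simp only [Matrix.mul_zero, add_zero, Matrix.add_apply,
      Matrix.zero_apply, Matrix.mul_diagonal, Matrix.of_apply]
    by_cases hj : j = p
    · subst hj
      rw [if_pos rfl, Function.update_self, mul_assoc, hts]
    · rw [if_neg hj, zero_mul]
  · ext i j
    simp only [Matrix.mul_zero, add_zero, zero_add, Matrix.add_apply,
      Matrix.mul_apply, Matrix.of_apply, Finset.univ_unique, Finset.sum_const,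
      Finset.card_singleton, one_smul]
    rw [Finset.sum_eq_single p]
    · rw [if_pos rfl, if_pos rfl, mul_assoc, mul_assoc, hpp]
    · intro b _ hb
      rw [if_neg hb, if_neg hb, mul_zero]
    · intro hp
      exact absurd (Finset.mem_univ p) hp

theorem wA_wB (p : n) {s s' : X} (h : s' * s = 1) : wA p s s' * wB p s s' = 1 := by
  have h1 := wA_mul_wB p h (fun _ => (1 : X)) 1 (by rfl) (by rfl) (Or.inr rfl)
  have h2 : (fromBlocks (diagonal fun _ => (1 : X)) 0 0 (Matrix.of fun _ _ => (1 : X)) :
      Matrix (n ⊕ Unit) (n ⊕ Unit) X) = 1 := by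
    rw [← fromBlocks_one, diagonal_one]
    congr 1
  rw [h2, mul_one] at h1
  rw [h1, ← h2]
  congr 2
  rw [mul_one, h, Function.update_eq_self_iff]

theorem wB_wA (p : n) {s s' : X} (h : s' * s = 1) : wB p s s' * wA p s s' = 1 := by
  rw [wA, wB, fromBlocks_multiply, ← fromBlocks_one]
  congr 1
  · ext i j
    rw [Matrix.add_apply, diagonal_mul_diagonal, Matrix.mul_apply]
    simp only [Matrix.of_apply, Finset.univ_unique, Finset.sum_const, Finset.card_singleton,
      one_smul]
    by_cases hij : i = j
    · subst hij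
      rw [diagonal_apply_eq, one_apply_eq]
      by_cases hi : i = p
      · subst hi
        rw [if_pos rfl, Function.update_self, Function.update_self, pi_pi h]
        abel
      · rw [if_neg hi, Function.update_of_ne hi, Function.update_of_ne hi, mul_one, mul_zero,
          add_zero]
    · rw [diagonal_apply_ne _ hij, one_apply_ne hij, zero_add]
      by_cases hi : i = p
      · rw [if_neg fun hj : j = p => hij (hi.trans hj.symm), mul_zero]
      · rw [if_neg hi, zero_mul]
  · ext i j
    simp only [Matrix.mul_zero, Matrix.add_apply, Matrix.zero_apply, zero_add, Matrix.mul_apply,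
      Matrix.of_apply, Finset.univ_unique, Finset.sum_const, Finset.card_singleton, one_smul]
    by_cases hi : i = p
    · rw [if_pos hi, s_pi h]
    · rw [if_neg hi, zero_mul]
  · ext i j
    simp only [Matrix.zero_mul, Matrix.add_apply, Matrix.zero_apply, zero_add, Matrix.mul_apply,
      Matrix.of_apply, Finset.univ_unique, Finset.sum_const, Finset.card_singleton, one_smul]
    by_cases hj : j = p
    · rw [if_pos hj, pi_s h]
    · rw [if_neg hj, mul_zero]
  · ext i j
    rw [Matrix.zero_mul, zero_add, Matrix.mul_apply]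
    simp only [Matrix.of_apply, Finset.univ_unique, Finset.sum_const, Finset.card_singleton,
      one_smul]
    rw [h]
    rfl

/-- One step of the improvement of a diagonal idempotent. -/
theorem ll_step {J : Ideal X} [J.IsTwoSided] {D : Set X} (h1D : (1 : X) ∈ D)
    (hD : ∀ d ∈ D, ∃ d' ∈ D, d * d' - 1 ∈ J ∧ d' * d - 1 ∈ J) {s s' : X} (hs : s ∈ D)
    (hs' : s' ∈ D) (hJ : 1 - s * s' ∈ J) (p : n) (Q : n → Prop) (y : Matrix n n X)
    (hll : LL J D (pj (Sum.elim Q fun _ : Unit => ¬ Q p) * (wA p s s' * fromBlocks y 0 0 1) +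
      (1 - pj (Sum.elim Q fun _ : Unit => ¬ Q p)))) :
    LL J D (pj Q * y + (1 - pj Q)) := by
  classical
  let Q' : n ⊕ Unit → Prop := Sum.elim Q fun _ => ¬ Q p
  let α : n ⊕ Unit → X := Sum.elim (Function.update (fun _ => 1) p s') fun _ => s
  let δ : n ⊕ Unit → X := fun i => if Q' i then α i else 1
  have hα : ∀ i, α i ∈ D := by
    rintro (i | i)
    · change Function.update (fun _ => (1 : X)) p s' i ∈ D
      by_cases hi : i = p
      · subst hi
        rw [Function.update_self]
        exact hs'
      · rw [Function.update_of_ne hi]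
        exact h1D
    · exact hs
  have hδ : ∀ i, δ i ∈ D := by
    intro i
    change (if Q' i then α i else 1) ∈ D
    split_ifs
    · exact hα i
    · exact h1D
  have e1 : MC J (wA p s s') (diagonal α) := by
    have e2 : (diagonal α : Matrix (n ⊕ Unit) (n ⊕ Unit) X) =
        fromBlocks (diagonal (Function.update (fun _ => 1) p s')) 0 0 (diagonal fun _ => s) := by
      rw [fromBlocks_diagonal]
    rw [e2, wA]
    refine MC.fromBlocks (MC.refl _) (MC.refl _) ?_ ?_
    · intro i j
      rw [Matrix.of_apply, Matrix.zero_apply, sub_zero]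
      split_ifs
      · exact hJ
      · exact J.zero_mem
    · refine MC.of_eq ?_
      ext i j
      rw [Matrix.of_apply, show i = j from rfl, diagonal_apply_eq]
  have e3 : pj Q' * (diagonal α * fromBlocks y 0 0 1) + (1 - pj Q') =
      diagonal δ * (fromBlocks (pj Q * y + (1 - pj Q)) 0 0 1) := by
    have e4 : (fromBlocks (pj Q * y + (1 - pj Q)) 0 0 1 : Matrix (n ⊕ Unit) (n ⊕ Unit) X) =
        pj Q' * fromBlocks y 0 0 1 + (1 - pj Q') := by
      change _ = pj (Sum.elim Q fun _ => ¬ Q p) * _ + (1 - pj (Sum.elim Q fun _ => ¬ Q p))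
      rw [pj_sum, fromBlocks_multiply, ← fromBlocks_one (l := n) (m := Unit), fb_sub,
        fromBlocks_add]
      simp
    rw [e4, pj_eq Q']
    generalize (fromBlocks y 0 0 1 : Matrix (n ⊕ Unit) (n ⊕ Unit) X) = Z
    ext i j
    rw [Matrix.add_apply, Matrix.sub_apply, diagonal_mul, diagonal_mul, diagonal_mul,
      Matrix.add_apply, Matrix.sub_apply, diagonal_mul]
    by_cases hi : Q' i
    · have h1 : δ i = α i := if_pos hi
      rw [h1, if_pos hi, one_mul, one_mul, mul_add]
      congr 1
      by_cases hij : i = j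
      · subst hij
        rw [diagonal_apply_eq, one_apply_eq, if_pos hi, sub_self, mul_zero]
      · rw [diagonal_apply_ne _ hij, one_apply_ne hij, sub_self, mul_zero]
    · have h1 : δ i = 1 := if_neg hi
      rw [h1, if_neg hi, zero_mul, zero_mul, one_mul]
  have e5 := (((e1.mul_right (fromBlocks y 0 0 1)).mul_left (pj Q')).add
    (MC.refl (J := J) (1 - pj Q'))).trans (MC.of_eq e3)
  exact LL.of_sum h1D (LL.of_diag_mul hD δ hδ (hll.congr e5))

end Step

end Pool.Agent.CC
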