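import Pool.Agent.Lib.MP_8f66f0_al_CC.Sys.Defs
import Pool.Agent.Lib.MP_8f66f0_al_CC.End.Ext

/-!
# Theorem CC: the rings of exact systems are flasque

`Flas Y`: there are two isometries `c`, `d` with `c c' + d d' = 1` and a non-unital endomorphism `Λ` of
`Y` with `c z c' + d Λ(z) d' = Λ(z)`. Then all `K₁`-like invariants of `Y` are trivial (`flq_of_flas`). The
ring of an exact system of size at least one is flasque (`flas`).
-/

set_option autoImplicit false

namespace Pool.Agent.CC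

open Pool.Agent.TQ Pool.Agent.Wald

/-- Flasque rings. -/
def Flas (Y : Type) [Ring Y] : Prop :=
  ∃ (c c' d d' : Y) (Λ : Y →ₙ+* Y), c' * c = 1 ∧ d' * d = 1 ∧ c' * d = 0 ∧ d' * c = 0 ∧
    c * c' + d * d' = 1 ∧ ∀ z, c * z * c' + d * Λ z * d' = Λ z

theorem flq_of_flas {Y : Type} [Ring Y] (h : Flas Y) : Flq Y := by
  classical
  intro K _ κ n _ _ z hz
  obtain ⟨c, c', d, d', Λ, h1, h2, h3, h4, h5, h6⟩ := h
  -- the rectangular matrices
  let W : Matrix n (n ⊕ n) Y := Matrix.fromCols (Matrix.diagonal fun _ => c)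
    (Matrix.diagonal fun _ => d)
  let W' : Matrix (n ⊕ n) n Y := Matrix.fromRows (Matrix.diagonal fun _ => c')
    (Matrix.diagonal fun _ => d')
  have w1 : W' * W = 1 := by
    rw [Matrix.fromRows_mul_fromCols, Matrix.diagonal_mul_diagonal, Matrix.diagonal_mul_diagonal,
      Matrix.diagonal_mul_diagonal, Matrix.diagonal_mul_diagonal, h1, h2, h3, h4,
      Matrix.diagonal_zero, Matrix.diagonal_one, Matrix.fromBlocks_one]
  have w2 : W * W' = 1 := by
    rw [Matrix.fromCols_mul_fromRows, Matrix.diagonal_mul_diagonal, Matrix.diagonal_mul_diagonal,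
      Matrix.diagonal_add, h5, Matrix.diagonal_one]
  set E := Ex Λ z with hE
  have uE : IsUnit E := ex_unit Λ hz
  set D : Matrix (n ⊕ n) (n ⊕ n) Y := Matrix.fromBlocks z 0 0 E with hD
  have uD : IsUnit D := K1Fun.isUnit_tri 0 hz uE
  have e1 : W * D * W' = E := by
    have a1 : W * (D - 1) * W' = E - 1 := by
      have b1 : D - 1 = Matrix.fromBlocks (z - 1) 0 0 (E - 1) := by
        rw [hD, ← Matrix.fromBlocks_one, sub_eq_add_neg, Matrix.fromBlocks_neg,
          Matrix.fromBlocks_add]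
        simp only [neg_zero, add_zero, ← sub_eq_add_neg]
      have b2 : E - 1 = (z - 1).map Λ := by rw [hE, Ex, add_sub_cancel_left]
      rw [b1, Matrix.fromCols_mul_fromBlocks, Matrix.fromCols_mul_fromRows]
      simp only [Matrix.mul_zero, add_zero, zero_add]
      rw [b2]
      refine Matrix.ext fun i j => ?_
      rw [Matrix.add_apply, Matrix.mul_diagonal, Matrix.mul_diagonal, Matrix.diagonal_mul,
        Matrix.diagonal_mul, Matrix.map_apply]
      exact h6 _
    have a2 : W * D * W' = W * (D - 1) * W' + W * W' := by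
      rw [Matrix.mul_sub, Matrix.mul_one, Matrix.sub_mul, sub_add_cancel]
    rw [a2, a1, w2, sub_add_cancel]
  have s := sameK_swap ((1 - D) * W') W
  have s1 : 1 - (1 - D) * W' * W = D := by
    rw [Matrix.mul_assoc, w1, Matrix.mul_one, sub_sub_cancel]
  have s2 : 1 - W * ((1 - D) * W') = E := by
    rw [Matrix.sub_mul, Matrix.mul_sub, Matrix.one_mul, w2, ← Matrix.mul_assoc, e1,
      sub_sub_cancel]
  have s3 := (s (by rw [s1]; exact uD)).2 K κ
  rw [s1, s2, hD, κ.tri _ 0 _ hz uE] at s3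
  exact mul_eq_right.1 s3.symm

section Gr

variable {Y A : Type} [Ring A]

open Classical in
/-- The matrix of an injective map. -/
noncomputable def gr (α : Y → Y) (hα : Function.Injective α) : RCF Y A :=
  mkK (fun y x => if y = α x then 1 else 0)
    (fun y => by
      refine Set.Subsingleton.finite fun x hx x' hx' => ?_
      have h1 : y = α x := by
        by_contra h
        exact hx (if_neg h)
      have h2 : y = α x' := by
        by_contra h
        exact hx' (if_neg h)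
      exact hα (h1.symm.trans h2))
    (fun x => (Set.finite_singleton (α x)).subset fun y hy => by
      by_contra h
      exact hy (if_neg h))

open Classical in
/-- The transposed matrix. -/
noncomputable def gt (α : Y → Y) (hα : Function.Injective α) : RCF Y A :=
  mkK (fun y x => if x = α y then 1 else 0)
    (fun y => (Set.finite_singleton (α y)).subset fun x hx => by
      by_contra h
      exact hx (if_neg h))
    (fun x => by
      refine Set.Subsingleton.finite fun y hy y' hy' => ?_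
      have h1 : x = α y := by
        by_contra h
        exact hy (if_neg h)
      have h2 : x = α y' := by
        by_contra h
        exact hy' (if_neg h)
      exact hα (h1.symm.trans h2))

open Classical in
theorem ent_gr (α : Y → Y) (hα : Function.Injective α) (y x : Y) :
    ent (gr α hα : RCF Y A) y x = if y = α x then 1 else 0 := ent_mkK _ _ _ y x

open Classical in
theorem ent_gt (α : Y → Y) (hα : Function.Injective α) (y x : Y) :
    ent (gt α hα : RCF Y A) y x = if x = α y then 1 else 0 := ent_mkK _ _ _ y x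

theorem gr_mul (α : Y → Y) (hα : Function.Injective α) (z : RCF Y A) (y x : Y) :
    ent (gr α hα * z) (α y) x = ent z y x := by
  classical
  rw [ent_mul_row _ _ _ _ {y} fun v hv => ?_, Finset.sum_singleton, ent_gr, if_pos rfl, one_mul]
  rw [ent_gr] at hv
  rw [Finset.mem_singleton]
  by_contra h
  exact hv (if_neg fun h' => h (hα h'.symm))

theorem gr_mul_ne (α : Y → Y) (hα : Function.Injective α) (z : RCF Y A) (y x : Y)
    (hy : y ∉ Set.range α) : ent (gr α hα * z) y x = 0 := by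
  classical
  by_contra h
  obtain ⟨v, hv⟩ := exists_of_ent_mul h
  have h1 := left_ne_zero_of_mul hv
  rw [ent_gr] at h1
  exact h1 (if_neg fun h' => hy ⟨v, h'.symm⟩)

theorem mul_gt (α : Y → Y) (hα : Function.Injective α) (z : RCF Y A) (y x : Y) :
    ent (z * gt α hα) y (α x) = ent z y x := by
  classical
  rw [ent_mul_col _ _ _ _ {x} fun v hv => ?_, Finset.sum_singleton, ent_gt, if_pos rfl, mul_one]
  rw [ent_gt] at hv
  rw [Finset.mem_singleton]
  by_contra h
  exact hv (if_neg fun h' => h (hα h'.symm))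

theorem mul_gt_ne (α : Y → Y) (hα : Function.Injective α) (z : RCF Y A) (y x : Y)
    (hx : x ∉ Set.range α) : ent (z * gt α hα) y x = 0 := by
  classical
  by_contra h
  obtain ⟨v, hv⟩ := exists_of_ent_mul h
  have h1 := right_ne_zero_of_mul hv
  rw [ent_gt] at h1
  exact h1 (if_neg fun h' => hx ⟨v, h'.symm⟩)

theorem gt_mul (α : Y → Y) (hα : Function.Injective α) (z : RCF Y A) (y x : Y) :
    ent (gt α hα * z) y x = ent z (α y) x := by
  classical
  rw [ent_mul_row _ _ _ _ {α y} fun v hv => ?_, Finset.sum_singleton, ent_gt, if_pos rfl, one_mul]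
  rw [ent_gt] at hv
  rw [Finset.mem_singleton]
  by_contra h
  exact hv (if_neg h)

theorem gt_gr (α : Y → Y) (hα : Function.Injective α) : (gt α hα * gr α hα : RCF Y A) = 1 := by
  classical
  refine ent_ext fun y x => ?_
  rw [gt_mul, ent_gr, ent_one]
  exact if_congr hα.eq_iff rfl rfl

theorem gt_gr_zero (α β : Y → Y) (hα : Function.Injective α) (hβ : Function.Injective β)
    (h : ∀ y x, α y ≠ β x) : (gt α hα * gr β hβ : RCF Y A) = 0 := by
  classical
  refine ent_ext fun y x => ?_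
  rw [gt_mul, ent_gr, ent_zero, if_neg (h y x)]

theorem gr_add (α β : Y → Y) (hα : Function.Injective α) (hβ : Function.Injective β)
    (h : ∀ y x, α y ≠ β x) (h' : ∀ y, y ∈ Set.range α ∨ y ∈ Set.range β) :
    (gr α hα * gt α hα + gr β hβ * gt β hβ : RCF Y A) = 1 := by
  classical
  refine ent_ext fun y x => ?_
  rw [ent_add, ent_one]
  rcases h' y with ⟨y', rfl⟩ | ⟨y', rfl⟩
  · rw [gr_mul, gr_mul_ne β hβ _ _ _ (fun ⟨u, hu⟩ => h y' u hu.symm), add_zero, ent_gt]
    exact if_congr eq_comm rfl rfl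
  · rw [gr_mul, gr_mul_ne α hα _ _ _ (fun ⟨u, hu⟩ => h u y' hu), zero_add, ent_gt]
    exact if_congr eq_comm rfl rfl

/-- The block diagonal matrix. -/
private theorem bd_ex (z : RCF Y A) : ∃ w : RCF (ℕ × Y) A, ∀ p q,
    ent w p q = if p.1 = q.1 then ent z p.2 q.2 else 0 := by
  refine exists_ent _ (fun p => ?_) fun q => ?_
  · refine ((ent_row z p.2).image fun x => (p.1, x)).subset fun q hq => ?_
    by_cases h : p.1 = q.1
    · rw [Set.mem_ofPred_eq, if_pos h] at hq
      exact ⟨q.2, hq, Prod.ext h rfl⟩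
    · exact absurd (if_neg h) hq
  · refine ((ent_col z q.2).image fun x => (q.1, x)).subset fun p hp => ?_
    by_cases h : p.1 = q.1
    · rw [Set.mem_ofPred_eq, if_pos h] at hp
      exact ⟨p.2, hp, Prod.ext h.symm rfl⟩
    · exact absurd (if_neg h) hp

/-- The block diagonal matrix with infinitely many equal blocks. -/
noncomputable def bd (z : RCF Y A) : RCF (ℕ × Y) A := (bd_ex z).choose

theorem ent_bd (z : RCF Y A) (p q : ℕ × Y) :
    ent (bd z) p q = if p.1 = q.1 then ent z p.2 q.2 else 0 := (bd_ex z).choose_spec p q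

theorem bd_zero : bd (0 : RCF Y A) = 0 := ent_ext fun p q => by
  rw [ent_bd, ent_zero, ent_zero, ite_self]

theorem bd_add (z w : RCF Y A) : bd (z + w) = bd z + bd w := ent_ext fun p q => by
  rw [ent_add, ent_bd, ent_bd, ent_bd, ent_add]
  split
  · rfl
  · rw [add_zero]

theorem bd_mul (z w : RCF Y A) : bd (z * w) = bd z * bd w := by
  classical
  refine ent_ext fun p q => ?_
  rw [ent_mul_col (bd z) (bd w) p q ((ent_col w q.2).toFinset.image fun x => (q.1, x))
    fun v hv => ?_, Finset.sum_image fun a _ b _ h => (Prod.ext_iff.1 h).2, ent_bd,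
    ent_mul_col z w p.2 q.2 (ent_col w q.2).toFinset fun v hv => by
      rw [Set.Finite.mem_toFinset]; exact hv]
  · by_cases h : p.1 = q.1
    · rw [if_pos h]
      refine Finset.sum_congr rfl fun v _ => ?_
      rw [ent_bd, ent_bd, if_pos h, if_pos rfl]
    · rw [if_neg h]
      refine (Finset.sum_eq_zero fun v _ => ?_).symm
      rw [ent_bd, if_neg h, zero_mul]
  · rw [ent_bd] at hv
    by_cases h : v.1 = q.1
    · rw [if_pos h] at hv
      rw [Finset.mem_image]
      exact ⟨v.2, by rw [Set.Finite.mem_toFinset]; exact hv, Prod.ext h.symm rfl⟩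
    · exact absurd (if_neg h) hv

end Gr

/-- The numbers `2 ^ m (2 n + 1) - 1`. -/
def th : ℕ → ℕ → ℕ
  | 0, n => 2 * n
  | m + 1, n => 2 * th m n + 1

theorem th_inj : ∀ {m m' n n' : ℕ}, th m n = th m' n' → m = m' ∧ n = n'
  | 0, 0, n, n', h => by
    have h1 : 2 * n = 2 * n' := h
    exact ⟨rfl, by omega⟩
  | 0, m' + 1, n, n', h => by
    have h1 : 2 * n = 2 * th m' n' + 1 := h
    omega
  | m + 1, 0, n, n', h => by
    have h1 : 2 * th m n + 1 = 2 * n' := h
    omega
  | m + 1, m' + 1, n, n', h => by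
    have h1 : 2 * th m n + 1 = 2 * th m' n' + 1 := h
    obtain ⟨h2, h3⟩ := th_inj (m := m) (m' := m') (n := n) (n' := n') (by omega)
    exact ⟨by omega, h3⟩

theorem le_th (m n : ℕ) : m ≤ th m n ∧ n ≤ th m n := by
  induction m with
  | zero =>
    change 0 ≤ 2 * n ∧ n ≤ 2 * n
    omega
  | succ m ih =>
    change m + 1 ≤ 2 * th m n + 1 ∧ n ≤ 2 * th m n + 1
    omega

theorem th_lt (m n : ℕ) : th m n < 2 ^ (m + 1) * (n + 1) := by
  induction m with
  | zero =>
    change 2 * n < 2 ^ 1 * (n + 1)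
    omega
  | succ m ih =>
    change 2 * th m n + 1 < _
    rw [pow_succ, mul_comm _ 2, mul_assoc]
    omega

namespace Sys

variable {O Y C : Type} [DecidableEq O] (S : Sys O Y C)

theorem re_left {φ ψ : O → ℕ → ℕ} (h : ∀ o n, ψ o (φ o n) = n) (y : Y) :
    S.re ψ (S.re φ y) = y := by
  rw [S.re_re]
  conv_rhs => rw [← S.re_id y]
  refine S.re_congr _ _ _ fun s _ => h s.1 s.2

theorem re_inj {φ : O → ℕ → ℕ} (h : ∀ o, Function.Injective (φ o)) :
    Function.Injective (S.re φ) := by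
  intro y y' hy
  have h1 : ∀ o n, Function.invFun (φ o) (φ o n) = n := fun o n =>
    Function.leftInverse_invFun (h o) n
  rw [← S.re_left (φ := φ) (ψ := fun o => Function.invFun (φ o)) h1 y, hy, S.re_left h1]

/-- The object `y` in the block `m`. -/
def io (p : ℕ × Y) : Y := S.re (fun _ n => th p.1 n) p.2

theorem io_inj (hA : ∀ y, (S.A y).Nonempty) : Function.Injective S.io := by
  rintro ⟨m, y⟩ ⟨m', y'⟩ h
  change S.re (fun _ n => th m n) y = S.re (fun _ n => th m' n) y' at h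
  obtain ⟨s, hs⟩ := hA y
  have h1 : (s.1, th m s.2) ∈ S.A (S.re (fun _ n => th m n) y) := by
    rw [S.A_re]
    exact Finset.mem_image.2 ⟨s, hs, rfl⟩
  rw [h, S.A_re, Finset.mem_image] at h1
  obtain ⟨t, _, h2⟩ := h1
  obtain ⟨rfl, _⟩ := th_inj (Prod.ext_iff.1 h2).2
  rw [S.re_inj (fun _ a b hab => (th_inj hab).2) h]

open Classical in
/-- The shift of the blocks. -/
noncomputable def dl (y : Y) : Y := if y ∈ Set.range S.io then S.re (fun _ n => 2 * n + 1) y else y

theorem dl_io (m : ℕ) (y : Y) : S.dl (S.io (m, y)) = S.io (m + 1, y) := by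
  rw [dl, if_pos ⟨(m, y), rfl⟩, io, io, S.re_re]
  rfl

theorem dl_ne {y : Y} (h : y ∉ Set.range S.io) : S.dl y = y := by
  rw [dl, if_neg h]

theorem dl_inj : Function.Injective S.dl := by
  intro y y' h
  by_cases h1 : y ∈ Set.range S.io
  · by_cases h2 : y' ∈ Set.range S.io
    · rw [dl, dl, if_pos h1, if_pos h2] at h
      exact S.re_inj (fun _ a b hab => by
        have : 2 * a + 1 = 2 * b + 1 := hab
        omega) h
    · obtain ⟨⟨m, x⟩, rfl⟩ := h1
      rw [S.dl_io, S.dl_ne h2] at h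
      exact absurd ⟨_, h⟩ h2
  · by_cases h2 : y' ∈ Set.range S.io
    · obtain ⟨⟨m, x⟩, rfl⟩ := h2
      rw [S.dl_io, S.dl_ne h1] at h
      exact absurd ⟨_, h.symm⟩ h1
    · rwa [S.dl_ne h1, S.dl_ne h2] at h

/-- The first block. -/
def al (y : Y) : Y := S.io (0, y)

theorem al_inj : Function.Injective S.al := fun _ _ h =>
  S.re_inj (fun _ _ _ hab => (th_inj (m := 0) (m' := 0) hab).2) h

theorem al_ne_dl (hA : ∀ y, (S.A y).Nonempty) (y x : Y) : S.al y ≠ S.dl x := by
  intro h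
  by_cases hx : x ∈ Set.range S.io
  · obtain ⟨⟨m, x⟩, rfl⟩ := hx
    rw [S.dl_io] at h
    have h1 := (Prod.ext_iff.1 (S.io_inj hA h)).1
    exact absurd h1 (Nat.succ_ne_zero m).symm
  · rw [S.dl_ne hx] at h
    exact hx ⟨_, h⟩

theorem al_or_dl (y : Y) : y ∈ Set.range S.al ∨ y ∈ Set.range S.dl := by
  by_cases hy : y ∈ Set.range S.io
  · obtain ⟨⟨m, x⟩, rfl⟩ := hy
    cases m with
    | zero => exact Or.inl ⟨x, rfl⟩
    | succ m => exact Or.inr ⟨S.io (m, x), S.dl_io m x⟩
  · exact Or.inr ⟨y, S.dl_ne hy⟩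

theorem al_re (y : Y) : ∃ φ : O → ℕ → ℕ, S.al y = S.re φ y ∧
    ∀ o n, n ≤ φ o n ∧ φ o n ≤ 2 * n + 1 :=
  ⟨fun _ n => th 0 n, rfl, fun _ n => by
    change n ≤ 2 * n ∧ 2 * n ≤ 2 * n + 1
    omega⟩

theorem dl_re (y : Y) : ∃ φ : O → ℕ → ℕ, S.dl y = S.re φ y ∧
    ∀ o n, n ≤ φ o n ∧ φ o n ≤ 2 * n + 1 := by
  by_cases hy : y ∈ Set.range S.io
  · exact ⟨fun _ n => 2 * n + 1, by rw [dl, if_pos hy], fun _ n => by
      change n ≤ 2 * n + 1 ∧ 2 * n + 1 ≤ 2 * n + 1
      omega⟩
  · exact ⟨fun _ n => n, by rw [S.dl_ne hy, S.re_id], fun _ n => by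
      change n ≤ n ∧ n ≤ 2 * n + 1
      omega⟩

theorem F_re_le {h h' : O →₀ ℕ} {φ : O → ℕ → ℕ} {y : Y} {o : O}
    (hφ : ∀ n, h o ≤ n → h' o ≤ φ o n) (ho : o ∈ S.F h y) : o ∈ S.F h' (S.re φ y) := by
  rw [mem_F] at ho ⊢
  obtain ⟨n, h1, h2⟩ := ho
  refine ⟨φ o n, ?_, hφ n h2⟩
  rw [S.A_re]
  exact Finset.mem_image.2 ⟨(o, n), h1, rfl⟩

theorem F_re_ge {h h' : O →₀ ℕ} {φ : O → ℕ → ℕ} {y : Y} {o : O}
    (hφ : ∀ n, h o ≤ φ o n → h' o ≤ n) (ho : o ∈ S.F h (S.re φ y)) : o ∈ S.F h' y := by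
  rw [mem_F] at ho ⊢
  obtain ⟨n, h1, h2⟩ := ho
  rw [S.A_re, Finset.mem_image] at h1
  obtain ⟨⟨o', n'⟩, h3, h4⟩ := h1
  obtain ⟨rfl, rfl⟩ := Prod.ext_iff.1 h4
  exact ⟨n', h3, hφ n' h2⟩

end Sys

section Mem

variable {O Y C Γ k : Type} [DecidableEq O] [Group Γ] [MulAction Γ O] [MulAction Γ C] [CommRing k]
  (S : Sys O Y C)

private theorem cf_gr {α : Y → Y} {hα : Function.Injective α} {g : Γ} {y x : Y}
    (h : cf (gr α hα : RCF Y (MonoidAlgebra k Γ)) g y x ≠ 0) : g = 1 ∧ y = α x := by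
  classical
  rw [cf, ent_gr] at h
  by_cases hy : y = α x
  · refine ⟨?_, hy⟩
    rw [if_pos hy] at h
    by_contra hg
    refine h ?_
    rw [MonoidAlgebra.one_def, MonoidAlgebra.coeff_single, Finsupp.single_apply,
      if_neg (fun h => hg h.symm)]
  · rw [if_neg hy, MonoidAlgebra.coeff_zero] at h
    exact absurd rfl h

private theorem cf_gt {α : Y → Y} {hα : Function.Injective α} {g : Γ} {y x : Y}
    (h : cf (gt α hα : RCF Y (MonoidAlgebra k Γ)) g y x ≠ 0) : g = 1 ∧ x = α y := by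
  classical
  rw [cf, ent_gt] at h
  by_cases hy : x = α y
  · refine ⟨?_, hy⟩
    rw [if_pos hy] at h
    by_contra hg
    refine h ?_
    rw [MonoidAlgebra.one_def, MonoidAlgebra.coeff_single, Finsupp.single_apply,
      if_neg (fun h => hg h.symm)]
  · rw [if_neg hy, MonoidAlgebra.coeff_zero] at h
    exact absurd rfl h

private theorem one_coeff (g : Γ) : (1 : MonoidAlgebra k Γ).coeff g ∈ Submodule.span ℤ {(1 : k)} := by
  classical
  rw [MonoidAlgebra.one_def, MonoidAlgebra.coeff_single, Finsupp.single_apply]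
  split
  · exact Submodule.mem_span_singleton_self 1
  · exact Submodule.zero_mem _

theorem gr_mem {α : Y → Y} (hα : Function.Injective α)
    (H : ∀ y, ∃ φ : O → ℕ → ℕ, α y = S.re φ y ∧ ∀ o n, n ≤ φ o n ∧ φ o n ≤ 2 * n + 1) :
    (gr α hα : RCF Y (MonoidAlgebra k Γ)) ∈ U Γ k S := by
  classical
  refine ⟨fun g y' y hc => ?_, fun h' => ⟨2 • h', fun g y' y hc => ?_⟩,
    Submodule.span ℤ {1}, Submodule.fg_span_singleton _, fun g y' y => ?_⟩
  · obtain ⟨rfl, rfl⟩ := cf_gr hc
    obtain ⟨φ, h1, _⟩ := H y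
    rw [h1, S.lab_re, one_smul]
  · obtain ⟨rfl, rfl⟩ := cf_gr hc
    obtain ⟨φ, h1, h2⟩ := H y
    rw [h1]
    refine ⟨fun o ho => ?_, fun o ho => ?_⟩
    · rw [one_smul]
      refine S.F_re_le (fun n hn => ?_) ho
      rw [Finsupp.smul_apply, smul_eq_mul] at hn
      have := h2 o n
      omega
    · rw [inv_one, one_smul]
      refine S.F_re_ge (fun n hn => ?_) ho
      rw [Finsupp.smul_apply, smul_eq_mul] at hn
      have := h2 o n
      omega
  · rw [cf, ent_gr]
    split
    · exact one_coeff g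
    · rw [MonoidAlgebra.coeff_zero]
      exact Submodule.zero_mem _

theorem gt_mem {α : Y → Y} (hα : Function.Injective α)
    (H : ∀ y, ∃ φ : O → ℕ → ℕ, α y = S.re φ y ∧ ∀ o n, n ≤ φ o n ∧ φ o n ≤ 2 * n + 1) :
    (gt α hα : RCF Y (MonoidAlgebra k Γ)) ∈ U Γ k S := by
  classical
  refine ⟨fun g y' y hc => ?_, fun h' => ⟨2 • h', fun g y' y hc => ?_⟩,
    Submodule.span ℤ {1}, Submodule.fg_span_singleton _, fun g y' y => ?_⟩
  · obtain ⟨rfl, rfl⟩ := cf_gt hc
    obtain ⟨φ, h1, _⟩ := H y'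
    rw [h1, S.lab_re, one_smul]
  · obtain ⟨rfl, rfl⟩ := cf_gt hc
    obtain ⟨φ, h1, h2⟩ := H y'
    rw [h1]
    refine ⟨fun o ho => ?_, fun o ho => ?_⟩
    · rw [one_smul]
      refine S.F_re_ge (fun n hn => ?_) ho
      rw [Finsupp.smul_apply, smul_eq_mul] at hn
      have := h2 o n
      omega
    · rw [inv_one, one_smul]
      refine S.F_re_le (fun n hn => ?_) ho
      rw [Finsupp.smul_apply, smul_eq_mul] at hn
      have := h2 o n
      omega
  · rw [cf, ent_gt]
    split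
    · exact one_coeff g
    · rw [MonoidAlgebra.coeff_zero]
      exact Submodule.zero_mem _

omit [MulAction Γ O] [MulAction Γ C] in
private theorem cf_lam (hA : ∀ y, (S.A y).Nonempty) {z : RCF Y (MonoidAlgebra k Γ)} {g : Γ}
    {y' y : Y} (h : cf (push (S.io_inj hA) (bd z)) g y' y ≠ 0) :
    ∃ m x' x, y' = S.io (m, x') ∧ y = S.io (m, x) ∧ cf z g x' x ≠ 0 ∧
      cf (push (S.io_inj hA) (bd z)) g y' y = cf z g x' x := by
  obtain ⟨⟨m', x'⟩, ⟨m, x⟩, rfl, rfl, h1⟩ := cf_push_ne _ h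
  by_cases hm : m' = m
  · subst hm
    have h2 : cf (bd z) g (m', x') (m', x) = cf z g x' x := by
      rw [cf, ent_bd, if_pos rfl]
      rfl
    refine ⟨m', x', x, rfl, rfl, by rwa [h2] at h1, ?_⟩
    rw [cf_push, h2]
  · refine absurd ?_ h1
    rw [cf, ent_bd, if_neg hm]
    rfl

theorem lam_mem {f : ℕ} (hE : S.Exact Γ f) (hA : ∀ y, (S.A y).Nonempty)
    {z : RCF Y (MonoidAlgebra k Γ)} (hz : z ∈ U Γ k S) :
    push (S.io_inj hA) (bd z) ∈ U Γ k S := by
  classical
  obtain ⟨z1, z2, P, hP, z3⟩ := hz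
  refine ⟨fun g y' y hc => ?_, fun h' => ?_, P, hP, fun g y' y => ?_⟩
  · obtain ⟨m, x', x, rfl, rfl, hc', _⟩ := cf_lam S hA hc
    rw [Sys.io, Sys.io, S.lab_re, S.lab_re]
    exact z1 g x' x hc'
  · obtain ⟨h1, H⟩ := z2 h'
    obtain ⟨M, hM⟩ : ∃ M, ∀ o, h' o ≤ M := by
      refine ⟨h'.support.sup h', fun o => ?_⟩
      by_cases ho : o ∈ h'.support
      · exact Finset.le_sup (f := h') ho
      · rw [Finsupp.notMem_support_iff.1 ho]
        exact Nat.zero_le _
    -- the key step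
    have key : ∀ (g : Γ) (m : ℕ) (x x' : Y), S.lab x' = g • S.lab x →
        (∀ o ∈ S.F h1 x, g • o ∈ S.F h' x') →
        ∀ o ∈ S.F (2 ^ M • h1) (S.io (m, x)), g • o ∈ S.F h' (S.io (m, x')) := by
      intro g m x x' hl hx o ho
      by_cases hm : m < M
      · have h3 : o ∈ S.F h1 x := by
          refine S.F_re_ge (φ := fun _ n => th m n) (fun n hn => ?_) ho
          rw [Finsupp.smul_apply, smul_eq_mul] at hn
          by_contra hlt
          have h4 : n + 1 ≤ h1 o := by omega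
          have h5 := th_lt m n
          have h6 : 2 ^ (m + 1) ≤ 2 ^ M := Nat.pow_le_pow_right (by norm_num) hm
          have h7 : 2 ^ (m + 1) * (n + 1) ≤ 2 ^ M * h1 o := Nat.mul_le_mul h6 h4
          omega
        exact S.F_re_le (φ := fun _ n => th m n) (fun n hn => hn.trans (le_th m n).2) (hx o h3)
      · have h3 : o ∈ S.F 0 x :=
          S.F_re_ge (φ := fun _ n => th m n) (fun n _ => Nat.zero_le _) ho
        exact S.F_re_le (h := 0) (φ := fun _ n => th m n)
          (fun n _ => (hM _).trans ((not_lt.1 hm).trans (le_th m n).1)) (hE.2 g x x' hl o h3)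
    refine ⟨2 ^ M • h1, fun g y' y hc => ?_⟩
    obtain ⟨m, x', x, rfl, rfl, hc', _⟩ := cf_lam S hA hc
    have hl := z1 g x' x hc'
    refine ⟨key g m x x' hl (H g x' x hc').1, key g⁻¹ m x' x ?_ (H g x' x hc').2⟩
    rw [hl, inv_smul_smul]
  · by_cases hc : cf (push (S.io_inj hA) (bd z)) g y' y = 0
    · rw [hc]
      exact P.zero_mem
    · obtain ⟨m, x', x, _, _, _, h⟩ := cf_lam S hA hc
      rw [h]
      exact z3 g x' x

/-- The rings of exact systems are flasque. -/
theorem flas {f : ℕ} (hE : S.Exact Γ f) (hf : 1 ≤ f) : Flas (U Γ k S) := by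
  classical
  have hA : ∀ y, (S.A y).Nonempty := fun y => by
    rw [← Finset.card_pos, hE.1 y]
    exact hf
  have ne := S.al_ne_dl hA
  let Λ : U Γ k S →ₙ+* U Γ k S :=
    { toFun := fun z => ⟨push (S.io_inj hA) (bd z.1), lam_mem S hE hA z.2⟩
      map_mul' := fun a b => Subtype.ext (by
        change push (S.io_inj hA) (bd (a.1 * b.1)) = _ * _
        rw [bd_mul, map_mul])
      map_zero' := Subtype.ext (by
        change push (S.io_inj hA) (bd (0 : RCF Y (MonoidAlgebra k Γ))) = 0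
        rw [bd_zero, map_zero])
      map_add' := fun a b => Subtype.ext (by
        change push (S.io_inj hA) (bd (a.1 + b.1)) = _ + _
        rw [bd_add, map_add]) }
  refine ⟨⟨gr S.al S.al_inj, gr_mem S _ S.al_re⟩, ⟨gt S.al S.al_inj, gt_mem S _ S.al_re⟩,
    ⟨gr S.dl S.dl_inj, gr_mem S _ S.dl_re⟩, ⟨gt S.dl S.dl_inj, gt_mem S _ S.dl_re⟩, Λ,
    Subtype.ext (gt_gr S.al S.al_inj), Subtype.ext (gt_gr S.dl S.dl_inj),
    Subtype.ext (gt_gr_zero S.al S.dl S.al_inj S.dl_inj ne),
    Subtype.ext (gt_gr_zero S.dl S.al S.dl_inj S.al_inj fun y x h => ne x y h.symm),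
    Subtype.ext (gr_add S.al S.dl S.al_inj S.dl_inj ne S.al_or_dl),
    fun z => Subtype.ext (ent_ext fun y' y => ?_)⟩
  change ent (gr S.al S.al_inj * z.1 * gt S.al S.al_inj +
    gr S.dl S.dl_inj * push (S.io_inj hA) (bd z.1) * gt S.dl S.dl_inj) y' y =
    ent (push (S.io_inj hA) (bd z.1)) y' y
  rw [ent_add]
  rcases S.al_or_dl y with ⟨x, rfl⟩ | ⟨x, rfl⟩
  · rw [mul_gt, mul_gt_ne _ _ _ _ _ (fun ⟨u, hu⟩ => ne x u hu.symm), add_zero]
    rcases S.al_or_dl y' with ⟨x', rfl⟩ | ⟨x', rfl⟩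
    · rw [gr_mul]
      change _ = ent (push (S.io_inj hA) (bd z.1)) (S.io (0, x')) (S.io (0, x))
      rw [ent_push, ent_bd, if_pos rfl]
    · rw [gr_mul_ne _ _ _ _ _ (fun ⟨u, hu⟩ => ne u x' hu)]
      by_contra hne
      obtain ⟨⟨m', u'⟩, ⟨m, u⟩, h1, h2, h3⟩ := ent_push_ne _ (Ne.symm hne)
      rw [ent_bd] at h3
      by_cases hm : m' = m
      · have h4 := (Prod.ext_iff.1 (S.io_inj hA (h2 : S.io (m, u) = S.io (0, x)))).1
        change m = 0 at h4
        subst h4
        subst hm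
        exact ne u' x' h1
      · exact h3 (if_neg hm)
  · rw [mul_gt_ne _ _ _ _ _ (fun ⟨u, hu⟩ => ne u x hu), mul_gt, zero_add]
    rcases S.al_or_dl y' with ⟨x', rfl⟩ | ⟨x', rfl⟩
    · rw [gr_mul_ne _ _ _ _ _ (fun ⟨u, hu⟩ => ne x' u hu.symm)]
      by_contra hne
      obtain ⟨⟨m', u'⟩, ⟨m, u⟩, h1, h2, h3⟩ := ent_push_ne _ (Ne.symm hne)
      rw [ent_bd] at h3
      by_cases hm : m' = m
      · have h4 := (Prod.ext_iff.1 (S.io_inj hA (h1 : S.io (m', u') = S.io (0, x')))).1
        change m' = 0 at h4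
        subst h4
        subst hm
        exact ne u x h2
      · exact h3 (if_neg hm)
    · rw [gr_mul]
      by_cases hx : x ∈ Set.range S.io
      · by_cases hx' : x' ∈ Set.range S.io
        · obtain ⟨⟨m, u⟩, rfl⟩ := hx
          obtain ⟨⟨m', u'⟩, rfl⟩ := hx'
          rw [S.dl_io, S.dl_io, ent_push, ent_push, ent_bd, ent_bd]
          exact if_congr (by simp) rfl rfl
        · rw [S.dl_ne hx']
          by_contra hne
          by_cases h0 : ent (push (S.io_inj hA) (bd z.1)) x' x = 0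
          · rw [h0] at hne
            obtain ⟨p, q, h1, h2, h3⟩ := ent_push_ne _ (Ne.symm hne)
            exact hx' ⟨p, h1⟩
          · obtain ⟨p, q, h1, h2, h3⟩ := ent_push_ne _ h0
            exact hx' ⟨p, h1⟩
      · rw [S.dl_ne hx]
        by_contra hne
        by_cases h0 : ent (push (S.io_inj hA) (bd z.1)) x' x = 0
        · rw [h0] at hne
          obtain ⟨p, q, h1, h2, h3⟩ := ent_push_ne _ (Ne.symm hne)
          exact hx ⟨q, h2⟩
        · obtain ⟨p, q, h1, h2, h3⟩ := ent_push_ne _ h0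
          exact hx ⟨q, h2⟩

end Mem

end Pool.Agent.CC
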