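import Pool.Agent.Lib.MP_8f66f0_al_CC.Sys.RingKZ
import Pool.Agent.Lib.MP_8f66f0_al_Hier.Idx
import Pool.Agent.Lib.MP_8f66f0_al_Hier.Sfm

/-!
# `K_0(Y / I) = 0` from lifting over the Laurent series

`kq_of_psi`: if the ring `E` (think of `Y` with coefficients in the Laurent series) is flasque, maps
to the Laurent series over `Y / I`, and matrices over `E` which are invertible modulo `Iₑ` lift up to
constant matrices, then the idempotents modulo `I` are stably trivial.
-/

set_option autoImplicit false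

namespace Pool.Agent.CC

open Matrix Pool.Agent.Wald Pool.Agent.Ind Pool.Agent.Hier

section Const

variable {T Q : Type} [Ring T] [Ring Q] [Module T Q] [IsScalarTower T Q Q] (v : Val T Q)

/-- Constant matrices have trivial index. -/
theorem index_const (D : K0Data T) {n : Type} [Fintype n] [DecidableEq n] (A A' : Matrix n n T)
    (h : A' * A = 1) : D.ind (v.F n) (v.L (up T Q A) 0) = 1 := by
  have hup : ∀ (B : Matrix n n T) i j, up T Q B i j ∈ v.P := fun B i j =>
    v.P.smul_mem _ v.one_mem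
  have e1 : v.L (up T Q A) 0 = v.F n := by
    apply le_antisymm
    · intro x hx
      rw [bd3_mem_L0] at hx
      obtain ⟨z, hz, rfl⟩ := hx
      rw [bd3_mem_F]
      exact bd3_vecMul_mem v _ (hup A) hz
    · intro x hx
      rw [bd3_mem_F] at hx
      rw [bd3_mem_L0]
      refine ⟨vecMul x (up T Q A'), bd3_vecMul_mem v _ (hup A') hx, ?_⟩
      rw [vecMul_vecMul, ← bd3_up_mul, h]
      have : up T Q (1 : Matrix n n T) = 1 := by
        ext i j
        unfold up
        rw [Matrix.map_apply, one_apply, one_apply]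
        split_ifs
        · rw [one_smul]
        · rw [zero_smul]
      rw [this, vecMul_one]
  rw [e1]
  exact (ind_self D (v.F n)).2

end Const

section Iso

/-- Free modules with the bases `n`, `m` are isomorphic. -/
def FIso (Q : Type) [Ring Q] (n m : Type) [Fintype n] [DecidableEq n] [Fintype m]
    [DecidableEq m] : Prop :=
  ∃ (U : Matrix n m Q) (U' : Matrix m n Q), U * U' = 1 ∧ U' * U = 1

variable {Q : Type} [Ring Q] {n m l k : Type} [Fintype n] [DecidableEq n] [Fintype m]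
  [DecidableEq m] [Fintype l] [DecidableEq l] [Fintype k] [DecidableEq k]

theorem FIso.symm (h : FIso Q n m) : FIso Q m n := by
  obtain ⟨U, U', h1, h2⟩ := h
  exact ⟨U', U, h2, h1⟩

theorem FIso.trans (h : FIso Q n m) (h' : FIso Q m l) : FIso Q n l := by
  obtain ⟨U, U', h1, h2⟩ := h
  obtain ⟨V, V', h3, h4⟩ := h'
  refine ⟨U * V, V' * U', ?_, ?_⟩
  · rw [Matrix.mul_assoc, ← Matrix.mul_assoc V, h3, Matrix.one_mul, h1]
  · rw [Matrix.mul_assoc, ← Matrix.mul_assoc U', h2, Matrix.one_mul, h4]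

theorem FIso.sum (h : FIso Q n m) (h' : FIso Q l k) : FIso Q (n ⊕ l) (m ⊕ k) := by
  obtain ⟨U, U', h1, h2⟩ := h
  obtain ⟨V, V', h3, h4⟩ := h'
  refine ⟨fromBlocks U 0 0 V, fromBlocks U' 0 0 V', ?_, ?_⟩
  · rw [fromBlocks_multiply]
    simp [h1, h3]
  · rw [fromBlocks_multiply]
    simp [h2, h4]

theorem FIso.of_equiv (e : n ≃ m) : FIso Q n m := by
  refine ⟨(1 : Matrix m m Q).submatrix e id, (1 : Matrix m m Q).submatrix id e, ?_, ?_⟩
  · have : (1 : Matrix m m Q).submatrix e id * (1 : Matrix m m Q).submatrix id e =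
        ((1 : Matrix m m Q) * 1).submatrix e e := by
      rw [← submatrix_mul_equiv (1 : Matrix m m Q) 1 e (Equiv.refl _) e]
      rfl
    rw [this, Matrix.one_mul, submatrix_one_equiv]
  · rw [submatrix_mul_equiv, Matrix.one_mul]
    rfl

theorem fiso_two {c d c' d' : Q} (h1 : c' * c = 1) (h2 : d' * d = 1) (h3 : c' * d = 0)
    (h4 : d' * c = 0) (h5 : c * c' + d * d' = 1) : FIso Q (Unit ⊕ Unit) Unit := by
  refine ⟨Matrix.of fun i _ => Sum.elim (fun _ => c') (fun _ => d') i,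
    Matrix.of fun _ j => Sum.elim (fun _ => c) (fun _ => d) j, ?_, ?_⟩
  · ext i j
    rw [mul_apply, Finset.univ_unique, Finset.sum_singleton]
    rcases i with i | i <;> rcases j with j | j
    · exact h1
    · exact h3
    · exact h4
    · exact h2
  · ext i j
    rw [mul_apply, Fintype.sum_sum_type, Finset.univ_unique, Finset.sum_singleton,
      Finset.sum_singleton]
    exact h5

theorem fiso_unit (h : FIso Q (Unit ⊕ Unit) Unit) (a : ℕ) : FIso Q (Fin a ⊕ Unit) Unit := by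
  induction a with
  | zero => exact FIso.of_equiv (Equiv.emptySum (Fin 0) Unit)
  | succ a ih =>
    have e1 : Fin (a + 1) ⊕ Unit ≃ (Fin a ⊕ Unit) ⊕ Unit :=
      Equiv.sumCongr (finSumFinEquiv.symm.trans (Equiv.sumCongr (Equiv.refl _)
        (Equiv.ofUnique (Fin 1) Unit))) (Equiv.refl _)
    exact (FIso.of_equiv e1).trans ((ih.sum (FIso.of_equiv (Equiv.refl Unit))).trans h)

end Iso

section Psi

/-- The pull back of an invariant along a ring homomorphism. -/
def kpull {Λ Λ' : Type} [Ring Λ] [Ring Λ'] (φ : Λ →+* Λ') {K : Type} [CommGroup K]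
    (κ : K1Fun Λ' K) : K1Fun Λ K where
  f := fun {n} _ _ A => κ.f (A.map φ)
  mul := fun {n} _ _ A B hA hB => by
    rw [Matrix.map_mul]
    exact κ.mul _ _ (hA.map φ.mapMatrix) (hB.map φ.mapMatrix)
  reindex := fun {n m} _ _ _ _ e A hA => by
    have h := κ.reindex e (A.map φ) (hA.map φ.mapMatrix)
    exact h
  tri := fun {n m} _ _ _ _ A B D hA hD => by
    rw [Matrix.fromBlocks_map, Matrix.map_zero _ (map_zero φ)]
    exact κ.tri _ _ _ (hA.map φ.mapMatrix) (hD.map φ.mapMatrix)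

theorem psi_inv {E : Type} [Ring E] {J : Ideal E} [J.IsTwoSided] {n : Type} [Fintype n]
    [DecidableEq n] {P : Matrix n n E} (hP : MC J (P * P) P) {y yi : E}
    (hy : ∀ i j, y * P i j = P i j * y) (h : y * yi = 1) :
    MC J ((1 - P + P.map fun q => q * y) * (1 - P + P.map fun q => q * yi)) 1 := by
  have e0 : ∀ c : E, (P.map fun q => q * c) = P * diagonal fun _ => c := by
    intro c
    ext i j
    rw [mul_diagonal]
    rfl
  have e1 : (diagonal fun _ => y) * P = P * diagonal fun _ => y := by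
    ext i j
    rw [mul_diagonal, diagonal_mul]
    exact hy i j
  have e2 : (diagonal fun _ => y : Matrix n n E) * (diagonal fun _ => yi) = 1 := by
    rw [diagonal_mul_diagonal, h, diagonal_one]
  rw [e0, e0]
  generalize (diagonal fun _ => y : Matrix n n E) = D at e1 e2
  generalize (diagonal fun _ => yi : Matrix n n E) = D' at e2
  have e3 : (1 - P + P * D) * (1 - P + P * D') =
      1 + (P * P - P) * (1 - D' + (1 - D)) := by
    calc (1 - P + P * D) * (1 - P + P * D') = 1 - P - P + P * P + (P * D' - P * P * D') +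
          P * D - P * (D * P) + P * (D * P) * D' := by noncomm_ring
      _ = 1 - P - P + P * P + (P * D' - P * P * D') +
          P * D - P * P * D + P * P * (D * D') := by rw [e1]; noncomm_ring
      _ = _ := by rw [e2]; noncomm_ring
  rw [e3]
  have h1 := hP.sub (MC.refl P)
  rw [sub_self] at h1
  have h2 := (MC.refl (J := J) 1).add (h1.mul_right (1 - D' + (1 - D)))
  rwa [Matrix.zero_mul, add_zero] at h2

variable {Y E : Type} [Ring Y] [Ring E] (I : Ideal Y) [I.IsTwoSided] (Iₑ : Ideal E)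
  [Iₑ.IsTwoSided] (j : Y →+* E) (Ψ : E →+* LaurentSeries (Y ⧸ I))

theorem psi_cls (hj : ∀ x ∈ I, j x ∈ Iₑ) (y yi : E)
    (hy : ∀ x, y * j x = j x * y) (hyi : y * yi = 1) (hyi' : yi * y = 1)
    (hI : ∀ x ∈ Iₑ, Ψ x = 0)
    (hΨ : ∀ x, Ψ (j x) = HahnSeries.C (Ideal.Quotient.mk I x))
    (hΨy : Ψ y = HahnSeries.single 1 1) (hF : Flq E)
    (hlift : ∀ (n : Type) [Fintype n] [DecidableEq n] (z w : Matrix n n E),
      Cg Iₑ (z * w) 1 → Cg Iₑ (w * z) 1 → ∃ (m : Type) (_ : Fintype m) (_ : DecidableEq m)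
        (c c' : Matrix m m Y) (r : Matrix (n ⊕ m) (n ⊕ m) E), Cg I (c * c') 1 ∧
        Cg I (c' * c) 1 ∧ IsUnit r ∧ Cg Iₑ r (fromBlocks z 0 0 (c.map j)))
    (D : K0Data (Y ⧸ I)) {N : ℕ} (e : Matrix (Fin N) (Fin N) Y) (he : Cg I (e * e) e) :
    D.cls (LinearMap.range (Matrix.vecMulLinear (e.map (Ideal.Quotient.mk I)))) = 1 := by
  obtain ⟨v, hv, -, -⟩ := exists_val (Y ⧸ I)
  obtain ⟨κ, hκ⟩ := exists_index v D
  set ē := e.map (Ideal.Quotient.mk I) with hē
  have hee : ē * ē = ē := by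
    rw [hē, ← Matrix.map_mul]
    ext i j
    rw [Matrix.map_apply, Matrix.map_apply, Ideal.Quotient.eq]
    exact he i j
  obtain ⟨g1, g2⟩ := index_idem v D ē hee
  have hup : ∀ {n : Type} (B : Matrix n n (Y ⧸ I)) i j, up (Y ⧸ I) (LaurentSeries (Y ⧸ I)) B i j ∈
      v.P := fun B i j => v.P.smul_mem _ v.one_mem
  have hC : ∀ {n : Type} (B : Matrix n n Y), (B.map j).map Ψ =
      up (Y ⧸ I) (LaurentSeries (Y ⧸ I)) (B.map (Ideal.Quotient.mk I)) := by
    intro n B
    ext1 i j'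
    unfold up
    rw [Matrix.map_apply, Matrix.map_apply, Matrix.map_apply, Matrix.map_apply, hΨ,
      ← HahnSeries.C_mul_eq_smul, mul_one]
  have g3 : κ.f (1 - up (Y ⧸ I) (LaurentSeries (Y ⧸ I)) ē +
      (up (Y ⧸ I) (LaurentSeries (Y ⧸ I)) ē).map fun q => q * v.y) =
      D.cls (LinearMap.range (Matrix.vecMulLinear ē)) := by
    rw [hκ (Fin N) _ 0 g2 (by
      intro i j
      rw [pow_zero, mul_one, Matrix.add_apply, Matrix.sub_apply, Matrix.map_apply]
      refine v.P.add_mem (v.P.sub_mem ?_ (hup _ i j)) (v.mul_mem _ (hup _ i j) _ v.y_mem)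
      rw [Matrix.one_apply]
      split_ifs
      · exact v.one_mem
      · exact v.P.zero_mem), g1]
  -- the matrices over `E`
  have hP : MC Iₑ (e.map j * e.map j) (e.map j) := by
    rw [← Matrix.map_mul]
    intro i k
    rw [Matrix.map_apply, Matrix.map_apply, ← map_sub]
    exact hj _ (he i k)
  have hyP : ∀ i k, y * (e.map j) i k = (e.map j) i k * y := fun i k => hy _
  have hyiP : ∀ i k, yi * (e.map j) i k = (e.map j) i k * yi := by
    intro i k
    calc yi * (e.map j) i k = yi * ((e.map j) i k * y) * yi := by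
          rw [mul_assoc, mul_assoc, hyi, mul_one]
      _ = yi * (y * (e.map j) i k) * yi := by rw [hyP]
      _ = (e.map j) i k * yi := by rw [← mul_assoc, hyi', one_mul]
  obtain ⟨m, _, _, c, c', r, h1, h2, h3, h4⟩ := hlift (Fin N) _ _ (psi_inv hP hyP hyi)
    (psi_inv hP hyiP hyi')
  have h5 : κ.f (r.map Ψ) = 1 := hF _ (kpull Ψ κ) _ r h3
  have hmap : ∀ {n : Type} {A B : Matrix n n E}, MC Iₑ A B → A.map Ψ = B.map Ψ := by
    intro n A B h
    ext1 i k
    rw [Matrix.map_apply, Matrix.map_apply, ← sub_eq_zero, ← map_sub]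
    exact hI _ (h i k)
  have e1 : r.map Ψ = fromBlocks (1 - up (Y ⧸ I) (LaurentSeries (Y ⧸ I)) ē +
      (up (Y ⧸ I) (LaurentSeries (Y ⧸ I)) ē).map fun q => q * v.y) 0 0
      (up (Y ⧸ I) (LaurentSeries (Y ⧸ I)) (c.map (Ideal.Quotient.mk I))) := by
    rw [hmap h4, fromBlocks_map, hC, Matrix.map_zero _ (map_zero Ψ), Matrix.map_zero _ (map_zero Ψ)]
    congr 1
    rw [hē, ← hC]
    ext1 i k
    rw [Matrix.map_apply, Matrix.add_apply, Matrix.sub_apply, Matrix.add_apply, Matrix.sub_apply,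
      map_add, map_sub, Matrix.map_apply, Matrix.map_apply, map_mul, hΨy, Matrix.map_apply,
      Matrix.map_apply, Matrix.map_apply, hv, one_apply, one_apply]
    split_ifs
    · rw [map_one]
      rfl
    · rw [map_zero]
      rfl
  have h6 : ∀ {c c' : Matrix m m Y}, Cg I (c * c') 1 →
      (c.map (Ideal.Quotient.mk I)) * (c'.map (Ideal.Quotient.mk I)) = 1 := by
    intro c c' h
    rw [← Matrix.map_mul]
    ext i k
    rw [Matrix.map_apply, one_apply]
    have h7 := h i k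
    rw [← Ideal.Quotient.eq] at h7
    rw [h7, one_apply]
    split_ifs
    · rw [map_one]
    · rw [map_zero]
  have h8 : IsUnit (up (Y ⧸ I) (LaurentSeries (Y ⧸ I)) (c.map (Ideal.Quotient.mk I))) := by
    have e2 : up (Y ⧸ I) (LaurentSeries (Y ⧸ I)) (1 : Matrix m m (Y ⧸ I)) = 1 := by
      ext1 i j
      unfold up
      rw [Matrix.map_apply, one_apply, one_apply]
      split_ifs
      · rw [one_smul]
      · rw [zero_smul]
    have k1 : up (Y ⧸ I) (LaurentSeries (Y ⧸ I)) (c.map (Ideal.Quotient.mk I)) *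
        up (Y ⧸ I) (LaurentSeries (Y ⧸ I)) (c'.map (Ideal.Quotient.mk I)) = 1 := by
      rw [← bd3_up_mul, h6 h1, e2]
    have k2 : up (Y ⧸ I) (LaurentSeries (Y ⧸ I)) (c'.map (Ideal.Quotient.mk I)) *
        up (Y ⧸ I) (LaurentSeries (Y ⧸ I)) (c.map (Ideal.Quotient.mk I)) = 1 := by
      rw [← bd3_up_mul, h6 h2, e2]
    exact ⟨⟨_, _, k1, k2⟩, rfl⟩
  rw [e1, κ.diag _ _ g2 h8, g3, hκ m _ 0 h8 (by
    intro i j
    rw [pow_zero, mul_one]
    exact hup _ i j), index_const v D _ _ (h6 h2), mul_one] at h5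
  exact h5

/-- `K_0(Y / I) = 0`. -/
theorem kq_of_psi (hj : ∀ x ∈ I, j x ∈ Iₑ) (y yi : E)
    (hy : ∀ x, y * j x = j x * y) (hyi : y * yi = 1) (hyi' : yi * y = 1)
    (hI : ∀ x ∈ Iₑ, Ψ x = 0)
    (hΨ : ∀ x, Ψ (j x) = HahnSeries.C (Ideal.Quotient.mk I x))
    (hΨy : Ψ y = HahnSeries.single 1 1) (hF : Flq E)
    (hlift : ∀ (n : Type) [Fintype n] [DecidableEq n] (z w : Matrix n n E),
      Cg Iₑ (z * w) 1 → Cg Iₑ (w * z) 1 → ∃ (m : Type) (_ : Fintype m) (_ : DecidableEq m)
        (c c' : Matrix m m Y) (r : Matrix (n ⊕ m) (n ⊕ m) E), Cg I (c * c') 1 ∧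
        Cg I (c' * c) 1 ∧ IsUnit r ∧ Cg Iₑ r (fromBlocks z 0 0 (c.map j)))
    (h11 : ∃ c d c' d' : Y, c' * c = 1 ∧ d' * d = 1 ∧ c' * d = 0 ∧ d' * c = 0 ∧
      c * c' + d * d' = 1) : KQ I := by
  intro n _ _ e he
  obtain ⟨D⟩ := exists_k0 (Y ⧸ I)
  let t : n ≃ Fin (Fintype.card n) := Fintype.equivFin n
  have he' : Cg I (e.submatrix t.symm t.symm * e.submatrix t.symm t.symm)
      (e.submatrix t.symm t.symm) := by
    rw [submatrix_mul_equiv]
    exact fun i k => he _ _
  have hcls := psi_cls I Iₑ j Ψ hj y yi hy hyi hyi' hI hΨ hΨy hF hlift D _ he'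
  have hid : (e.submatrix t.symm t.symm).map (Ideal.Quotient.mk I) *
      (e.submatrix t.symm t.symm).map (Ideal.Quotient.mk I) =
      (e.submatrix t.symm t.symm).map (Ideal.Quotient.mk I) := by
    rw [← Matrix.map_mul]
    ext i k
    rw [Matrix.map_apply, Matrix.map_apply, Ideal.Quotient.eq]
    exact he' i k
  obtain ⟨a, b, A, B, h1, h2⟩ := sfm (Y ⧸ I) _ D _ hid hcls
  obtain ⟨c, d, c', d', g1, g2, g3, g4, g5⟩ := h11
  have hunit : FIso (Y ⧸ I) (Unit ⊕ Unit) Unit := by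
    refine fiso_two (c := Ideal.Quotient.mk I c) (d := Ideal.Quotient.mk I d)
      (c' := Ideal.Quotient.mk I c') (d' := Ideal.Quotient.mk I d') ?_ ?_ ?_ ?_ ?_
    · rw [← map_mul, g1, map_one]
    · rw [← map_mul, g2, map_one]
    · rw [← map_mul, g3, map_zero]
    · rw [← map_mul, g4, map_zero]
    · rw [← map_mul, ← map_mul, ← map_add, g5, map_one]
  obtain ⟨U, U', u1, u2⟩ : FIso (Y ⧸ I) (Fin b ⊕ Unit) (Fin a ⊕ Unit) :=
    (fiso_unit hunit b).trans (fiso_unit hunit a).symm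
  -- the matrices over `Y / I`
  let σ : n ⊕ (Fin a ⊕ Unit) ≃ (Fin (Fintype.card n) ⊕ Fin a) ⊕ Unit :=
    (Equiv.sumAssoc n (Fin a) Unit).symm.trans
      (Equiv.sumCongr (Equiv.sumCongr t (Equiv.refl _)) (Equiv.refl _))
  let A₁ : Matrix (n ⊕ (Fin a ⊕ Unit)) (Fin a ⊕ Unit) (Y ⧸ I) :=
    ((fromBlocks A 0 0 1 : Matrix ((Fin (Fintype.card n) ⊕ Fin a) ⊕ Unit) (Fin b ⊕ Unit) _) *
      U).submatrix σ id
  let B₁ : Matrix (Fin a ⊕ Unit) (n ⊕ (Fin a ⊕ Unit)) (Y ⧸ I) :=
    (U' * (fromBlocks B 0 0 1 : Matrix (Fin b ⊕ Unit) ((Fin (Fintype.card n) ⊕ Fin a) ⊕ Unit)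
      _)).submatrix id σ
  have hAB : A₁ * B₁ = fromBlocks (e.map (Ideal.Quotient.mk I)) 0 0 1 := by
    have e1 : A₁ * B₁ = ((fromBlocks A 0 0 1 : Matrix ((Fin (Fintype.card n) ⊕ Fin a) ⊕ Unit)
        (Fin b ⊕ Unit) (Y ⧸ I)) * U * (U' * (fromBlocks B 0 0 1 : Matrix (Fin b ⊕ Unit)
          ((Fin (Fintype.card n) ⊕ Fin a) ⊕ Unit) (Y ⧸ I)))).submatrix σ σ := by
      rw [← submatrix_mul_equiv _ _ σ (Equiv.refl _) σ]
      rfl
    have e2 : (fromBlocks A 0 0 1 : Matrix ((Fin (Fintype.card n) ⊕ Fin a) ⊕ Unit)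
        (Fin b ⊕ Unit) (Y ⧸ I)) * U * (U' * (fromBlocks B 0 0 1 : Matrix (Fin b ⊕ Unit)
          ((Fin (Fintype.card n) ⊕ Fin a) ⊕ Unit) (Y ⧸ I))) =
        fromBlocks (fromBlocks ((e.submatrix t.symm t.symm).map (Ideal.Quotient.mk I)) 0 0 1)
          0 0 1 := by
      rw [Matrix.mul_assoc, ← Matrix.mul_assoc U, u1, Matrix.one_mul, fromBlocks_multiply, h1]
      simp
    rw [e1, e2, ← fromBlocks_one (l := Fin a) (m := Unit)]
    ext i k
    rcases i with i | i | i <;> rcases k with k | k | k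
    · show Ideal.Quotient.mk I (e (t.symm (t i)) (t.symm (t k))) = _
      rw [t.symm_apply_apply, t.symm_apply_apply]
      rfl
    all_goals rfl
  have hBA : B₁ * A₁ = 1 := by
    simp only [A₁, B₁]
    rw [submatrix_mul_equiv, Matrix.mul_assoc, ← Matrix.mul_assoc (fromBlocks B 0 0 1),
      fromBlocks_multiply, h2]
    simp only [Matrix.mul_zero, Matrix.zero_mul, add_zero, zero_add, Matrix.mul_one,
      fromBlocks_one, Matrix.one_mul, u2]
    rfl
  have hs : Function.Surjective (Ideal.Quotient.mk I) := Ideal.Quotient.mk_surjective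
  choose s hs' using hs
  have hmk : ∀ {l k : Type} (A : Matrix l k (Y ⧸ I)), (A.map s).map (Ideal.Quotient.mk I) = A := by
    intro l k A
    ext i j
    rw [Matrix.map_apply, Matrix.map_apply, hs']
  refine ⟨Fin a ⊕ Unit, inferInstance, inferInstance, A₁.map s, B₁.map s, ?_, ?_⟩
  · intro i k
    rw [← Ideal.Quotient.eq, ← Matrix.map_apply (f := Ideal.Quotient.mk I),
      ← Matrix.map_apply (f := Ideal.Quotient.mk I), Matrix.map_mul, hmk, hmk, hAB, fromBlocks_map,
      Matrix.map_zero _ (map_zero _), Matrix.map_zero _ (map_zero _),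
      Matrix.map_one _ (map_zero _) (map_one _)]
  · intro i k
    rw [← Ideal.Quotient.eq, ← Matrix.map_apply (f := Ideal.Quotient.mk I),
      ← Matrix.map_apply (f := Ideal.Quotient.mk I), Matrix.map_mul, hmk, hmk, hBA,
      Matrix.map_one _ (map_zero _) (map_one _)]

end Psi

end Pool.Agent.CC
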