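import Pool.Agent.Lib.MP_8f66f0_al_CC.Sys.Base
import Pool.Agent.Lib.MP_8f66f0_al_Ind.Euc

/-!
# Theorem CC: the coefficient rings `L` and `L[t]`, `L` a Euclidean domain

The class `P0` is closed under adjoining a Laurent variable.
-/

set_option autoImplicit false

namespace Pool.Agent.CC

open Pool.Agent.Wald Pool.Agent.Ind
open scoped Polynomial

/-- The coefficient rings: Euclidean domains and polynomials over them. -/
inductive P0 : ∀ (k : Type) [CommRing k], Prop
  | euc (L : Type) [CommRing L] [IsDomain L] (h : IsEuc L) : P0 L
  | poly (L : Type) [CommRing L] [IsDomain L] (h : IsEuc L) : P0 L[X]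

theorem P0.dom {k : Type} [CommRing k] (h : P0 k) : IsDomain k := by
  cases h with
  | euc h => infer_instance
  | poly L h => infer_instance

theorem single_mul_inv (k : Type) [CommRing k] :
    (HahnSeries.single 1 1 : LaurentSeries k) * HahnSeries.single (-1) 1 = 1 := by
  rw [HahnSeries.single_mul_single]
  simp

/-- Laurent series. -/
noncomputable def twL (L : Type) [CommRing L] : TwE L (LaurentSeries L) where
  τ := RingHom.id _
  i := HahnSeries.C
  hi _ := rfl
  y := HahnSeries.single 1 1
  y' := HahnSeries.single (-1) 1
  hy := rfl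
  yy' := single_mul_inv L

/-- Laurent series with polynomial coefficients. -/
noncomputable def mpL (L : Type) [CommRing L] : LaurentSeries L →+* LaurentSeries L[X] where
  toFun x := x.map (Polynomial.C : L →+* L[X])
  map_one' := by
    ext m
    simp only [HahnSeries.map_coeff, HahnSeries.coeff_one]
    split_ifs <;> simp
  map_mul' x y := by
    exact HahnSeries.map_mul (Polynomial.C : L →+* L[X]).toNonUnitalRingHom
  map_zero' := by
    ext m
    simp
  map_add' x y := by
    ext m
    simp

/-- Polynomials over the Laurent series. -/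
noncomputable def twP (L : Type) [CommRing L] : TwE L[X] (LaurentSeries L)[X] where
  τ := Polynomial.eval₂RingHom (mpL L) (HahnSeries.C (Polynomial.X : L[X]))
  i := Polynomial.mapRingHom HahnSeries.C
  hi a := by
    have h : (Polynomial.eval₂RingHom (mpL L) (HahnSeries.C (Polynomial.X : L[X]))).comp
        (Polynomial.mapRingHom HahnSeries.C) = (HahnSeries.C : L[X] →+* LaurentSeries L[X]) := by
      refine Polynomial.ringHom_ext (fun c => ?_) ?_
      · simp only [RingHom.comp_apply, Polynomial.coe_mapRingHom, Polynomial.map_C,
          Polynomial.coe_eval₂RingHom, Polynomial.eval₂_C]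
        refine HahnSeries.ext (funext fun m => ?_)
        change ((HahnSeries.C c).map (Polynomial.C : L →+* L[X])).coeff m = _
        rw [HahnSeries.map_coeff, HahnSeries.C_apply, HahnSeries.C_apply, HahnSeries.coeff_single,
          HahnSeries.coeff_single]
        split_ifs <;> simp
      · simp only [RingHom.comp_apply, Polynomial.coe_mapRingHom, Polynomial.map_X,
          Polynomial.coe_eval₂RingHom, Polynomial.eval₂_X]
    exact congrArg (fun φ => φ a) h
  y := Polynomial.C (HahnSeries.single 1 1)
  y' := Polynomial.C (HahnSeries.single (-1) 1)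
  hy := by
    simp only [Polynomial.coe_eval₂RingHom, Polynomial.eval₂_C]
    refine HahnSeries.ext (funext fun m => ?_)
    change ((HahnSeries.single 1 1).map (Polynomial.C : L →+* L[X])).coeff m = _
    rw [HahnSeries.map_coeff, HahnSeries.coeff_single, HahnSeries.coeff_single]
    split_ifs <;> simp
  yy' := by
    rw [← Polynomial.C_mul, single_mul_inv, Polynomial.C_1]

theorem P0.ext {k : Type} [CommRing k] (h : P0 k) :
    ∃ (k' : Type) (_ : CommRing k'), P0 k' ∧ Nonempty (TwE k k') := by
  cases h with
  | euc _ h1 => exact ⟨LaurentSeries k, inferInstance, P0.euc _ (isEuc_laurent h1), ⟨twL k⟩⟩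
  | poly L h1 => exact ⟨(LaurentSeries L)[X], inferInstance, P0.poly _ (isEuc_laurent h1), ⟨twP L⟩⟩

end Pool.Agent.CC
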