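import Pool.Agent.Lib.MP_8f66f0_al_CC.Sys.Rays
import Pool.Agent.Lib.MP_8f66f0_al_CC.End.Spec

/-!
# Theorem CC: the two definitions of rays agree
-/

set_option autoImplicit false
set_option linter.unusedSectionVars false

namespace Pool.Agent.CC

open Pool.Agent.TQ Pool.Agent.Wald

variable {O Y C : Type} [DecidableEq O] {S : Sys O Y C}

theorem re_succ_upd (y : Y) (o : O) (n : ℕ) :
    S.re (fun o' m => if o' = o then m + 1 else m) (S.re (upd o n) y) = S.re (upd o (n + 1)) y := by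
  rw [S.re_re]
  refine S.re_congr _ _ _ fun s _ => ?_
  unfold upd
  by_cases h : s.1 = o
  · rw [if_pos h, if_pos h, if_pos h]
  · rw [if_neg h, if_neg h, if_neg h]

theorem Ry.isRay {ρ : ℕ ↪ Y} (hρ : Ry S ρ) : IsRay S ρ := by
  obtain ⟨y, o, m, ho, hr⟩ := hρ
  refine ⟨o, ?_, fun n => ?_⟩
  · rw [hr, mem_F_upd S ho]
    exact Or.inl ⟨rfl, Nat.zero_le _⟩
  · rw [hr, hr, re_succ_upd]
    congr 2
    omega

theorem IsRay.ry {ρ : ℕ ↪ Y} (hρ : IsRay S ρ) : Ry S ρ := by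
  obtain ⟨o, ho, hr⟩ := hρ
  obtain ⟨m, hm, _⟩ := S.mem_F.1 ho
  refine ⟨ρ 0, o, m, ho, fun n => ?_⟩
  induction n with
  | zero =>
    conv_lhs => rw [← S.re_id (ρ 0)]
    refine S.re_congr _ _ _ fun s hs => ?_
    unfold upd
    by_cases h : s.1 = o
    · have : s = (o, m) := S.inj _ s hs (o, m) hm h
      rw [if_pos h, this]
      omega
    · rw [if_neg h]
  | succ n ih =>
    rw [hr, ih, re_succ_upd]
    congr 2
    omega

theorem isRay_iff {ρ : ℕ ↪ Y} : IsRay S ρ ↔ Ry S ρ := ⟨IsRay.ry, Ry.isRay⟩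

end Pool.Agent.CC
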