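import Pool.Agent.Lib.MP_8f66f0_al_CC.Sys.Defs
import Pool.Agent.Lib.MP_8f66f0_al_CC.End.KR

/-!
# Theorem CC: the ladder of the ideals of a system

`lad_der`: modulo `J f`, the ideal `J (f + 1)` of `U S` is the union of the corners
`U (S.der (f + 1) h)`, `h` a height, and the preimage of `J f` is the ideal `J f` of the derived system.
`lu_J`: the ideals `J f` have local units.
-/

set_option autoImplicit false
set_option linter.unusedSectionVars false

namespace Pool.Agent.CC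

open Pool.Agent.TQ Pool.Agent.Wald

section Res

variable {Y A : Type} [Ring A]

open Classical in
/-- The restriction to a set of pairs of objects. -/
noncomputable def resK (x : RCF Y A) (P : Y → Y → Prop) : RCF Y A :=
  mkK (fun y' y => if P y' y then ent x y' y else 0)
    (fun y' => (ent_row x y').subset fun y hy => by
      rw [Set.mem_ofPred_eq] at hy ⊢
      intro h0
      rw [h0, ite_self] at hy
      exact hy rfl)
    (fun y => (ent_col x y).subset fun y' hy => by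
      rw [Set.mem_ofPred_eq] at hy ⊢
      intro h0
      rw [h0, ite_self] at hy
      exact hy rfl)

theorem ent_resK_pos (x : RCF Y A) {P : Y → Y → Prop} {y' y : Y} (h : P y' y) :
    ent (resK x P) y' y = ent x y' y := by
  rw [resK, ent_mkK, if_pos h]

theorem ent_resK_neg (x : RCF Y A) {P : Y → Y → Prop} {y' y : Y} (h : ¬ P y' y) :
    ent (resK x P) y' y = 0 := by
  rw [resK, ent_mkK, if_neg h]

end Res

section ResCf

variable {Y L Γ : Type} [CommRing L] [Group Γ]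

theorem cf_resK_pos (x : RCF Y (MonoidAlgebra L Γ)) {P : Y → Y → Prop} {g : Γ} {y' y : Y}
    (h : P y' y) : cf (resK x P) g y' y = cf x g y' y := by
  rw [cf, ent_resK_pos x h, cf]

theorem cf_resK_neg (x : RCF Y (MonoidAlgebra L Γ)) {P : Y → Y → Prop} {g : Γ} {y' y : Y}
    (h : ¬ P y' y) : cf (resK x P) g y' y = 0 := by
  rw [cf, ent_resK_neg x h, MonoidAlgebra.coeff_zero, Finsupp.coe_zero, Pi.zero_apply]

theorem cf_resK_ne {x : RCF Y (MonoidAlgebra L Γ)} {P : Y → Y → Prop} {g : Γ} {y' y : Y}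
    (h : cf (resK x P) g y' y ≠ 0) : P y' y ∧ cf x g y' y ≠ 0 := by
  by_cases hP : P y' y
  · rw [cf_resK_pos x hP] at h
    exact ⟨hP, h⟩
  · exact absurd (cf_resK_neg x hP) h

theorem cf_sub (T U : RCF Y (MonoidAlgebra L Γ)) (g : Γ) (y x : Y) :
    cf (T - U) g y x = cf T g y x - cf U g y x := by
  rw [sub_eq_add_neg, cf_add, cf_neg, sub_eq_add_neg]

theorem cf_sub_resK_ne {x : RCF Y (MonoidAlgebra L Γ)} {P : Y → Y → Prop} {g : Γ} {y' y : Y}
    (h : cf (x - resK x P) g y' y ≠ 0) : ¬ P y' y ∧ cf x g y' y ≠ 0 := by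
  rw [cf_sub] at h
  by_cases hP : P y' y
  · rw [cf_resK_pos x hP, sub_self] at h
    exact absurd rfl h
  · rw [cf_resK_neg x hP, sub_zero] at h
    exact ⟨hP, h⟩

end ResCf

section Ladder

variable {O Y C Γ k : Type} [DecidableEq O] [Group Γ] [MulAction Γ O] [MulAction Γ C] [CommRing k]

open scoped Pointwise

/-- The decomposition at a given height. -/
theorem exists_eps_sub (S : Sys O Y C) (f : ℕ) (b : O →₀ ℕ) (x : U Γ k S)
    (hx : ∀ g y' y, cf x.1 g y' y ≠ 0 → (S.F b y').card ≤ f + 1 ∧ (S.F b y).card ≤ f + 1) :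
    ∃ c : U Γ k (S.der (f + 1) b), x - eps Γ k S (f + 1) b c ∈ J Γ k S f := by
  classical
  obtain ⟨x, hL, hF, P, hP, hC⟩ := x
  change ∀ g y' y, cf x g y' y ≠ 0 → _ at hx
  obtain ⟨h2, H2⟩ := hF b
  obtain ⟨h3, rfl⟩ : ∃ h3, h3 = h2 ⊔ b := ⟨_, rfl⟩
  obtain ⟨h4, H4⟩ := hF (h2 ⊔ b)
  let Q : Y → Y → Prop := fun y' y => (S.F (h2 ⊔ b) y').card = f + 1 ∧ (S.F (h2 ⊔ b) y).card = f + 1
  -- objects in the support with `f + 1` far slots for `h2 ⊔ b`
  have hE : ∀ y : Y, (S.F b y).card ≤ f + 1 → (S.F (h2 ⊔ b) y).card = f + 1 →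
      S.F (h2 ⊔ b) y = S.F b y := fun y h1 h3 =>
    Finset.eq_of_subset_of_card_le (S.F_anti le_sup_right y) (by rw [h3]; exact h1)
  let c : RCF {y : Y // (S.F b y).card = f + 1} (MonoidAlgebra k Γ) :=
    pull Subtype.val_injective (resK x Q)
  have hc : ∀ (g : Γ) (y' y : {y : Y // (S.F b y).card = f + 1}), cf c g y' y ≠ 0 →
      Q y'.1 y.1 ∧ cf x g y'.1 y.1 ≠ 0 := by
    intro g y' y h
    rw [cf_pull] at h
    exact cf_resK_ne h
  have hlab : Lab (S.der (f + 1) b) c := by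
    intro g y' y h
    obtain ⟨⟨hq1, hq2⟩, h0⟩ := hc g y' y h
    refine Prod.ext ?_ (hL g y'.1 y.1 h0)
    change S.F b y'.1 = g • S.F b y.1
    symm
    refine Finset.eq_of_subset_of_card_le ?_ ?_
    · intro o ho
      rw [Finset.mem_smul_finset] at ho
      obtain ⟨o, ho, rfl⟩ := ho
      rw [← hE y.1 (hx g y'.1 y.1 h0).2 hq2] at ho
      exact (H2 g y'.1 y.1 h0).1 o (S.F_anti le_sup_left y.1 ho)
    · rw [Finset.card_smul_finset, y.2, y'.2]
  have hfar : Far (S.der (f + 1) b) c := by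
    intro h'
    obtain ⟨h1, H1⟩ := hF (b + h')
    refine ⟨h1, fun g y' y h => ?_⟩
    obtain ⟨_, h0⟩ := hc g y' y h
    simp only [F_der]
    exact ⟨fun o ho => (H1 g y'.1 y.1 h0).1 o (S.F_anti le_add_self y.1 ho),
      fun o ho => (H1 g y'.1 y.1 h0).2 o (S.F_anti le_add_self y'.1 ho)⟩
  have hcof : Cof c := by
    refine ⟨P, hP, fun g y' y => ?_⟩
    by_cases h : cf c g y' y = 0
    · rw [h]
      exact P.zero_mem
    · obtain ⟨hq, _⟩ := hc g y' y h
      have h5 : cf c g y' y = cf x g y'.1 y.1 := by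
        rw [cf_pull, cf_resK_pos x hq]
      rw [h5]
      exact hC g y'.1 y.1
  refine ⟨⟨c, hlab, hfar, hcof⟩, h4 ⊔ (h2 ⊔ b), fun g y' y h => ?_⟩
  change cf (x - push Subtype.val_injective c) g y' y ≠ 0 at h
  -- the entry of `x` is not zero, and not both objects have `f + 1` far slots
  have hpush : push Subtype.val_injective c = resK x fun y' y =>
      ((S.F b y').card = f + 1 ∧ (S.F b y).card = f + 1) ∧ Q y' y := by
    refine ent_ext fun y' y => ?_
    by_cases h1 : (S.F b y').card = f + 1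
    · by_cases h2' : (S.F b y).card = f + 1
      · have h3 := ent_push (A := MonoidAlgebra k Γ) Subtype.val_injective c
          (⟨y', h1⟩ : {y : Y // (S.F b y).card = f + 1}) ⟨y, h2'⟩
        change ent (push Subtype.val_injective c) y' y = _ at h3
        rw [h3, ent_pull]
        by_cases hq : Q y' y
        · rw [ent_resK_pos x hq, ent_resK_pos x ⟨⟨h1, h2'⟩, hq⟩]
        · rw [ent_resK_neg x hq, ent_resK_neg x fun hh => hq hh.2]
      · rw [ent_resK_neg x fun hh => h2' hh.1.2]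
        exact ent_pushK_right Subtype.val_injective fun ⟨x', hx'⟩ => h2' (hx' ▸ x'.2)
    · rw [ent_resK_neg x fun hh => h1 hh.1.1]
      exact ent_pushK_left Subtype.val_injective fun ⟨x', hx'⟩ => h1 (hx' ▸ x'.2)
  rw [hpush] at h
  obtain ⟨hn, h0⟩ := cf_sub_resK_ne h
  obtain ⟨hb', hb⟩ := hx g y' y h0
  have key : (S.F (h2 ⊔ b) y').card ≤ f ∨ (S.F (h2 ⊔ b) y).card ≤ f := by
    by_contra hcon
    push Not at hcon
    have e1 : (S.F (h2 ⊔ b) y').card ≤ (S.F b y').card := Finset.card_le_card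
      (S.F_anti le_sup_right y')
    have e2 : (S.F (h2 ⊔ b) y).card ≤ (S.F b y).card := Finset.card_le_card
      (S.F_anti le_sup_right y)
    exact hn ⟨⟨by omega, by omega⟩, by omega, by omega⟩
  rcases key with hk | hk
  · refine ⟨le_trans (Finset.card_le_card (S.F_anti le_sup_right y')) hk, ?_⟩
    refine le_trans (card_le_of_smul (g := g) fun o ho => ?_) hk
    exact (H4 g y' y h0).1 o (S.F_anti le_sup_left y ho)
  · refine ⟨?_, le_trans (Finset.card_le_card (S.F_anti le_sup_right y)) hk⟩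
    refine le_trans (card_le_of_smul (g := g⁻¹) fun o ho => ?_) hk
    exact (H4 g y' y h0).2 o (S.F_anti le_sup_left y' ho)

theorem eps_mem_J_iff (S : Sys O Y C) (f : ℕ) (b : O →₀ ℕ) (x : U Γ k (S.der (f + 1) b)) :
    eps Γ k S (f + 1) b x ∈ J Γ k S f ↔ x ∈ J Γ k (S.der (f + 1) b) f := by
  constructor
  · rintro ⟨h1, H1⟩
    refine ⟨h1, fun g y' y h => ?_⟩
    have h2 := H1 g y'.1 y.1 (by
      rw [eps_val, cf_push]
      exact h)
    rw [F_der, F_der]
    exact ⟨le_trans (Finset.card_le_card (S.F_anti le_add_self y'.1)) h2.1,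
      le_trans (Finset.card_le_card (S.F_anti le_add_self y.1)) h2.2⟩
  · rintro ⟨h1, H1⟩
    refine ⟨b + h1, fun g y' y h => ?_⟩
    rw [eps_val] at h
    obtain ⟨y', y, rfl, rfl, hd⟩ := cf_push_ne _ h
    have h2 := H1 g y' y hd
    rw [F_der, F_der] at h2
    exact h2

theorem eps_low (S : Sys O Y C) (f : ℕ) (b : O →₀ ℕ) (x : U Γ k (S.der f b)) (g : Γ) (y' y : Y)
    (h : cf (eps Γ k S f b x).1 g y' y ≠ 0) : (S.F b y').card = f ∧ (S.F b y).card = f := by
  rw [eps_val] at h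
  obtain ⟨y', y, rfl, rfl, _⟩ := cf_push_ne _ h
  exact ⟨y'.2, y.2⟩

/-- The ladder from `J f` to `J (f + 1)`. -/
theorem lad_der (S : Sys O Y C) (f : ℕ) :
    Lad (U Γ k S) (J Γ k S f) (J Γ k S (f + 1)) (O →₀ ℕ) (fun b => U Γ k (S.der (f + 1) b))
      (fun b => J Γ k (S.der (f + 1) b) f) (fun b => eps Γ k S (f + 1) b) where
  le := J_mono S (Nat.le_succ f)
  dir b c := ⟨b ⊔ c, le_sup_left, le_sup_right⟩
  mem b x := eps_mem_J S (f + 1) b x
  pre b x := eps_mem_J_iff S f b x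
  cor b x _ := by
    refine exists_eps_sub S f b _ fun g y' y h => ?_
    obtain ⟨v, r, l, rfl, h1, h2⟩ := exists_of_cf_mul h
    obtain ⟨w, r', l', rfl, h3, _⟩ := exists_of_cf_mul h1
    exact ⟨le_of_eq (eps_low S (f + 1) b 1 r' y' w h3).1, le_of_eq (eps_low S (f + 1) b 1 l v y h2).2⟩
  mono b b' hb c := by
    refine exists_eps_sub S f b' _ fun g y' y h => ?_
    obtain ⟨h1, h2⟩ := eps_low S (f + 1) b c g y' y h
    exact ⟨le_trans (Finset.card_le_card (S.F_anti hb y')) (le_of_eq h1),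
      le_trans (Finset.card_le_card (S.F_anti hb y)) (le_of_eq h2)⟩
  dec x hx := by
    obtain ⟨b, hb⟩ := hx
    exact ⟨b, exists_eps_sub S f b x hb⟩

end Ladder

section LU

variable {O Y C Γ k : Type} [DecidableEq O] [Group Γ] [MulAction Γ O] [MulAction Γ C] [CommRing k]

theorem exists_height_of_finset (S : Sys O Y C) (f : ℕ) (s : Finset (U Γ k S))
    (hs : ∀ x ∈ s, x ∈ J Γ k S f) : ∃ h : O →₀ ℕ, ∀ x ∈ s, ∀ g y' y, cf x.1 g y' y ≠ 0 →
      (S.F h y').card ≤ f ∧ (S.F h y).card ≤ f := by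
  classical
  induction s using Finset.induction_on with
  | empty => exact ⟨0, fun x hx => absurd hx (Finset.notMem_empty x)⟩
  | insert x s _ ih =>
    obtain ⟨h1, H1⟩ := ih fun y hy => hs y (Finset.mem_insert_of_mem hy)
    obtain ⟨h2, H2⟩ := hs x (Finset.mem_insert_self x s)
    refine ⟨h1 ⊔ h2, fun z hz g y' y h => ?_⟩
    rcases Finset.mem_insert.1 hz with rfl | hz
    · exact ⟨le_trans (Finset.card_le_card (S.F_anti le_sup_right y')) (H2 g y' y h).1,
        le_trans (Finset.card_le_card (S.F_anti le_sup_right y)) (H2 g y' y h).2⟩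
    · exact ⟨le_trans (Finset.card_le_card (S.F_anti le_sup_left y')) (H1 z hz g y' y h).1,
        le_trans (Finset.card_le_card (S.F_anti le_sup_left y)) (H1 z hz g y' y h).2⟩

/-- The projection onto the objects with at most `f` far slots. -/
noncomputable def loE (S : Sys O Y C) (f : ℕ) (h : O →₀ ℕ) : RCF Y (MonoidAlgebra k Γ) :=
  resK 1 fun y' y => y' = y ∧ (S.F h y).card ≤ f

theorem ent_loE [DecidableEq Y] (S : Sys O Y C) (f : ℕ) (h : O →₀ ℕ) (y' y : Y) :
    ent (loE S f h : RCF Y (MonoidAlgebra k Γ)) y' y =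
      if y' = y ∧ (S.F h y).card ≤ f then 1 else 0 := by
  by_cases hc : y' = y ∧ (S.F h y).card ≤ f
  · rw [if_pos hc, loE, ent_resK_pos (P := fun y' y => y' = y ∧ (S.F h y).card ≤ f) _ hc, ent_one,
      if_pos hc.1]
  · rw [if_neg hc, loE, ent_resK_neg (P := fun y' y => y' = y ∧ (S.F h y).card ≤ f) _ hc]

theorem loE_mul (S : Sys O Y C) (f : ℕ) (h : O →₀ ℕ) (x : RCF Y (MonoidAlgebra k Γ))
    (hx : ∀ y' y, ent x y' y ≠ 0 → (S.F h y').card ≤ f) : loE S f h * x = x := by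
  classical
  refine ent_ext fun y' y => ?_
  rw [ent_mul_row _ x y' y {y'} fun v hv => ?_, Finset.sum_singleton, ent_loE]
  · by_cases h0 : ent x y' y = 0
    · rw [h0, mul_zero]
    · rw [if_pos ⟨rfl, hx y' y h0⟩, one_mul]
  · rw [ent_loE] at hv
    by_contra hn
    rw [Finset.mem_singleton] at hn
    rw [if_neg fun hh => hn hh.1.symm] at hv
    exact hv rfl

theorem mul_loE (S : Sys O Y C) (f : ℕ) (h : O →₀ ℕ) (x : RCF Y (MonoidAlgebra k Γ))
    (hx : ∀ y' y, ent x y' y ≠ 0 → (S.F h y).card ≤ f) : x * loE S f h = x := by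
  classical
  refine ent_ext fun y' y => ?_
  rw [ent_mul_col x _ y' y {y} fun v hv => ?_, Finset.sum_singleton, ent_loE]
  · by_cases h0 : ent x y' y = 0
    · rw [h0, zero_mul]
    · rw [if_pos ⟨rfl, hx y' y h0⟩, mul_one]
  · rw [ent_loE] at hv
    by_contra hn
    rw [Finset.mem_singleton] at hn
    rw [if_neg fun hh => hn hh.1] at hv
    exact hv rfl

theorem exists_cf_of_ent {L : Type} [CommRing L] {T : RCF Y (MonoidAlgebra L Γ)} {y x : Y}
    (h : ent T y x ≠ 0) : ∃ g, cf T g y x ≠ 0 := by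
  by_contra hcon
  push Not at hcon
  exact h (MonoidAlgebra.ext (Finsupp.ext fun g => hcon g))

theorem loE_mem (S : Sys O Y C) (f : ℕ) (h : O →₀ ℕ) :
    (loE S f h : RCF Y (MonoidAlgebra k Γ)) ∈ U Γ k S := by
  refine ⟨fun g y' y hc => ?_, fun h' => ⟨h', fun g y' y hc => ?_⟩, Submodule.span ℤ {1},
    Submodule.fg_span_singleton _, fun g y' y => ?_⟩
  · obtain ⟨_, h0⟩ := cf_resK_ne hc
    exact Lab.one S g y' y h0
  · obtain ⟨_, h0⟩ := cf_resK_ne hc
    obtain ⟨rfl, rfl⟩ := cf_one_ne h0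
    exact ⟨fun o ho => by rwa [one_smul], fun o ho => by rwa [inv_one, one_smul]⟩
  · by_cases hc : y' = y ∧ (S.F h y).card ≤ f
    · rw [loE, cf_resK_pos (P := fun y' y => y' = y ∧ (S.F h y).card ≤ f) _ hc]
      exact cf_one_mem _ (Submodule.mem_span_singleton_self 1) g y' y
    · rw [loE, cf_resK_neg (P := fun y' y => y' = y ∧ (S.F h y).card ≤ f) _ hc]
      exact Submodule.zero_mem _

/-- The ideals `J f` have local units. -/
theorem lu_J (S : Sys O Y C) (f : ℕ) : LU (J Γ k S f) := by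
  classical
  intro s hs
  obtain ⟨h, H⟩ := exists_height_of_finset S f s hs
  refine ⟨⟨loE S f h, loE_mem S f h⟩, ⟨h, fun g y' y hc => ?_⟩, ?_, fun x hx => ⟨?_, ?_⟩⟩
  · obtain ⟨⟨rfl, h1⟩, _⟩ := cf_resK_ne hc
    exact ⟨h1, h1⟩
  · refine Subtype.ext (loE_mul S f h _ fun y' y h0 => ?_)
    rw [ent_loE] at h0
    by_contra hn
    rw [if_neg] at h0
    · exact h0 rfl
    · rintro ⟨rfl, h1⟩
      exact hn h1
  · refine Subtype.ext (loE_mul S f h _ fun y' y h0 => ?_)
    obtain ⟨g, hg⟩ := exists_cf_of_ent h0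
    exact (H x hx g y' y hg).1
  · refine Subtype.ext (mul_loE S f h _ fun y' y h0 => ?_)
    obtain ⟨g, hg⟩ := exists_cf_of_ent h0
    exact (H x hx g y' y hg).2

end LU

end Pool.Agent.CC
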