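import Pool.Agent.Lib.MP_8f66f0_al_CC.Sys.FinU

/-!
# The finite step in the ring of a system (continued)
-/

set_option autoImplicit false
set_option linter.unusedSectionVars false

namespace Pool.Agent.CC

open Matrix Pool.Agent.TQ Pool.Agent.FH Pool.Agent.Wald
open scoped Pointwise

section FS

variable {O Y C Γ k : Type} [DecidableEq O] [Group Γ] [MulAction Γ O] [MulAction Γ C]
  [CommRing k] (S : Sys O Y C)

theorem Lb.mul {n m l : Type} [Fintype m] {p : n → C} {q : m → C} {r : l → C}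
    {a : Matrix n m (MonoidAlgebra k Γ)} {b : Matrix m l (MonoidAlgebra k Γ)}
    (ha : Lb p q a) (hb : Lb q r b) : Lb p r (a * b) :=
  SupR.mul (E := (· = ·)) (E' := (· = ·)) (E'' := (· = ·)) (fun _ _ _ h h' => h.trans h')
    (fun _ _ _ h => congrArg _ h) ha hb

theorem Lb.add {n m : Type} {p : n → C} {q : m → C}
    {a b : Matrix n m (MonoidAlgebra k Γ)} (ha : Lb p q a) (hb : Lb p q b) : Lb p q (a + b) :=
  SupR.add ha hb

/-- `gl` over the ring of a system. -/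
noncomputable def glU {N : Type} [Finite N] (s : Finset Y)
    (a : Matrix (N × s) (N × s) (MonoidAlgebra k Γ)) (P : N → Prop)
    (ha : Lb (fun i : N × s => S.lab i.2) (fun i : N × s => S.lab i.2) a) :
    Matrix N N (U Γ k S) := Matrix.of fun p q => ⟨gl s a P p q, gl_mem S s a P ha p q⟩

theorem map_glU {N : Type} [Finite N] (s : Finset Y)
    (a : Matrix (N × s) (N × s) (MonoidAlgebra k Γ)) (P : N → Prop)
    (ha : Lb (fun i : N × s => S.lab i.2) (fun i : N × s => S.lab i.2) a) :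
    (glU S s a P ha).map Subtype.val = gl s a P := rfl

theorem map_injU {N M : Type} {A B : Matrix N M (U Γ k S)}
    (h : A.map Subtype.val = B.map Subtype.val) : A = B :=
  Matrix.ext fun i j => Subtype.ext (congrFun (congrFun h i) j)

theorem map_mulU {N : Type} [Fintype N] (A B : Matrix N N (U Γ k S)) :
    (A * B).map Subtype.val = A.map Subtype.val * B.map Subtype.val :=
  Matrix.map_mul (f := (U Γ k S).subtype)

theorem map_oneU {N : Type} [DecidableEq N] :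
    (1 : Matrix N N (U Γ k S)).map Subtype.val = 1 :=
  Matrix.map_one (U Γ k S).subtype (map_zero _) (map_one _)

variable {S}

theorem exact_psf {f : ℕ} (hE : S.Exact Γ f) (hf : 1 ≤ f) (hS : SF Γ k S) (y : Y) :
    ProjSF (MonoidAlgebra k (MulAction.stabilizer Γ (S.lab y))) := by
  have h1 : (S.F 0 y).card = f := by
    have h2 : (S.A y).filter (fun s => (0 : O →₀ ℕ) s.1 ≤ s.2) = S.A y :=
      Finset.filter_true_of_mem fun s _ => Nat.zero_le _
    rw [S.card_F, h2]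
    exact hE.1 y
  refine hS y (S.F 0 y) ?_ (Finset.Subset.refl _) _ (fun g hg => ?_) fun g hg => hg
  · rw [← Finset.card_pos, h1]
    exact hf
  · refine Finset.eq_of_subset_of_card_le (fun o ho => ?_) ?_
    · obtain ⟨o', ho', rfl⟩ := Finset.mem_smul_finset.1 ho
      exact hE.2 g y y (MulAction.mem_stabilizer_iff.1 hg).symm o' ho'
    · rw [Finset.card_smul_finset]

theorem gl_inj {A N : Type} [Ring A] {s : Finset Y} {a b : Matrix (N × s) (N × s) A} {P Q : N → Prop}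
    (h : gl s a P = gl s b Q) : a = b := by
  refine Matrix.ext fun i j => ?_
  have h1 : ent (gl s a P i.1 j.1) i.2 j.2 = ent (gl s b Q i.1 j.1) i.2 j.2 := by rw [h]
  rw [ent_gl, ent_gl, glE_in i.2.2 j.2.2, glE_in i.2.2 j.2.2] at h1
  exact h1

open Classical in
theorem ent_pj {N : Type} (P : N → Prop) (i j : N) (y' y : Y) :
    ent ((pj P : Matrix N N (U Γ k S)) i j).1 y' y =
      if y' = y ∧ i = j ∧ P i then 1 else 0 := by
  by_cases h : i = j ∧ P i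
  · have h1 : ((pj P : Matrix N N (U Γ k S)) i j) = 1 := if_pos h
    rw [h1]
    change ent (1 : RCF Y (MonoidAlgebra k Γ)) y' y = _
    rw [ent_one]
    by_cases hy : y' = y
    · rw [if_pos hy, if_pos ⟨hy, h⟩]
    · rw [if_neg hy, if_neg fun h' => hy h'.1]
  · rw [pj_apply_neg h, if_neg fun h' => h h'.2]
    rfl

/-- **Finite step.** -/
theorem fs [IsDomain k] {f : ℕ} (hE : S.Exact Γ f) (hf : 1 ≤ f) (hS : SF Γ k S) {n : Type}
    [Fintype n] [DecidableEq n] (P : n → Prop) (e : Matrix n n (U Γ k S)) (he : e * e = e)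
    (heP : MC (J Γ k S 0) e (pj P)) :
    ∃ (m : Type) (_ : Fintype m) (_ : DecidableEq m) (R : m → Prop)
      (v : Matrix (n ⊕ m) (n ⊕ m) (U Γ k S)) (s : Finset Y) (X : n ⊕ m → Set Y), v * v = 1 ∧
      MC (J Γ k S 0) v 1 ∧ (∀ p y, y ∉ s → (y ∈ X p ↔ Sum.elim P R p)) ∧
      ∀ p q y' y,
        ((p = q ∧ y' = y ∧ y ∈ X p) → ent ((v * fromBlocks e 0 0 (pj R) * v) p q).1 y' y = 1) ∧
        (¬ (p = q ∧ y' = y ∧ y ∈ X p) →
          ent ((v * fromBlocks e 0 0 (pj R) * v) p q).1 y' y = 0) := by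
  classical
  obtain ⟨s, hs⟩ : ∃ s : Finset Y, ∀ i j y' y, ent (e i j - (pj P : Matrix n n (U Γ k S)) i j).1
      y' y ≠ 0 → y' ∈ s ∧ y ∈ s := by
    choose t ht using fun i j => J0_fin S (heP i j)
    refine ⟨Finset.univ.biUnion fun i => Finset.univ.biUnion fun j => t i j,
      fun i j y' y h => ?_⟩
    obtain ⟨h1, h2⟩ := ht i j y' y h
    simp only [Finset.mem_biUnion, Finset.mem_univ, true_and]
    exact ⟨⟨i, j, h1⟩, ⟨i, j, h2⟩⟩
  have hs' : ∀ i j y' y, (y' ∉ s ∨ y ∉ s) → ent (e i j).1 y' y =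
      ent ((pj P : Matrix n n (U Γ k S)) i j).1 y' y := by
    intro i j y' y h
    by_contra hne
    have h1 : ent (e i j - (pj P : Matrix n n (U Γ k S)) i j).1 y' y ≠ 0 := by
      change ent ((e i j).1 - ((pj P : Matrix n n (U Γ k S)) i j).1) y' y ≠ 0
      rw [ent_sub]
      exact sub_ne_zero.2 hne
    have h2 := hs i j y' y h1
    exact h.elim (fun h3 => h3 h2.1) fun h3 => h3 h2.2
  -- the block of `e`
  set q : Matrix (n × s) (n × s) (MonoidAlgebra k Γ) :=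
    Matrix.of fun i j => ent (e i.1 j.1).1 i.2 j.2 with hq
  have he1 : e.map Subtype.val = gl s q P := by
    refine eq_gl s (e.map Subtype.val) P (fun p p' y' y h1 h2 => ?_) fun p y hy hP => ?_
    · rw [Matrix.map_apply, hs' p p' y' y h1, ent_pj, if_neg h2]
    · rw [Matrix.map_apply, hs' p p y y (Or.inl hy), ent_pj, if_pos ⟨rfl, rfl, hP⟩]
  have hqq : q * q = q := by
    have h1 : gl s (q * q) (fun i => P i ∧ P i) = gl s q P := by
      rw [← gl_mul, ← he1, ← map_mulU, he]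
    exact gl_inj h1
  let l : n × s → C := fun i => S.lab i.2
  have hLq : Lb l l q := fun i j g hg => (e i.1 j.1).2.1 g i.2 j.2 hg
  obtain ⟨n₁, n₂, _, _, _, _, i₁, i₂, w, hw1, hw2, hw3⟩ :=
    fin_step l q hqq hLq fun i => exact_psf hE hf hS i.2
  let R : n₁ ⊕ n₂ → Prop := Sum.elim (fun _ => True) fun _ => False
  let ι : (n × s ⊕ n₁) ⊕ n₂ → (n ⊕ (n₁ ⊕ n₂)) × s :=
    Sum.elim (Sum.elim (fun z => (Sum.inl z.1, z.2)) fun a => (Sum.inr (Sum.inl a), (i₁ a).2))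
      fun b => (Sum.inr (Sum.inr b), (i₂ b).2)
  have hι : Function.Injective ι := by
    rintro ((⟨i, y⟩ | a) | b) ((⟨i', y'⟩ | a') | b') h
    · have h1 := (Prod.ext_iff.1 h).1
      have h2 := (Prod.ext_iff.1 h).2
      change Sum.inl i = Sum.inl i' at h1
      change y = y' at h2
      rw [Sum.inl.inj h1, h2]
    · exact absurd (Prod.ext_iff.1 h).1 Sum.inl_ne_inr
    · exact absurd (Prod.ext_iff.1 h).1 Sum.inl_ne_inr
    · exact absurd (Prod.ext_iff.1 h).1 Sum.inr_ne_inl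
    · have h1 := (Prod.ext_iff.1 h).1
      change Sum.inr (Sum.inl a) = Sum.inr (Sum.inl a') at h1
      rw [Sum.inl.inj (Sum.inr.inj h1)]
    · exact absurd (Sum.inr.inj (Prod.ext_iff.1 h).1) Sum.inl_ne_inr
    · exact absurd (Prod.ext_iff.1 h).1 Sum.inr_ne_inl
    · exact absurd (Sum.inr.inj (Prod.ext_iff.1 h).1) Sum.inr_ne_inl
    · have h1 := (Prod.ext_iff.1 h).1
      change Sum.inr (Sum.inr b) = Sum.inr (Sum.inr b') at h1
      rw [Sum.inr.inj (Sum.inr.inj h1)]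
  let lT : (n × s ⊕ n₁) ⊕ n₂ → C := Sum.elim (Sum.elim l (l ∘ i₁)) (l ∘ i₂)
  let lZ : (n ⊕ (n₁ ⊕ n₂)) × s → C := fun i => S.lab i.2
  have hl : ∀ t, lZ (ι t) = lT t := by
    rintro ((⟨i, y⟩ | a) | b) <;> rfl
  have hc : Lb lZ lT (ic (MonoidAlgebra k Γ) ι) := by
    intro z t g hg
    rw [ic, Matrix.of_apply] at hg
    by_cases h : z = ι t
    · rw [if_pos h, MonoidAlgebra.one_def, MonoidAlgebra.coeff_single, Finsupp.single_apply] at hg
      have h1 : g = 1 := by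
        by_contra h2
        exact hg (if_neg (Ne.symm h2))
      rw [h1, one_smul, h, hl]
    · rw [if_neg h] at hg
      exact absurd rfl hg
  have hr : Lb lT lZ (ir (MonoidAlgebra k Γ) ι) := by
    intro t z g hg
    rw [ir, Matrix.of_apply] at hg
    by_cases h : z = ι t
    · rw [if_pos h, MonoidAlgebra.one_def, MonoidAlgebra.coeff_single, Finsupp.single_apply] at hg
      have h1 : g = 1 := by
        by_contra h2
        exact hg (if_neg (Ne.symm h2))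
      rw [h1, one_smul, h, hl]
    · rw [if_neg h] at hg
      exact absurd rfl hg
  have hLw : Lb lZ lZ (ex1 ι w) :=
    Lb.add (Lb.sub (Lb.one lZ) (Lb.mul hc hr)) (Lb.mul (Lb.mul hc hw1) hr)
  -- the block of `e ⊕ pj R`
  set E' : Matrix (n ⊕ (n₁ ⊕ n₂)) (n ⊕ (n₁ ⊕ n₂)) (U Γ k S) := fromBlocks e 0 0 (pj R) with hE'
  let B : Matrix ((n ⊕ (n₁ ⊕ n₂)) × s) ((n ⊕ (n₁ ⊕ n₂)) × s) (MonoidAlgebra k Γ) :=
    Matrix.of fun i j => ent (E' i.1 j.1).1 i.2 j.2
  let q' : Matrix ((n × s ⊕ n₁) ⊕ n₂) ((n × s ⊕ n₁) ⊕ n₂) (MonoidAlgebra k Γ) :=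
    fromBlocks (fromBlocks q 0 0 1) 0 0 0
  let B0 : Matrix ((n ⊕ (n₁ ⊕ n₂)) × s) ((n ⊕ (n₁ ⊕ n₂)) × s) (MonoidAlgebra k Γ) :=
    diagonal fun z => if z ∉ Set.range ι ∧ Sum.elim P R z.1 then 1 else 0
  have hd1 : ∀ z, B0 z z = if z ∉ Set.range ι ∧ Sum.elim P R z.1 then 1 else 0 :=
    fun z => diagonal_apply_eq _ _
  have hd2 : ∀ z z', z ≠ z' → B0 z z' = 0 := fun z z' h => diagonal_apply_ne _ h
  let q1 : Matrix ((n × s ⊕ n₁) ⊕ n₂) ((n × s ⊕ n₁) ⊕ n₂) (MonoidAlgebra k Γ) :=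
    fromBlocks 0 0 0 1
  have hB1 : ∀ t t', B (ι t) (ι t') = q' t t' := by
    rintro ((⟨i, y⟩ | a) | b) ((⟨i', y'⟩ | a') | b')
    · rfl
    · rfl
    · rfl
    · rfl
    · change ent ((pj R : Matrix (n₁ ⊕ n₂) (n₁ ⊕ n₂) (U Γ k S)) (Sum.inl a) (Sum.inl a')).1
        (i₁ a).2 (i₁ a').2 = (1 : Matrix n₁ n₁ (MonoidAlgebra k Γ)) a a'
      rw [ent_pj]
      by_cases h : a = a'
      · subst h
        rw [Matrix.one_apply_eq, if_pos ⟨rfl, rfl, trivial⟩]
      · rw [Matrix.one_apply_ne h, if_neg fun h' => h (Sum.inl.inj h'.2.1)]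
    · change ent ((pj R : Matrix (n₁ ⊕ n₂) (n₁ ⊕ n₂) (U Γ k S)) (Sum.inl a) (Sum.inr b')).1
        (i₁ a).2 (i₂ b').2 = 0
      rw [ent_pj, if_neg fun h' => absurd h'.2.1 Sum.inl_ne_inr]
    · rfl
    · change ent ((pj R : Matrix (n₁ ⊕ n₂) (n₁ ⊕ n₂) (U Γ k S)) (Sum.inr b) (Sum.inl a')).1
        (i₂ b).2 (i₁ a').2 = 0
      rw [ent_pj, if_neg fun h' => absurd h'.2.1 Sum.inr_ne_inl]
    · change ent ((pj R : Matrix (n₁ ⊕ n₂) (n₁ ⊕ n₂) (U Γ k S)) (Sum.inr b) (Sum.inr b')).1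
        (i₂ b).2 (i₂ b').2 = 0
      rw [ent_pj, if_neg fun h' => h'.2.2]
  have hB2 : ∀ z z', ¬ (z ∈ Set.range ι ∧ z' ∈ Set.range ι) → B z z' = B0 z z' := by
    rintro ⟨i | c, y⟩ ⟨i' | c', y'⟩ h
    · exact absurd ⟨⟨Sum.inl (Sum.inl (i, y)), rfl⟩, ⟨Sum.inl (Sum.inl (i', y')), rfl⟩⟩ h
    · change ent (0 : RCF Y (MonoidAlgebra k Γ)) y y' = _
      rw [ent_zero]
      exact (hd2 _ _ fun h' => absurd (Prod.ext_iff.1 h').1 Sum.inl_ne_inr).symm
    · change ent (0 : RCF Y (MonoidAlgebra k Γ)) y y' = _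
      rw [ent_zero]
      exact (hd2 _ _ fun h' => absurd (Prod.ext_iff.1 h').1 Sum.inr_ne_inl).symm
    · change ent ((pj R : Matrix (n₁ ⊕ n₂) (n₁ ⊕ n₂) (U Γ k S)) c c').1 y y' = _
      rw [ent_pj]
      by_cases hz : c = c' ∧ y = y'
      · obtain ⟨rfl, rfl⟩ := hz
        have hz1 : ((Sum.inr c, y) : (n ⊕ (n₁ ⊕ n₂)) × s) ∉ Set.range ι := fun h' => h ⟨h', h'⟩
        rw [hd1]
        by_cases hR : R c
        · rw [if_pos ⟨rfl, rfl, hR⟩, if_pos ⟨hz1, hR⟩]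
        · rw [if_neg fun h' => hR h'.2.2, if_neg fun h' => hR h'.2]
      · rw [if_neg fun h' => hz ⟨h'.2.1, Subtype.ext h'.1⟩]
        refine (hd2 _ _ fun h' => hz ?_).symm
        exact ⟨Sum.inr.inj (Prod.ext_iff.1 h').1, (Prod.ext_iff.1 h').2⟩
  have hB0 : ∀ z z', z ∈ Set.range ι ∨ z' ∈ Set.range ι → B0 z z' = 0 := by
    intro z z' h
    by_cases hz : z = z'
    · subst hz
      rw [hd1, if_neg fun h' => h'.1 (h.elim id id)]
    · exact hd2 _ _ hz
  have hB : B = ic (MonoidAlgebra k Γ) ι * q' * ir (MonoidAlgebra k Γ) ι + B0 := by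
    refine Matrix.ext fun z z' => ?_
    rw [Matrix.add_apply]
    by_cases h : z ∈ Set.range ι ∧ z' ∈ Set.range ι
    · obtain ⟨⟨t, rfl⟩, ⟨t', rfl⟩⟩ := h
      rw [ic_mul_ir _ _ _ _ hι, hB1, hB0 _ _ (Or.inl ⟨t, rfl⟩), add_zero]
    · rw [hB2 z z' h]
      have h1 : (ic (MonoidAlgebra k Γ) ι * q' * ir (MonoidAlgebra k Γ) ι) z z' = 0 := by
        by_contra hne
        obtain ⟨t, t', h2, h3⟩ := ic_mul_ir_ne hne
        exact h ⟨⟨t, h2.symm⟩, ⟨t', h3.symm⟩⟩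
      rw [h1, zero_add]
  have hir0 : ir (MonoidAlgebra k Γ) ι * B0 = 0 := by
    refine Matrix.ext fun t z => ?_
    rw [Matrix.mul_apply]
    refine Finset.sum_eq_zero fun z' _ => ?_
    rw [ir, Matrix.of_apply]
    by_cases h : z' = ι t
    · rw [hB0 z' z (Or.inl ⟨t, h.symm⟩), mul_zero]
    · rw [if_neg h, zero_mul]
  have hic0 : B0 * ic (MonoidAlgebra k Γ) ι = 0 := by
    refine Matrix.ext fun z t => ?_
    rw [Matrix.mul_apply]
    refine Finset.sum_eq_zero fun z' _ => ?_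
    rw [ic, Matrix.of_apply]
    by_cases h : z' = ι t
    · rw [hB0 z z' (Or.inr ⟨t, h.symm⟩), zero_mul]
    · rw [if_neg h, mul_zero]
  have hcj : ex1 ι w * B * ex1 ι w = ic (MonoidAlgebra k Γ) ι * q1 *
      ir (MonoidAlgebra k Γ) ι + B0 := by
    rw [hB, ex1_conj hι w q' B0 hir0 hic0, hw3]
  have hq11 : ∀ b, q1 (Sum.inr b) (Sum.inr b) = 1 := fun b => Matrix.one_apply_eq b
  set D := ic (MonoidAlgebra k Γ) ι * q1 * ir (MonoidAlgebra k Γ) ι + B0 with hDdef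
  let Xs : (n ⊕ (n₁ ⊕ n₂)) × s → Prop := fun z => (∃ b, z = ι (Sum.inr b)) ∨
    (z ∉ Set.range ι ∧ Sum.elim P R z.1)
  have hD1 : ∀ z, Xs z → D z z = 1 := by
    rintro z (⟨b, rfl⟩ | ⟨h1, h2⟩)
    · rw [hDdef, Matrix.add_apply, ic_mul_ir _ _ _ _ hι, hB0 _ _ (Or.inl ⟨_, rfl⟩), add_zero,
        hq11]
    · rw [hDdef, Matrix.add_apply]
      have h3 : (ic (MonoidAlgebra k Γ) ι * q1 * ir (MonoidAlgebra k Γ) ι) z z = 0 := by
        by_contra hne
        obtain ⟨t, t', h2, h3⟩ := ic_mul_ir_ne hne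
        exact h1 ⟨t, h2.symm⟩
      rw [h3, zero_add, hd1, if_pos ⟨h1, h2⟩]
  have hD0 : ∀ z z', ¬ (z = z' ∧ Xs z) → D z z' = 0 := by
    intro z z' h
    rw [hDdef, Matrix.add_apply]
    have h1 : (ic (MonoidAlgebra k Γ) ι * q1 * ir (MonoidAlgebra k Γ) ι) z z' = 0 := by
      by_contra hne
      obtain ⟨t, t', rfl, rfl⟩ := ic_mul_ir_ne hne
      rw [ic_mul_ir _ _ _ _ hι] at hne
      rcases t with t | b
      · rcases t' with t' | b'
        · exact hne rfl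
        · exact hne rfl
      · rcases t' with t' | b'
        · exact hne rfl
        · change (1 : Matrix n₂ n₂ (MonoidAlgebra k Γ)) b b' ≠ 0 at hne
          by_cases hb : b = b'
          · subst hb
            exact h ⟨rfl, Or.inl ⟨b, rfl⟩⟩
          · exact hne (Matrix.one_apply_ne hb)
    rw [h1, zero_add]
    by_cases hz : z = z'
    · subst hz
      rw [hd1, if_neg fun h' => h ⟨rfl, Or.inr h'⟩]
    · exact hd2 _ _ hz
  have hEgl : E'.map Subtype.val = gl s B (Sum.elim P R) := by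
    refine eq_gl s (E'.map Subtype.val) (Sum.elim P R) ?_ ?_
    · rintro (i | c) (i' | c') y' y h1 h2
      · change ent (e i i').1 y' y = 0
        rw [hs' i i' y' y h1, ent_pj, if_neg fun h' => h2 ⟨h'.1, by rw [h'.2.1], h'.2.2⟩]
      · rfl
      · rfl
      · change ent ((pj R : Matrix (n₁ ⊕ n₂) (n₁ ⊕ n₂) (U Γ k S)) c c').1 y' y = 0
        rw [ent_pj, if_neg fun h' => h2 ⟨h'.1, by rw [h'.2.1], h'.2.2⟩]
    · rintro (i | c) y hy hP
      · change ent (e i i).1 y y = 1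
        rw [hs' i i y y (Or.inl hy), ent_pj, if_pos ⟨rfl, rfl, hP⟩]
      · change ent ((pj R : Matrix (n₁ ⊕ n₂) (n₁ ⊕ n₂) (U Γ k S)) c c).1 y y = 1
        rw [ent_pj, if_pos ⟨rfl, rfl, hP⟩]
  let v : Matrix (n ⊕ (n₁ ⊕ n₂)) (n ⊕ (n₁ ⊕ n₂)) (U Γ k S) := glU S s (ex1 ι w) (fun _ => True) hLw
  have hv : v.map Subtype.val = gl s (ex1 ι w) fun _ => True := rfl
  have hT : (fun _ : n ⊕ (n₁ ⊕ n₂) => True ∧ True) = fun _ => True := by
    funext _
    exact and_self _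
  have hvv : v * v = 1 := by
    apply map_injU
    rw [map_mulU, map_oneU, hv, gl_mul, ex1_sq hι w hw2, hT, gl_one]
  have hfin : (v * E' * v).map Subtype.val = gl s D (Sum.elim P R) := by
    rw [map_mulU, map_mulU, hv, hEgl, gl_mul, gl_mul, hcj]
    congr 1
    funext i
    simp
  refine ⟨n₁ ⊕ n₂, inferInstance, inferInstance, R, v, s,
    fun p => {y | (∃ h : y ∈ s, Xs (p, ⟨y, h⟩)) ∨ (y ∉ s ∧ Sum.elim P R p)}, hvv, ?_, ?_, ?_⟩
  · intro i j
    refine mem_J0_of S (s := s) fun y' y h => ?_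
    by_contra hn
    apply h
    change ent ((v i j).1 - ((1 : Matrix (n ⊕ (n₁ ⊕ n₂)) (n ⊕ (n₁ ⊕ n₂)) (U Γ k S)) i j).1) y' y = 0
    have h1 : ((1 : Matrix (n ⊕ (n₁ ⊕ n₂)) (n ⊕ (n₁ ⊕ n₂)) (U Γ k S)) i j).1 =
        gl s (1 : Matrix ((n ⊕ (n₁ ⊕ n₂)) × s) ((n ⊕ (n₁ ⊕ n₂)) × s) (MonoidAlgebra k Γ))
          (fun _ => True) i j := by
      rw [gl_one, ← map_oneU (S := S), Matrix.map_apply]
    rw [ent_sub, h1]
    change ent (gl s (ex1 ι w) (fun _ => True) i j) y' y - _ = 0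
    rw [ent_gl, ent_gl]
    by_cases h2 : y' = y ∧ i = j ∧ True
    · obtain ⟨rfl, rfl, _⟩ := h2
      rw [glE_out (fun h => hn ⟨h, h⟩) trivial, glE_out (fun h => hn ⟨h, h⟩) trivial, sub_self]
    · rw [glE_ne (not_and_or.1 hn) h2, glE_ne (not_and_or.1 hn) h2, sub_self]
  · intro p y hy
    constructor
    · rintro (⟨h, _⟩ | ⟨_, h⟩)
      · exact absurd h hy
      · exact h
    · intro h
      exact Or.inr ⟨hy, h⟩
  · intro p p' y' y
    have h1 : ent ((v * E' * v) p p').1 y' y = glE s D (Sum.elim P R) p p' y' y := by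
      rw [← ent_gl, ← hfin, Matrix.map_apply]
    constructor
    · rintro ⟨rfl, rfl, h | ⟨h2, h3⟩⟩
      · obtain ⟨h2, h3⟩ := h
        rw [h1, glE_in h2 h2]
        exact hD1 _ h3
      · rw [h1, glE_out h2 h3]
    · intro h
      rw [h1]
      by_cases hy : y' ∈ s ∧ y ∈ s
      · rw [glE_in hy.1 hy.2]
        refine hD0 _ _ fun h2 => h ?_
        obtain ⟨h3, h4⟩ := h2
        have h5 := (Prod.ext_iff.1 h3).1
        have h6 : y' = y := congrArg Subtype.val (Prod.ext_iff.1 h3).2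
        change p = p' at h5
        subst h5
        subst h6
        exact ⟨rfl, rfl, Or.inl ⟨hy.2, h4⟩⟩
      · refine glE_ne (not_and_or.1 hy) fun h2 => h ⟨h2.2.1, h2.1, Or.inr ⟨?_, ?_⟩⟩
        · obtain ⟨rfl, _, _⟩ := h2
          exact fun h => hy ⟨h, h⟩
        · exact h2.2.2

end FS

end Pool.Agent.CC
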