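import Pool.Agent.Lib.MP_8f66f0_al_CC.Sys.Tools

/-!
# Theorem CC: finite matrices and rays in `U Γ k S`

* `memU_fin`: finite matrices which respect labels are in `U`, and in `J 0`; `mem_J_zero`: `J 0` consists
  of the finite matrices.
* `E g y' y`: the matrix with the entry `g` at the place `(y', y)`.
* `Ry S ρ`: `ρ` is a ray (a tail of the sequence of the objects which differ from an object only in the
  slot at one `o`); `shU ρ e`: the isometry, `1` or its adjoint (`e = 1, 0, -1`), in `U`, congruent to `1`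
  modulo `J 1`. Rays of the derived system are rays (`Ry.der`).
-/

set_option autoImplicit false
set_option linter.unusedSectionVars false

namespace Pool.Agent.CC

open Pool.Agent.TQ Pool.Agent.Wald

variable {O Y C Γ k : Type} [DecidableEq O] [Group Γ] [MulAction Γ O] [MulAction Γ C] [CommRing k]
variable {S : Sys O Y C}

theorem exists_cf_ne {z : RCF Y (MonoidAlgebra k Γ)} {y' y : Y} (h : ent z y' y ≠ 0) :
    ∃ g, cf z g y' y ≠ 0 := by
  by_contra hc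
  push Not at hc
  exact h (MonoidAlgebra.ext (Finsupp.ext fun g => hc g))

theorem exists_height_fin (S : Sys O Y C) {T : Set Y} (hT : T.Finite) :
    ∃ h : O →₀ ℕ, ∀ y ∈ T, S.F h y = ∅ := by
  classical
  obtain ⟨h, hh⟩ := Sys.exists_height (hT.toFinset.biUnion S.A)
  refine ⟨h, fun y hy => Finset.eq_empty_of_forall_notMem fun o ho => ?_⟩
  obtain ⟨n, h1, h2⟩ := S.mem_F.1 ho
  have h3 : n < h o := Sys.mem_low.1 (hh (Finset.mem_biUnion.2 ⟨y, hT.mem_toFinset.2 hy, h1⟩))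
  omega

theorem memU_fin {z : RCF Y (MonoidAlgebra k Γ)} (hz : z ∈ Jfin Y (MonoidAlgebra k Γ))
    (hl : Lab S z) : z ∈ U Γ k S ∧ Low S 0 z := by
  classical
  have hz' : {p : Y × Y | ent z p.1 p.2 ≠ 0}.Finite := hz
  obtain ⟨h, hh⟩ := exists_height_fin S ((hz'.image Prod.fst).union (hz'.image Prod.snd))
  have key : ∀ g y' y, cf z g y' y ≠ 0 → S.F h y' = ∅ ∧ S.F h y = ∅ := fun g y' y hc =>
    ⟨hh y' (Or.inl ⟨(y', y), cf_ne_of_ne hc, rfl⟩), hh y (Or.inr ⟨(y', y), cf_ne_of_ne hc, rfl⟩)⟩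
  refine ⟨⟨hl, fun h' => ⟨h, fun g y' y hc => ?_⟩, ?_⟩, h, fun g y' y hc => ?_⟩
  · rw [(key g y' y hc).1, (key g y' y hc).2]
    exact ⟨fun o ho => absurd ho (Finset.notMem_empty _),
      fun o ho => absurd ho (Finset.notMem_empty _)⟩
  · refine ⟨Submodule.span ℤ ((hz'.toFinset.biUnion fun p => (ent z p.1 p.2).coeff.support.image
      fun g => (ent z p.1 p.2).coeff g : Finset k) : Set k), Submodule.fg_span (Finset.finite_toSet _),
      fun g y' y => ?_⟩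
    by_cases hc : cf z g y' y = 0
    · rw [hc]
      exact Submodule.zero_mem _
    · refine Submodule.subset_span ?_
      rw [Finset.mem_coe, Finset.mem_biUnion]
      refine ⟨(y', y), hz'.mem_toFinset.2 (cf_ne_of_ne hc), Finset.mem_image.2 ⟨g, ?_, rfl⟩⟩
      rw [Finsupp.mem_support_iff]
      exact hc
  · rw [(key g y' y hc).1, (key g y' y hc).2]
    exact ⟨le_refl _, le_refl _⟩

theorem mem_J_zero {z : U Γ k S} : z ∈ J Γ k S 0 ↔ z.1 ∈ Jfin Y (MonoidAlgebra k Γ) := by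
  constructor
  · rintro ⟨h, H⟩
    refine ((S.F_empty_fin h).prod (S.F_empty_fin h)).subset fun p hp => ?_
    obtain ⟨g, hg⟩ := exists_cf_ne hp
    have := H g p.1 p.2 hg
    exact ⟨Finset.card_eq_zero.1 (Nat.le_zero.1 this.1), Finset.card_eq_zero.1 (Nat.le_zero.1 this.2)⟩
  · intro hz
    exact (memU_fin hz z.2.1).2

open Classical in
/-- The matrix with the entry `g` at the place `(y', y)`. -/
noncomputable def EK (k : Type) [CommRing k] (g : Γ) (y' y : Y) : RCF Y (MonoidAlgebra k Γ) :=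
  mkK (fun v x => if v = y' ∧ x = y then MonoidAlgebra.single g 1 else 0)
    (fun v => (Set.finite_singleton y).subset fun x hx => by
      by_contra hne
      exact hx (if_neg fun h => hne h.2))
    (fun x => (Set.finite_singleton y').subset fun v hv => by
      by_contra hne
      exact hv (if_neg fun h => hne h.1))

open Classical in
theorem ent_EK (g : Γ) (y' y v x : Y) :
    ent (EK k g y' y) v x = if v = y' ∧ x = y then MonoidAlgebra.single g 1 else 0 := by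
  rw [EK, ent_mkK]

theorem EK_ne {g : Γ} {y' y v x : Y} (h : ent (EK k g y' y) v x ≠ 0) : v = y' ∧ x = y := by
  classical
  rw [ent_EK] at h
  by_contra hc
  exact h (if_neg hc)

theorem EK_fin (g : Γ) (y' y : Y) : EK k g y' y ∈ Jfin Y (MonoidAlgebra k Γ) := by
  refine (Set.finite_singleton (y', y)).subset fun p hp => ?_
  obtain ⟨h1, h2⟩ := EK_ne hp
  exact Prod.ext h1 h2

theorem EK_lab {g : Γ} {y' y : Y} (h : S.lab y' = g • S.lab y) :
    Lab S (EK k g y' y) := by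
  intro r v x hc
  obtain ⟨rfl, rfl⟩ := EK_ne (cf_ne_of_ne hc)
  classical
  rw [cf, ent_EK, if_pos ⟨rfl, rfl⟩, MonoidAlgebra.coeff_single, Finsupp.single_apply] at hc
  have : g = r := by
    by_contra hne
    exact hc (if_neg hne)
  rw [← this, h]

/-- The matrix with the entry `g` at the place `(y', y)`, in `U`. -/
noncomputable def E (S : Sys O Y C) (k : Type) [CommRing k] (g : Γ) (y' y : Y)
    (h : S.lab y' = g • S.lab y) : U Γ k S := ⟨EK k g y' y, (memU_fin (EK_fin g y' y) (EK_lab h)).1⟩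

theorem E_mem_J (g : Γ) (y' y : Y) (h : S.lab y' = g • S.lab y) : E S k g y' y h ∈ J Γ k S 0 :=
  mem_J_zero.2 (EK_fin g y' y)

theorem EK_mul (g g' : Γ) (y'' y' y : Y) :
    EK k g y'' y' * EK k g' y' y = EK k (g * g') y'' y := by
  classical
  refine ent_ext fun v x => ?_
  rw [ent_mul_row _ _ v x {y'} fun w hw => by
    rw [Finset.mem_singleton]; exact (EK_ne hw).2, Finset.sum_singleton, ent_EK, ent_EK, ent_EK]
  by_cases h1 : v = y''
  · by_cases h2 : x = y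
    · rw [if_pos ⟨h1, rfl⟩, if_pos ⟨rfl, h2⟩, if_pos ⟨h1, h2⟩, MonoidAlgebra.single_mul_single,
        one_mul]
    · rw [if_neg (c := y' = y' ∧ x = y) fun h => h2 h.2,
        if_neg (c := v = y'' ∧ x = y) fun h => h2 h.2, mul_zero]
  · rw [if_neg (c := v = y'' ∧ y' = y') fun h => h1 h.1,
      if_neg (c := v = y'' ∧ x = y) fun h => h1 h.1, zero_mul]

/-! ### Rays -/

/-- The relabelling which puts the slot at `o` to `n`. -/
def upd (o : O) (n : ℕ) : O → ℕ → ℕ := fun o' n' => if o' = o then n else n'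

theorem mem_A_upd (S : Sys O Y C) {y : Y} {o : O} (ho : o ∈ S.F 0 y) (n : ℕ) (o' : O) (n' : ℕ) :
    (o', n') ∈ S.A (S.re (upd o n) y) ↔ (o' = o ∧ n' = n) ∨ (o' ≠ o ∧ (o', n') ∈ S.A y) := by
  obtain ⟨m, hm, _⟩ := S.mem_F.1 ho
  rw [S.A_re, Finset.mem_image]
  constructor
  · rintro ⟨⟨a, b⟩, h1, h2⟩
    obtain ⟨rfl, h3⟩ := Prod.ext_iff.1 h2
    change upd o n a b = n' at h3
    unfold upd at h3
    by_cases ha : a = o
    · rw [if_pos ha] at h3
      exact Or.inl ⟨ha, h3.symm⟩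
    · rw [if_neg ha] at h3
      exact Or.inr ⟨ha, h3 ▸ h1⟩
  · rintro (⟨rfl, rfl⟩ | ⟨h1, h2⟩)
    · exact ⟨(o', m), hm, Prod.ext rfl (if_pos rfl)⟩
    · exact ⟨(o', n'), h2, Prod.ext rfl (if_neg h1)⟩

theorem mem_F_upd (S : Sys O Y C) {y : Y} {o : O} (ho : o ∈ S.F 0 y) (n : ℕ) (h : O →₀ ℕ) (o' : O) :
    o' ∈ S.F h (S.re (upd o n) y) ↔ (o' = o ∧ h o ≤ n) ∨ (o' ≠ o ∧ o' ∈ S.F h y) := by
  rw [S.mem_F, S.mem_F]
  constructor
  · rintro ⟨n', h1, h2⟩
    rcases (mem_A_upd S ho n o' n').1 h1 with ⟨rfl, rfl⟩ | ⟨h3, h4⟩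
    · exact Or.inl ⟨rfl, h2⟩
    · exact Or.inr ⟨h3, n', h4, h2⟩
  · rintro (⟨rfl, h1⟩ | ⟨h1, n', h2, h3⟩)
    · exact ⟨n, (mem_A_upd S ho n _ n).2 (Or.inl ⟨rfl, rfl⟩), h1⟩
    · exact ⟨n', (mem_A_upd S ho n o' n').2 (Or.inr ⟨h1, h2⟩), h3⟩

theorem upd_injective (S : Sys O Y C) {y : Y} {o : O} (ho : o ∈ S.F 0 y) :
    Function.Injective fun n => S.re (upd o n) y := by
  intro n m hnm
  have h1 : (o, n) ∈ S.A (S.re (upd o n) y) := (mem_A_upd S ho n o n).2 (Or.inl ⟨rfl, rfl⟩)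
  have h2 : S.re (upd o n) y = S.re (upd o m) y := hnm
  rw [h2] at h1
  rcases (mem_A_upd S ho m o n).1 h1 with h | h
  · exact h.2
  · exact absurd rfl h.1

/-- Rays. -/
def Ry (S : Sys O Y C) (ρ : ℕ ↪ Y) : Prop :=
  ∃ (y : Y) (o : O) (m : ℕ), o ∈ S.F 0 y ∧ ∀ n, ρ n = S.re (upd o (n + m)) y

/-- The ray through `y` in the direction `o`. -/
def Sys.ray (S : Sys O Y C) (y : Y) (o : O) (ho : o ∈ S.F 0 y) : ℕ ↪ Y :=
  ⟨fun n => S.re (upd o n) y, upd_injective S ho⟩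

theorem Sys.ray_ry (S : Sys O Y C) (y : Y) (o : O) (ho : o ∈ S.F 0 y) : Ry S (S.ray y o ho) :=
  ⟨y, o, 0, ho, fun _ => rfl⟩

theorem Ry.lab_eq {ρ : ℕ ↪ Y} (hρ : Ry S ρ) (n m : ℕ) : S.lab (ρ n) = S.lab (ρ m) := by
  obtain ⟨y, o, r, _, h⟩ := hρ
  rw [h, h, S.lab_re, S.lab_re]

theorem Ry.up {ρ : ℕ ↪ Y} (hρ : Ry S ρ) (h : O →₀ ℕ) (n : ℕ) :
    S.F h (ρ n) ⊆ S.F h (ρ (n + 1)) := by
  obtain ⟨y, o, r, ho, hr⟩ := hρ
  intro o' ho'
  rw [hr, mem_F_upd S ho] at ho' ⊢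
  rcases ho' with ⟨h1, h2⟩ | h1
  · exact Or.inl ⟨h1, by omega⟩
  · exact Or.inr h1

theorem Ry.down {ρ : ℕ ↪ Y} (hρ : Ry S ρ) (h' : O →₀ ℕ) : ∃ h : O →₀ ℕ, h' ≤ h ∧
    ∀ n, S.F h (ρ (n + 1)) ⊆ S.F h' (ρ n) := by
  obtain ⟨y, o, r, ho, hr⟩ := hρ
  refine ⟨h' + Finsupp.single o 1, le_self_add, fun n o' ho' => ?_⟩
  rw [hr, mem_F_upd S ho] at ho' ⊢
  rcases ho' with ⟨h1, h2⟩ | ⟨h1, h2⟩
  · rw [Finsupp.add_apply, Finsupp.single_eq_same] at h2
    exact Or.inl ⟨h1, by omega⟩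
  · exact Or.inr ⟨h1, S.F_anti le_self_add y h2⟩

theorem Ry.one {ρ : ℕ ↪ Y} (hρ : Ry S ρ) : ∃ h : O →₀ ℕ, ∀ n, (S.F h (ρ n)).card ≤ 1 := by
  obtain ⟨y, o, r, ho, hr⟩ := hρ
  obtain ⟨h, hh⟩ := exists_height_fin S (Set.finite_singleton y)
  refine ⟨h, fun n => ?_⟩
  rw [hr, ← Finset.card_singleton o]
  refine Finset.card_le_card fun o' ho' => ?_
  rcases (mem_F_upd S ho _ h o').1 ho' with ⟨h1, _⟩ | ⟨_, h1⟩
  · exact Finset.mem_singleton.2 h1
  · rw [hh y rfl] at h1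
    exact absurd h1 (Finset.notMem_empty _)

theorem ent_shE {A : Type} [Ring A] (ρ : ℕ ↪ Y) (e : SignType) (y' y : Y) :
    (ent (shE A ρ e) y' y = 0 ∨ (ent (shE A ρ e) y' y = 1 ∧
      ((∃ n, y = ρ n ∧ y' = ρ (n + 1)) ∨ (∃ n, y' = ρ n ∧ y = ρ (n + 1)) ∨ y' = y))) ∧
    ((∀ n, y ≠ ρ n) ∨ (∀ n, y' ≠ ρ n) → ent (shE A ρ e) y' y = ent (1 : RCF Y A) y' y) := by
  classical
  have h1 : ∀ y' y, ent (shR A ρ) y' y = if (∃ n, y = ρ n ∧ y' = ρ (n + 1)) ∨
      (y ∉ Set.range ρ ∧ y' = y) then 1 else 0 := fun y' y => by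
    rw [shR, ent_mkK]
  have h2 : ∀ y' y, ent (shL A ρ) y' y = if (∃ n, y' = ρ n ∧ y = ρ (n + 1)) ∨
      (y' ∉ Set.range ρ ∧ y = y') then 1 else 0 := fun y' y => by
    rw [shL, ent_mkK]
  cases e with
  | zero =>
    refine ⟨?_, fun _ => rfl⟩
    change ent (1 : RCF Y A) y' y = 0 ∨ _
    by_cases h : y' = y
    · exact Or.inr ⟨by change ent (1 : RCF Y A) y' y = 1; rw [ent_one, if_pos h], Or.inr (Or.inr h)⟩
    · exact Or.inl (by rw [ent_one, if_neg h])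
  | pos =>
    change (ent (shR A ρ) y' y = 0 ∨ (ent (shR A ρ) y' y = 1 ∧ _)) ∧
      (_ → ent (shR A ρ) y' y = _)
    rw [h1, ent_one]
    refine ⟨?_, fun h => ?_⟩
    · by_cases hc : (∃ n, y = ρ n ∧ y' = ρ (n + 1)) ∨ (y ∉ Set.range ρ ∧ y' = y)
      · refine Or.inr ⟨if_pos hc, ?_⟩
        rcases hc with hc | hc
        · exact Or.inl hc
        · exact Or.inr (Or.inr hc.2)
      · exact Or.inl (if_neg hc)
    · by_cases he : y' = y
      · have hr : y ∉ Set.range ρ := by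
          rintro ⟨n, hn⟩
          rcases h with h | h
          · exact h n hn.symm
          · exact h n (he.trans hn.symm)
        rw [if_pos (Or.inr ⟨hr, he⟩), if_pos he]
      · rw [if_neg, if_neg he]
        rintro (⟨n, h3, h4⟩ | h3)
        · rcases h with h | h
          · exact h n h3
          · exact h (n + 1) h4
        · exact he h3.2
  | neg =>
    change (ent (shL A ρ) y' y = 0 ∨ (ent (shL A ρ) y' y = 1 ∧ _)) ∧
      (_ → ent (shL A ρ) y' y = _)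
    rw [h2, ent_one]
    refine ⟨?_, fun h => ?_⟩
    · by_cases hc : (∃ n, y' = ρ n ∧ y = ρ (n + 1)) ∨ (y' ∉ Set.range ρ ∧ y = y')
      · refine Or.inr ⟨if_pos hc, ?_⟩
        rcases hc with hc | hc
        · exact Or.inr (Or.inl hc)
        · exact Or.inr (Or.inr hc.2.symm)
      · exact Or.inl (if_neg hc)
    · by_cases he : y' = y
      · have hr : y' ∉ Set.range ρ := by
          rintro ⟨n, hn⟩
          rcases h with h | h
          · exact h n (he.symm.trans hn.symm)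
          · exact h n hn.symm
        rw [if_pos (Or.inr ⟨hr, he.symm⟩), if_pos he]
      · rw [if_neg, if_neg he]
        rintro (⟨n, h3, h4⟩ | h3)
        · rcases h with h | h
          · exact h (n + 1) h4
          · exact h n h3
        · exact he h3.2.symm

theorem shE_mem {ρ : ℕ ↪ Y} (hρ : Ry S ρ) (e : SignType) :
    shE (MonoidAlgebra k Γ) ρ e ∈ U Γ k S := by
  refine memU_of (fun y' y => (∃ n, y = ρ n ∧ y' = ρ (n + 1)) ∨ (∃ n, y' = ρ n ∧ y = ρ (n + 1)) ∨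
    y' = y) (fun y' y => (ent_shE ρ e y' y).1) ?_ ?_ ?_
  · rintro y' y (⟨n, rfl, rfl⟩ | ⟨n, rfl, rfl⟩ | rfl)
    · exact hρ.lab_eq _ _
    · exact hρ.lab_eq _ _
    · rfl
  · intro h'
    obtain ⟨h, h1, H⟩ := hρ.down h'
    refine ⟨h, ?_⟩
    rintro y' y (⟨n, rfl, rfl⟩ | ⟨n, rfl, rfl⟩ | rfl)
    · exact (hρ.up h n).trans (S.F_anti h1 _)
    · exact H n
    · exact S.F_anti h1 _
  · intro h'
    obtain ⟨h, h1, H⟩ := hρ.down h'
    refine ⟨h, ?_⟩
    rintro y' y (⟨n, rfl, rfl⟩ | ⟨n, rfl, rfl⟩ | rfl)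
    · exact H n
    · exact (hρ.up h n).trans (S.F_anti h1 _)
    · exact S.F_anti h1 _

/-- The isometry of a ray, `1`, or the adjoint (`e = 1, 0, -1`), in `U`. -/
noncomputable def shU (Γ k : Type) [Group Γ] [MulAction Γ O] [MulAction Γ C] [CommRing k]
    {S : Sys O Y C} {ρ : ℕ ↪ Y} (hρ : Ry S ρ) (e : SignType) : U Γ k S :=
  ⟨shE (MonoidAlgebra k Γ) ρ e, shE_mem hρ e⟩

theorem shU_sub_one {ρ : ℕ ↪ Y} (hρ : Ry S ρ) (e : SignType) :
    shU Γ k hρ e - 1 ∈ J Γ k S 1 := by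
  obtain ⟨h, H⟩ := hρ.one
  refine ⟨h, fun g y' y hc => ?_⟩
  have h1 := cf_ne_of_ne hc
  change ent (shE (MonoidAlgebra k Γ) ρ e - 1) y' y ≠ 0 at h1
  rw [ent_sub] at h1
  by_cases h2 : (∀ n, y ≠ ρ n) ∨ ∀ n, y' ≠ ρ n
  · rw [(ent_shE ρ e y' y).2 h2, sub_self] at h1
    exact absurd rfl h1
  · push Not at h2
    obtain ⟨⟨n, rfl⟩, m, rfl⟩ := h2
    exact ⟨H m, H n⟩

theorem Ry.der {f : ℕ} {h : O →₀ ℕ} {ρ : ℕ ↪ {y : Y // (S.F h y).card = f}}
    (hρ : Ry (S.der f h) ρ) : Ry S (ρ.trans (Function.Embedding.subtype _)) := by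
  obtain ⟨y, o, m, ho, hr⟩ := hρ
  rw [F_der_zero] at ho
  obtain ⟨n0, h0, h1⟩ := S.mem_F.1 ho
  refine ⟨y.1, o, m + h o, S.F_anti (fun _ => Nat.zero_le _) _ ho, fun n => ?_⟩
  change (ρ n).1 = _
  rw [hr]
  refine S.re_congr _ _ _ fun s hs => ?_
  change (if s.2 < h s.1 then s.2 else h s.1 + upd o (n + m) s.1 (s.2 - h s.1)) =
    upd o (n + (m + h o)) s.1 s.2
  unfold upd
  by_cases hso : s.1 = o
  · have : s = (o, n0) := S.inj y.1 s hs (o, n0) h0 hso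
    rw [if_pos hso, if_pos hso, if_neg (by rw [this]; exact not_lt.2 h1), hso]
    omega
  · rw [if_neg hso, if_neg hso]
    split_ifs <;> omega

end Pool.Agent.CC
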