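import Pool.Agent.Lib.MP_8f66f0_al_CC.Sys.RingK0
import Pool.Agent.Lib.MP_8f66f0_al_CC.Sys.Rays
import Pool.Agent.Lib.MP_8f66f0_al_CC.Sys.Flas
import Pool.Agent.Lib.MP_8f66f0_al_CC.Sys.Ladder
import Pool.Agent.Lib.MP_8f66f0_al_CC.End.Spec

/-!
# Theorem CC: section 3, assembly

`lft_all`: for exact systems of size `f`, and for all coefficient rings of a tower, invertible matrices
modulo `J (f - 1)` lift (for `f = 1`: after adding shifts along rays), and `K_0 (U / J (f - 1)) = 0`.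
-/

set_option autoImplicit false

namespace Pool.Agent.CC

open Pool.Agent.Wald Pool.Agent.TQ Matrix
open scoped Pointwise

/-- The data of `kq_of_psi` for the coefficient rings `k`, `k''`. -/
def PsiD {O Y C : Type} [DecidableEq O] (Γ k k'' : Type) [Group Γ] [MulAction Γ O]
    [MulAction Γ C] [CommRing k] [CommRing k''] (S : Sys O Y C) (f : ℕ) : Prop :=
  ∃ (j : U Γ k S →+* U Γ k'' S) (y yi : U Γ k'' S)
    (Ψ : U Γ k'' S →+* LaurentSeries (U Γ k S ⧸ J Γ k S f)),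
    (∀ x ∈ J Γ k S f, j x ∈ J Γ k'' S f) ∧ (∀ x, y * j x = j x * y) ∧ y * yi = 1 ∧ yi * y = 1 ∧
    (∀ x ∈ J Γ k'' S f, Ψ x = 0) ∧
    (∀ x, Ψ (j x) = HahnSeries.C (Ideal.Quotient.mk (J Γ k S f) x)) ∧
    Ψ y = HahnSeries.single 1 1 ∧
    ∀ (ρ : ℕ ↪ Y) (hρ : Ry S ρ) (e : SignType), j (shU Γ k hρ e) = shU Γ k'' hρ e

/-- The finite step for `f ≥ 2`. -/
def S_AB : Prop :=
  ∀ (O Y C Γ k : Type) [DecidableEq O] [Group Γ] [MulAction Γ O] [MulAction Γ C] [CommRing k]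
    [IsDomain k] (S : Sys O Y C) (f : ℕ), S.Exact Γ f → 2 ≤ f → SF Γ k S →
    KZ (J Γ k S 0) ⊥ (J Γ k S 1)

/-- Lifting for `f = 1`. -/
def S_L1 : Prop :=
  ∀ (O Y C Γ k : Type) [DecidableEq O] [Group Γ] [MulAction Γ O] [MulAction Γ C] [CommRing k]
    [IsDomain k] (S : Sys O Y C), S.Exact Γ 1 → SF Γ k S → Lft1 Γ k S

section Rays

variable {O Y C : Type} [DecidableEq O]

theorem ry_of_isRay {S : Sys O Y C} {ρ : ℕ ↪ Y} (h : IsRay S ρ) : Ry S ρ := by
  obtain ⟨o, ho, h⟩ := h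
  obtain ⟨m, hm, -⟩ := S.mem_F.1 ho
  refine ⟨ρ 0, o, m, ho, fun n => ?_⟩
  induction n with
  | zero =>
    rw [zero_add]
    have h1 := S.re_congr (upd o m) (fun _ n => n) (ρ 0) fun s hs => by
      unfold upd
      split_ifs with hso
      · exact congrArg Prod.snd (S.inj _ _ hm _ hs hso.symm)
      · rfl
    rw [h1, S.re_id]
  | succ n ih =>
    rw [h, ih, S.re_re]
    refine congrFun (congrArg S.re ?_) _
    funext o' n'
    unfold upd
    by_cases ho' : o' = o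
    · simp only [if_pos ho']
      omega
    · simp only [if_neg ho']

theorem shift_inv (hs : S_sh) (A : Type) [Ring A] (ρ : ℕ ↪ Y) (e : SignType) :
    shE A ρ e * shE A ρ (-e) - 1 ∈ Jfin Y A := by
  classical
  obtain ⟨h1, h2, h3⟩ := hs Y A ρ
  have h4 : shR A ρ * shL A ρ - 1 ∈ Jfin Y A := by
    rw [mem_Jfin]
    refine (Set.finite_singleton (ρ 0, ρ 0)).subset fun p hp => ?_
    obtain ⟨y, x⟩ := p
    rw [Set.mem_ofPred_eq, ent_sub, ent_one] at hp
    rw [Set.mem_singleton_iff]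
    by_cases hyx : y = x
    · subst hyx
      by_cases hy : y = ρ 0
      · rw [hy]
      · rw [h3 y hy, if_pos rfl, sub_self] at hp
        exact absurd rfl hp
    · rw [if_neg hyx, sub_zero] at hp
      exact absurd (h2 y x hp).1 hyx
  cases e with
  | zero =>
    change (1 : RCF Y A) * 1 - 1 ∈ _
    rw [mul_one, sub_self]
    exact (Jfin Y A).zero_mem
  | pos => exact h4
  | neg =>
    change shL A ρ * shR A ρ - 1 ∈ _
    rw [h1, sub_self]
    exact (Jfin Y A).zero_mem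

/-- The sign of an optional shift. -/
def sgO (r : Option (Bool × (ℕ ↪ Y))) : SignType :=
  match r with
  | none => SignType.zero
  | some (true, _) => SignType.pos
  | some (false, _) => SignType.neg

end Rays

section Diag

variable {O Y C Γ k : Type} [DecidableEq O] [Group Γ] [MulAction Γ O] [MulAction Γ C] [CommRing k]

open Classical in
/-- The shifts in `U`. -/
noncomputable def shOU (S : Sys O Y C) (s : SignType → SignType) (r : Option (Bool × (ℕ ↪ Y))) :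
    U Γ k S :=
  match r with
  | none => 1
  | some (b, ρ) => if h : Ry S ρ then shU Γ k h (s (if b then 1 else -1)) else 1

theorem shOU_val {S : Sys O Y C} {r : Option (Bool × (ℕ ↪ Y))}
    (hr : ∀ b ρ, r = some (b, ρ) → IsRay S ρ) :
    (shOU (Γ := Γ) (k := k) S id r).1 = shO (MonoidAlgebra k Γ) r := by
  classical
  rcases r with _ | ⟨b, ρ⟩
  · rfl
  · have h := ry_of_isRay (hr b ρ rfl)
    change (if h : Ry S ρ then shU Γ k h (id (if b then 1 else -1)) else 1 : U Γ k S).1 = _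
    rw [dif_pos h]
    cases b <;> rfl

theorem shOU_mul (hs : S_sh) (S : Sys O Y C) (r : Option (Bool × (ℕ ↪ Y))) :
    shOU (Γ := Γ) (k := k) S id r * shOU S (fun e => -e) r - 1 ∈ J Γ k S 0 ∧
    shOU (Γ := Γ) (k := k) S (fun e => -e) r * shOU S id r - 1 ∈ J Γ k S 0 := by
  classical
  rcases r with _ | ⟨b, ρ⟩
  · change (1 : U Γ k S) * 1 - 1 ∈ _ ∧ (1 : U Γ k S) * 1 - 1 ∈ _
    rw [mul_one, sub_self]
    exact ⟨(J Γ k S 0).zero_mem, (J Γ k S 0).zero_mem⟩
  · change (if h : Ry S ρ then shU Γ k h (id (if b then 1 else -1)) else 1 : U Γ k S) *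
      (if h : Ry S ρ then shU Γ k h (-(if b then 1 else -1)) else 1 : U Γ k S) - 1 ∈ _ ∧
      (if h : Ry S ρ then shU Γ k h (-(if b then 1 else -1)) else 1 : U Γ k S) *
      (if h : Ry S ρ then shU Γ k h (id (if b then 1 else -1)) else 1 : U Γ k S) - 1 ∈ _
    by_cases h : Ry S ρ
    · rw [dif_pos h, dif_pos h]
      have h1 := fun e => shift_inv hs (MonoidAlgebra k Γ) ρ e
      refine ⟨mem_J_zero.2 (h1 _), mem_J_zero.2 ?_⟩
      have h2 := h1 (-(if b then 1 else -1))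
      rw [neg_neg] at h2
      exact h2
    · rw [dif_neg h, dif_neg h, mul_one, sub_self]
      exact ⟨(J Γ k S 0).zero_mem, (J Γ k S 0).zero_mem⟩

end Diag

theorem map_one' {R T : Type} [Ring R] [Ring T] (j : R →+* T) {m : Type} [DecidableEq m] :
    (1 : Matrix m m R).map j = 1 := Matrix.map_one _ (map_zero j) (map_one j)

section Data

variable {O Y C Γ k k'' : Type} [DecidableEq O] [Group Γ] [MulAction Γ O] [MulAction Γ C]
  [CommRing k] [CommRing k''] (S : Sys O Y C)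

theorem shOU_map (j : U Γ k S →+* U Γ k'' S)
    (hj : ∀ (ρ : ℕ ↪ Y) (hρ : Ry S ρ) (e : SignType), j (shU Γ k hρ e) = shU Γ k'' hρ e)
    (ri : Option (Bool × (ℕ ↪ Y))) (hri : ∀ b ρ, ri = some (b, ρ) → IsRay S ρ) :
    j (shOU (Γ := Γ) (k := k) S id ri) = shOU (Γ := Γ) (k := k'') S id ri := by
  classical
  rcases ri with _ | ⟨b, ρ⟩
  · exact map_one j
  · have h := ry_of_isRay (hri b ρ rfl)
    change j (if h : Ry S ρ then shU Γ k h (id (if b then 1 else -1)) else 1 : U Γ k S) =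
      (if h : Ry S ρ then shU Γ k'' h (id (if b then 1 else -1)) else 1 : U Γ k'' S)
    rw [dif_pos h, dif_pos h, hj]

theorem diag_cg {X : Type} [Ring X] (I : Ideal X) {m : Type} [Fintype m] [DecidableEq m]
    (c c' : m → X) (h : ∀ i, c i * c' i - 1 ∈ I) : Cg I (diagonal c * diagonal c') 1 := by
  rw [diagonal_mul_diagonal]
  intro i l
  by_cases hil : i = l
  · subst hil
    rw [diagonal_apply_eq, one_apply_eq]
    exact h i
  · rw [diagonal_apply_ne _ hil, one_apply_ne hil, sub_zero]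
    exact I.zero_mem

theorem rcf_diag (j : U Γ k S →+* U Γ k'' S)
    (hj : ∀ (ρ : ℕ ↪ Y) (hρ : Ry S ρ) (e : SignType), j (shU Γ k hρ e) = shU Γ k'' hρ e)
    {m : Type} [DecidableEq m] (r : m → Option (Bool × (ℕ ↪ Y))) (hr : Rys S r) :
    rcf ((diagonal fun l => shOU (Γ := Γ) (k := k) S id (r l)).map j) =
      dgO (MonoidAlgebra k'' Γ) r := by
  ext1 i l
  change (j (diagonal (fun l => shOU (Γ := Γ) (k := k) S id (r l)) i l)).1 =
    diagonal (fun l => shO (MonoidAlgebra k'' Γ) (r l)) i l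
  by_cases hil : i = l
  · subst hil
    rw [diagonal_apply_eq, diagonal_apply_eq, ← shOU_val (hr i), shOU_map S j hj _ (hr i)]
  · rw [diagonal_apply_ne _ hil, diagonal_apply_ne _ hil, map_zero]
    rfl

theorem lft1_data (hs : S_sh) (j : U Γ k S →+* U Γ k'' S)
    (hj : ∀ (ρ : ℕ ↪ Y) (hρ : Ry S ρ) (e : SignType), j (shU Γ k hρ e) = shU Γ k'' hρ e)
    (hl : Lft1 Γ k'' S) (n : Type) [Fintype n] [DecidableEq n] (z w : Matrix n n (U Γ k'' S))
    (hz : Cg (J Γ k'' S 0) (z * w) 1) (hw : Cg (J Γ k'' S 0) (w * z) 1) :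
    ∃ (m : Type) (_ : Fintype m) (_ : DecidableEq m)
      (c c' : Matrix m m (U Γ k S)) (r : Matrix (n ⊕ m) (n ⊕ m) (U Γ k'' S)),
      Cg (J Γ k S 0) (c * c') 1 ∧ Cg (J Γ k S 0) (c' * c) 1 ∧ IsUnit r ∧
      Cg (J Γ k'' S 0) r (fromBlocks z 0 0 (c.map j)) := by
  obtain ⟨m, i1, i2, r, u, h1, h2, h3⟩ := hl n z w hz hw
  refine ⟨m, i1, i2, diagonal fun l => shOU S id (r l), diagonal fun l => shOU S (fun e => -e) (r l),
    u, diag_cg _ _ _ fun i => (shOU_mul hs S (r i)).1,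
    diag_cg _ _ _ fun i => (shOU_mul hs S (r i)).2, h1, ?_⟩
  have e1 := rcf_diag S j hj r h2
  intro a b
  rw [mem_J_zero]
  have h4 := h3 a b
  rw [← e1] at h4
  rcases a with a | a <;> rcases b with b | b <;> exact h4

theorem lft_data (j : U Γ k S →+* U Γ k'' S) (f : ℕ)
    (hl : Lft Γ k'' S f) (n : Type) [Fintype n] [DecidableEq n] (z w : Matrix n n (U Γ k'' S))
    (hz : Cg (J Γ k'' S f) (z * w) 1) (hw : Cg (J Γ k'' S f) (w * z) 1) :
    ∃ (m : Type) (_ : Fintype m) (_ : DecidableEq m)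
      (c c' : Matrix m m (U Γ k S)) (r : Matrix (n ⊕ m) (n ⊕ m) (U Γ k'' S)),
      Cg (J Γ k S f) (c * c') 1 ∧ Cg (J Γ k S f) (c' * c) 1 ∧ IsUnit r ∧
      Cg (J Γ k'' S f) r (fromBlocks z 0 0 (c.map j)) := by
  obtain ⟨m, i1, i2, u, h1, h2⟩ := hl n z w hz hw
  have e2 : Cg (J Γ k S f) ((1 : Matrix m m (U Γ k S)) * 1) 1 := by
    rw [mul_one]
    exact MC.refl _
  refine ⟨m, i1, i2, 1, 1, u, e2, e2, h1, ?_⟩
  rw [map_one']
  exact h2

theorem kq_data (hs : S_sh) {f : ℕ} (hE : S.Exact Γ f) (hf : 1 ≤ f) (hΨ : PsiD Γ k k'' S (f - 1))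
    (hl : (f = 1 → Lft1 Γ k'' S) ∧ (2 ≤ f → Lft Γ k'' S (f - 1))) : KQ (J Γ k S (f - 1)) := by
  obtain ⟨j, y, yi, Ψ, a1, a2, a3, a4, a5, a6, a7, a8⟩ := hΨ
  obtain ⟨c, c', d, d', Λ, b1, b2, b3, b4, b5, -⟩ : Flas (U Γ k S) := flas S hE hf
  refine kq_of_psi _ _ j Ψ a1 y yi a2 a3 a4 a5 a6 a7 (flq_of_flas (flas S hE hf)) ?_
    ⟨c, d, c', d', b1, b2, b3, b4, b5⟩
  by_cases hf1 : f = 1
  · subst hf1
    exact fun n _ _ z w hz hw => lft1_data S hs j a8 (hl.1 rfl) n z w hz hw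
  · exact fun n _ _ z w hz hw => lft_data S j (f - 1) (hl.2 (by omega)) n z w hz hw

end Data

/-- **Lifting and `K_0 = 0`** for exact systems. -/
theorem lft_all (hs : S_sh) (hAB : S_AB) (hL1 : S_L1) {O Γ : Type} [DecidableEq O] [Group Γ]
    [MulAction Γ O] (Tw : ∀ (k : Type) [CommRing k], Prop)
    (hTw : ∀ (k : Type) [CommRing k], Tw k → ∃ (k'' : Type) (_ : CommRing k''), Tw k'' ∧
      ∀ (Y C : Type) [MulAction Γ C] (S : Sys O Y C) (f : ℕ), PsiD Γ k k'' S f)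
    (hdom : ∀ (k : Type) [CommRing k], Tw k → IsDomain k) :
    ∀ f, 1 ≤ f → ∀ (Y C : Type) [MulAction Γ C] (S : Sys O Y C), S.Exact Γ f →
      (∀ (k : Type) [CommRing k], Tw k → SF Γ k S) → ∀ (k : Type) [CommRing k], Tw k →
      (f = 1 → Lft1 Γ k S) ∧ (2 ≤ f → Lft Γ k S (f - 1)) ∧ KQ (J Γ k S (f - 1)) := by
  intro f
  induction f using Nat.strong_induction_on with
  | _ f ih =>
  intro hf Y C _ S hE hSF
  -- lifting
  have hlift : ∀ (k : Type) [CommRing k], Tw k → (f = 1 → Lft1 Γ k S) ∧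
      (2 ≤ f → Lft Γ k S (f - 1)) := by
    intro k _ hk
    have := hdom k hk
    refine ⟨?_, fun hf2 => ?_⟩
    · rintro rfl
      exact hL1 O Y C Γ k S hE (hSF k hk)
    · have hKZ : ∀ j, j ≤ f - 1 → KZ (J Γ k S j) ⊥ (J Γ k S (f - 1)) := by
        intro j
        induction j with
        | zero =>
          intro _
          exact (hAB O Y C Γ k S f hE hf2 (hSF k hk)).mono (J_mono S (by omega))
        | succ j ihj =>
          intro hj
          have h1 : KZ (J Γ k S (j + 1)) (J Γ k S j) (J Γ k S (j + 1)) :=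
            kz_of_lad (lad_der S j) fun h => (ih (j + 1) (by omega) (by omega) _ _ (S.der (j + 1) h)
              (der_exact S (j + 1) h Γ) (fun k' _ hk' => der_SF S (j + 1) h (hSF k' hk')) k hk).2.2
          exact kz_trans (h1.mono (J_mono S hj)) (ihj (by omega))
      intro n _ _ z z' hz hz'
      obtain ⟨m, i1, i2, u, u', h1, h2, h3⟩ := lift_of_kz (hKZ (f - 1) le_rfl) z z' hz hz'
      exact ⟨m, i1, i2, u, ⟨⟨u, u', h1, h2⟩, rfl⟩, h3⟩
  intro k _ hk
  obtain ⟨k'', _, hk'', hΨ⟩ := hTw k hk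
  exact ⟨(hlift k hk).1, (hlift k hk).2, kq_data S hs hE hf (hΨ Y C S (f - 1)) (hlift k'' hk'')⟩

/-- The lifting hypotheses for the derived systems. -/
theorem lftD_of (hs : S_sh) (hAB : S_AB) (hL1 : S_L1) {O Γ : Type} [DecidableEq O] [Group Γ]
    [MulAction Γ O] (Tw : ∀ (k : Type) [CommRing k], Prop)
    (hTw : ∀ (k : Type) [CommRing k], Tw k → ∃ (k'' : Type) (_ : CommRing k''), Tw k'' ∧
      ∀ (Y C : Type) [MulAction Γ C] (S : Sys O Y C) (f : ℕ), PsiD Γ k k'' S f)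
    (hdom : ∀ (k : Type) [CommRing k], Tw k → IsDomain k) (Y C : Type) [MulAction Γ C]
    (S : Sys O Y C) (hSF : ∀ (k : Type) [CommRing k], Tw k → SF Γ k S) (k : Type) [CommRing k]
    (hk : Tw k) : LftD Γ k S := by
  refine ⟨fun h => (lft_all hs hAB hL1 Tw hTw hdom 1 le_rfl _ _ (S.der 1 h) (der_exact S 1 h Γ)
    (fun k' _ hk' => der_SF S 1 h (hSF k' hk')) k hk).1 rfl, fun f h hf => ?_⟩
  exact (lft_all hs hAB hL1 Tw hTw hdom f (by omega) _ _ (S.der f h) (der_exact S f h Γ)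
    (fun k' _ hk' => der_SF S f h (hSF k' hk')) k hk).2.1 hf

end Pool.Agent.CC
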