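import Pool.Agent.Lib.MP_8f66f0_al_CC.Sys.L1

/-!
# Lifting for exact systems of size 1: the theorem
-/

set_option autoImplicit false
set_option linter.unusedSectionVars false

namespace Pool.Agent.CC

open Matrix Pool.Agent.TQ Pool.Agent.FH Pool.Agent.Wald
open scoped Pointwise

/-- The first half of the proof: `z` lifts after adding shifts. -/
theorem ll_of {O Y C Γ k : Type} [DecidableEq O] [Group Γ] [MulAction Γ O] [MulAction Γ C]
    [CommRing k] [IsDomain k] {S : Sys O Y C} (hE : S.Exact Γ 1) (hS : SF Γ k S) {n : Type}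
    [Fintype n] [DecidableEq n] (z z' : Matrix n n (U Γ k S))
    (h1 : MC (J Γ k S 0) (z * z') 1) (h2 : MC (J Γ k S 0) (z' * z) 1) :
    LL (J Γ k S 0) (Dsh Γ k S) z := by
  obtain ⟨w, w', a1, a2, a3, a4⟩ := lift_diag z z' h1 h2
  let P : n ⊕ n → Prop := Sum.elim (fun _ => True) fun _ => False
  have hp : (pj P : Matrix (n ⊕ n) (n ⊕ n) (U Γ k S)) = fromBlocks 1 0 0 0 := by
    rw [pj_sum, pj_true, pj_false]
  have hpp := pj_idem (X := U Γ k S) P
  have he : w * pj P * w' * (w * pj P * w') = w * pj P * w' := by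
    calc _ = w * (pj P * (w' * w) * pj P) * w' := by noncomm_ring
      _ = _ := by rw [a2, mul_one, hpp]
  have heP : MC (J Γ k S 0) (w * pj P * w') (pj P) := by
    refine ((a3.mul_right _).mul a4).trans ?_
    rw [hp, fromBlocks_multiply, fromBlocks_multiply]
    simp only [Matrix.mul_zero, Matrix.zero_mul, add_zero, mul_one]
    exact MC.fromBlocks h1 (MC.refl _) (MC.refl _) (MC.refl _)
  obtain ⟨m, _, _, R, v, s, Xs, b1, b2, b3, b4⟩ := fs hE le_rfl hS P (w * pj P * w') he heP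
  let Q : (n ⊕ n) ⊕ m → Prop := Sum.elim P R
  let w₁ : Matrix ((n ⊕ n) ⊕ m) ((n ⊕ n) ⊕ m) (U Γ k S) := fromBlocks w 0 0 1
  let w₁' : Matrix ((n ⊕ n) ⊕ m) ((n ⊕ n) ⊕ m) (U Γ k S) := fromBlocks w' 0 0 1
  have cw : w₁ * w₁' = 1 := fb_one a1
  have cw' : w₁' * w₁ = 1 := fb_one a2
  have y1 : (v * w₁) * (w₁' * v) = 1 := by
    calc _ = v * (w₁ * w₁') * v := by noncomm_ring
      _ = 1 := by rw [cw, mul_one, b1]
  have y2 : (w₁' * v) * (v * w₁) = 1 := by
    calc _ = w₁' * (v * v) * w₁ := by noncomm_ring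
      _ = 1 := by rw [b1, mul_one, cw']
  have hfin : ∀ p, (dsc Q Xs p).Finite := fun p =>
    s.finite_toSet.subset fun x hx => by
      by_contra hn
      exact hx (b3 p x hn)
  have hD : (v * w₁) * pj Q * (w₁' * v) = diagonal fun p => prU Γ k S (Xs p) := by
    have e4 : fromBlocks (w * pj P * w') 0 0 (pj R) = w₁ * pj Q * w₁' := by
      simp only [Q, w₁, w₁']
      rw [pj_sum P R, fromBlocks_multiply, fromBlocks_multiply]
      simp
    have e5 : (v * w₁) * pj Q * (w₁' * v) = v * fromBlocks (w * pj P * w') 0 0 (pj R) * v := by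
      rw [e4]
      noncomm_ring
    rw [e5]
    classical
    refine Matrix.ext fun p q => Subtype.ext (ent_ext fun y' y => ?_)
    by_cases hpq : p = q
    · subst hpq
      rw [diagonal_apply_eq]
      change _ = ent (prK (MonoidAlgebra k Γ) (Xs p)) y' y
      rw [ent_prK]
      by_cases hc : y' = y ∧ y ∈ Xs p
      · rw [(b4 p p y' y).1 ⟨rfl, hc.1, hc.2⟩, if_pos hc]
      · rw [(b4 p p y' y).2 fun h => hc ⟨h.2.1, h.2.2⟩, if_neg hc]
    · rw [diagonal_apply_ne _ hpq, (b4 p q y' y).2 fun h => hpq h.1]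
      rfl
  have hll := ll_ind hE _ ((n ⊕ n) ⊕ m) Q Xs (v * w₁) (w₁' * v) y1 y2 hfin rfl hD
  have u3 : MC (J Γ k S 0) (pj Q * (v * w₁) + (1 - pj Q))
      (fromBlocks (fromBlocks z 0 0 1) 0 0 1) := by
    have h3 : MC (J Γ k S 0) (v * w₁) (fromBlocks (fromBlocks z 0 0 z') 0 0 1) := by
      have h4 : MC (J Γ k S 0) w₁ (fromBlocks (fromBlocks z 0 0 z') 0 0 1) :=
        MC.fromBlocks a3 (MC.refl _) (MC.refl _) (MC.refl _)
      have h5 := MC.mul (J := J Γ k S 0) b2 h4
      rwa [one_mul] at h5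
    have h6 := (h3.mul_left (pj Q)).add (MC.refl (J := J Γ k S 0) (1 - pj Q))
    refine h6.trans (MC.of_eq ?_)
    have e1 : (pj P : Matrix (n ⊕ n) (n ⊕ n) (U Γ k S)) * fromBlocks z 0 0 z' + (1 - pj P) =
        fromBlocks z 0 0 1 := by
      rw [hp, fromBlocks_multiply, ← fromBlocks_one, fb_sub, fromBlocks_add]
      simp
    simp only [Q]
    rw [pj_sum P R, fromBlocks_multiply, ← fromBlocks_one (l := n ⊕ n) (m := m), fb_sub,
      fromBlocks_add]
    simp only [Matrix.mul_zero, Matrix.zero_mul, add_zero, zero_add, sub_zero, mul_one, e1]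
    simp
  exact LL.of_sum one_Dsh (LL.of_sum one_Dsh (hll.congr u3))

/-- Lifting for `f = 1`. -/
theorem l1 : S_L1 := by
  intro O Y C Γ k _ _ _ _ _ _ S hE hS n _ _ z z' h1 h2
  obtain ⟨m, i1, i2, d, u, u', hd, hu, hu', hm⟩ := ll_of hE hS z z' h1 h2
  choose r hr1 hr2 using hd
  refine ⟨m, i1, i2, r, u, ⟨⟨u, u', hu, hu'⟩, rfl⟩, fun l b ρ h => hr1 l b ρ h, ?_⟩
  intro i j
  have h3 := mem_J_zero.1 (hm i j)
  have h4 : (u i j - fromBlocks z 0 0 (diagonal d) i j).1 = rcf u i j -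
      fromBlocks (rcf z) 0 0 (dgO (MonoidAlgebra k Γ) r) i j := by
    change (u i j).1 - (fromBlocks z 0 0 (diagonal d) i j).1 = _
    congr 1
    rcases i with i | i <;> rcases j with j | j
    · rfl
    · rfl
    · rfl
    · change (diagonal d i j).1 = dgO (MonoidAlgebra k Γ) r i j
      rw [dgO]
      by_cases hij : i = j
      · subst hij
        rw [diagonal_apply_eq, diagonal_apply_eq, hr2]
      · rw [diagonal_apply_ne _ hij, diagonal_apply_ne _ hij]
        rfl
  rw [← h4]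
  exact h3

end Pool.Agent.CC
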