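import Pool.Agent.Lib.MP_8f66f0_al_CC.Sys.Push
import Pool.Agent.Lib.MP_8f66f0_al_Wald.GrDefs

/-!
# Theorem CC: systems and their rings (section 2)

A system `S` has objects `Y`, each object `y` has a finite set `A y` of slots `(o, n)`, at most one for
every `o`, a label `lab y` and relabellings `re φ`. `Γ` acts on `O` and on the labels `C` (not on `Y`).
Heights `h : O →₀ ℕ` replace finite sets of slots: the slot `(o, n)` is FAR (for `h`) if `h o ≤ n`, and
`S.F h y` is the set of the `o` with a far slot.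

* `U Γ k S`: the row and column finite matrices over `k[Γ]` which respect labels, with `Far` (far slots
  are matched) and `Cof` (the coefficients lie in a finitely generated additive group).
* `J Γ k S f`: the two-sided ideal of the matrices supported, for some `h`, on the objects with at most
  `f` far slots.
* `S.der f h`: the derived system; its objects are the `y` with exactly `f` far slots.
* `eps`: the inclusion `U (S.der f h) → U S` (extension by zero).
* `S.Exact Γ f`: all objects have `f` slots, and the label determines them equivariantly.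
* `SF Γ k S`: f.g. projectives over `k[H]` are stably free, `H` a stabilizer of a label and of a non-empty
  set of slots (this passes to `S.der f h`).
-/

set_option autoImplicit false
set_option linter.unusedSectionVars false

namespace Pool.Agent.CC

open Pool.Agent.TQ Pool.Agent.Wald
open scoped Pointwise

/-- Systems. -/
structure Sys (O Y C : Type) [DecidableEq O] where
  /-- the slots -/
  A : Y → Finset (O × ℕ)
  inj : ∀ y, ∀ s ∈ A y, ∀ t ∈ A y, s.1 = t.1 → s = t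
  fin : ∀ B : Finset (O × ℕ), {y | A y ⊆ B}.Finite
  /-- the label -/
  lab : Y → C
  /-- relabelling -/
  re : (O → ℕ → ℕ) → Y → Y
  A_re : ∀ φ y, A (re φ y) = (A y).image fun s => (s.1, φ s.1 s.2)
  lab_re : ∀ φ y, lab (re φ y) = lab y
  re_re : ∀ φ ψ y, re φ (re ψ y) = re (fun o n => φ o (ψ o n)) y
  re_congr : ∀ φ ψ y, (∀ s ∈ A y, φ s.1 s.2 = ψ s.1 s.2) → re φ y = re ψ y
  re_id : ∀ y, re (fun _ n => n) y = y

namespace Sys

variable {O Y C : Type} [DecidableEq O] (S : Sys O Y C)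

/-- The set of the `o` with a far slot. -/
def F (h : O →₀ ℕ) (y : Y) : Finset O := ((S.A y).filter fun s => h s.1 ≤ s.2).image Prod.fst

theorem mem_F {h : O →₀ ℕ} {y : Y} {o : O} : o ∈ S.F h y ↔ ∃ n, (o, n) ∈ S.A y ∧ h o ≤ n := by
  simp only [F, Finset.mem_image, Finset.mem_filter]
  constructor
  · rintro ⟨⟨o', n⟩, ⟨h1, h2⟩, rfl⟩
    exact ⟨n, h1, h2⟩
  · rintro ⟨n, h1, h2⟩
    exact ⟨(o, n), ⟨h1, h2⟩, rfl⟩

theorem F_anti {h h' : O →₀ ℕ} (hh : h ≤ h') (y : Y) : S.F h' y ⊆ S.F h y := by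
  intro o ho
  rw [mem_F] at ho ⊢
  obtain ⟨n, h1, h2⟩ := ho
  exact ⟨n, h1, le_trans (hh o) h2⟩

theorem card_F (h : O →₀ ℕ) (y : Y) :
    (S.F h y).card = ((S.A y).filter fun s => h s.1 ≤ s.2).card := by
  refine Finset.card_image_of_injOn fun s hs t ht hst => ?_
  have hs' := Finset.mem_coe.1 hs
  have ht' := Finset.mem_coe.1 ht
  rw [Finset.mem_filter] at hs' ht'
  exact S.inj y s hs'.1 t ht'.1 hst

/-- The slots which are not far. -/
def low (h : O →₀ ℕ) : Finset (O × ℕ) :=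
  h.support.biUnion fun o => (Finset.range (h o)).image fun n => (o, n)

theorem mem_low {h : O →₀ ℕ} {s : O × ℕ} : s ∈ low h ↔ s.2 < h s.1 := by
  simp only [low, Finset.mem_biUnion, Finset.mem_image, Finset.mem_range, Finsupp.mem_support_iff]
  constructor
  · rintro ⟨o, _, n, h2, rfl⟩
    exact h2
  · intro h1
    exact ⟨s.1, by omega, s.2, h1, rfl⟩

theorem F_empty_fin (h : O →₀ ℕ) : {y | S.F h y = ∅}.Finite := by
  refine (S.fin (low h)).subset fun y hy s hs => ?_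
  rw [mem_low]
  by_contra hn
  have : s.1 ∈ S.F h y := by
    rw [mem_F]
    exact ⟨s.2, hs, by omega⟩
  rw [show S.F h y = ∅ from hy] at this
  exact absurd this (Finset.notMem_empty _)

theorem exists_height (B : Finset (O × ℕ)) : ∃ h : O →₀ ℕ, B ⊆ low h := by
  induction B using Finset.induction_on with
  | empty => exact ⟨0, Finset.empty_subset _⟩
  | insert s B _ ih =>
    obtain ⟨h, hh⟩ := ih
    refine ⟨h + Finsupp.single s.1 (s.2 + 1), fun t ht => ?_⟩
    rw [Finset.mem_insert] at ht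
    rw [mem_low, Finsupp.add_apply, Finsupp.single_apply]
    rcases ht with rfl | ht
    · rw [if_pos rfl]
      omega
    · have := mem_low.1 (hh ht)
      omega

end Sys

section Ring

variable {O Y C Γ k : Type} [DecidableEq O] [Group Γ] [MulAction Γ O] [MulAction Γ C] [CommRing k]

/-- Labels are respected. -/
def Lab (S : Sys O Y C) (z : RCF Y (MonoidAlgebra k Γ)) : Prop :=
  ∀ g y' y, cf z g y' y ≠ 0 → S.lab y' = g • S.lab y

/-- Far slots are matched. -/
def Far (S : Sys O Y C) (z : RCF Y (MonoidAlgebra k Γ)) : Prop :=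
  ∀ h' : O →₀ ℕ, ∃ h : O →₀ ℕ, ∀ g y' y, cf z g y' y ≠ 0 →
    (∀ o ∈ S.F h y, g • o ∈ S.F h' y') ∧ ∀ o ∈ S.F h y', g⁻¹ • o ∈ S.F h' y

/-- The coefficients lie in a finitely generated additive group. -/
def Cof (z : RCF Y (MonoidAlgebra k Γ)) : Prop :=
  ∃ P : Submodule ℤ k, P.FG ∧ ∀ g y' y, cf z g y' y ∈ P

theorem Cof.mul {a b : RCF Y (MonoidAlgebra k Γ)} (ha : Cof a) (hb : Cof b) : Cof (a * b) := by
  obtain ⟨P, hP, h1⟩ := ha
  obtain ⟨Q, hQ, h2⟩ := hb
  exact ⟨P * Q, hP.mul hQ, fun g y' y => cf_mul_mem _ g fun v k l =>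
    Submodule.mul_mem_mul (h1 k y' v) (h2 l v y)⟩

theorem Cof.add {a b : RCF Y (MonoidAlgebra k Γ)} (ha : Cof a) (hb : Cof b) : Cof (a + b) := by
  obtain ⟨P, hP, h1⟩ := ha
  obtain ⟨Q, hQ, h2⟩ := hb
  refine ⟨P ⊔ Q, hP.sup hQ, fun g y' y => ?_⟩
  rw [cf_add]
  exact Submodule.add_mem _ ((le_sup_left : P ≤ P ⊔ Q) (h1 g y' y))
    ((le_sup_right : Q ≤ P ⊔ Q) (h2 g y' y))

theorem Cof.neg {a : RCF Y (MonoidAlgebra k Γ)} (ha : Cof a) : Cof (-a) := by
  obtain ⟨P, hP, h1⟩ := ha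
  refine ⟨P, hP, fun g y' y => ?_⟩
  rw [cf_neg]
  exact P.neg_mem (h1 g y' y)

theorem Cof.one : Cof (1 : RCF Y (MonoidAlgebra k Γ)) :=
  ⟨Submodule.span ℤ {1}, Submodule.fg_span_singleton _, fun g y x =>
    cf_one_mem _ (Submodule.mem_span_singleton_self 1) g y x⟩

theorem Cof.zero : Cof (0 : RCF Y (MonoidAlgebra k Γ)) :=
  ⟨⊥, Submodule.fg_bot, fun g y x => by rw [cf_zero]; exact Submodule.zero_mem _⟩

theorem ne_or_ne_of_add {a b : k} (h : a + b ≠ 0) : a ≠ 0 ∨ b ≠ 0 := by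
  by_contra hc
  push Not at hc
  exact h (by rw [hc.1, hc.2, add_zero])

omit [MulAction Γ O] in
theorem Lab.mul {S : Sys O Y C} {a b : RCF Y (MonoidAlgebra k Γ)} (ha : Lab S a) (hb : Lab S b) :
    Lab S (a * b) := by
  intro g y' y h
  obtain ⟨v, r, l, rfl, h1, h2⟩ := exists_of_cf_mul h
  rw [ha r y' v h1, hb l v y h2, mul_smul]

omit [MulAction Γ O] in
theorem Lab.add {S : Sys O Y C} {a b : RCF Y (MonoidAlgebra k Γ)} (ha : Lab S a) (hb : Lab S b) :
    Lab S (a + b) := by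
  intro g y' y h
  rw [cf_add] at h
  rcases ne_or_ne_of_add h with h | h
  · exact ha g y' y h
  · exact hb g y' y h

omit [MulAction Γ O] in
theorem Lab.neg {S : Sys O Y C} {a : RCF Y (MonoidAlgebra k Γ)} (ha : Lab S a) : Lab S (-a) := by
  intro g y' y h
  rw [cf_neg] at h
  exact ha g y' y (neg_ne_zero.1 h)

omit [MulAction Γ O] in
theorem Lab.one (S : Sys O Y C) : Lab S (1 : RCF Y (MonoidAlgebra k Γ)) := by
  intro g y' y h
  obtain ⟨rfl, rfl⟩ := cf_one_ne h
  rw [one_smul]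

omit [MulAction Γ O] in
theorem Lab.zero (S : Sys O Y C) : Lab S (0 : RCF Y (MonoidAlgebra k Γ)) := by
  intro g y' y h
  exact absurd (cf_zero g y' y) h

theorem Far.mul {S : Sys O Y C} {a b : RCF Y (MonoidAlgebra k Γ)} (ha : Far S a) (hb : Far S b) :
    Far S (a * b) := by
  intro h'
  obtain ⟨h1, H1⟩ := ha h'
  obtain ⟨h2, H2⟩ := hb h1
  obtain ⟨h3, H3⟩ := hb h'
  obtain ⟨h4, H4⟩ := ha h3
  refine ⟨h2 ⊔ h4, fun g y' y h => ?_⟩
  obtain ⟨v, r, l, rfl, e1, e2⟩ := exists_of_cf_mul h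
  refine ⟨fun o ho => ?_, fun o ho => ?_⟩
  · rw [mul_smul]
    exact (H1 r y' v e1).1 _ ((H2 l v y e2).1 o (S.F_anti le_sup_left y ho))
  · rw [mul_inv_rev, mul_smul]
    exact (H3 l v y e2).2 _ ((H4 r y' v e1).2 o (S.F_anti le_sup_right y' ho))

theorem Far.add {S : Sys O Y C} {a b : RCF Y (MonoidAlgebra k Γ)} (ha : Far S a) (hb : Far S b) :
    Far S (a + b) := by
  intro h'
  obtain ⟨h1, H1⟩ := ha h'
  obtain ⟨h2, H2⟩ := hb h'
  refine ⟨h1 ⊔ h2, fun g y' y h => ?_⟩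
  rw [cf_add] at h
  rcases ne_or_ne_of_add h with h | h
  · exact ⟨fun o ho => (H1 g y' y h).1 o (S.F_anti le_sup_left y ho),
      fun o ho => (H1 g y' y h).2 o (S.F_anti le_sup_left y' ho)⟩
  · exact ⟨fun o ho => (H2 g y' y h).1 o (S.F_anti le_sup_right y ho),
      fun o ho => (H2 g y' y h).2 o (S.F_anti le_sup_right y' ho)⟩

theorem Far.neg {S : Sys O Y C} {a : RCF Y (MonoidAlgebra k Γ)} (ha : Far S a) : Far S (-a) := by
  intro h'
  obtain ⟨h, H⟩ := ha h'
  refine ⟨h, fun g y' y h1 => ?_⟩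
  rw [cf_neg] at h1
  exact H g y' y (neg_ne_zero.1 h1)

theorem Far.one (S : Sys O Y C) : Far S (1 : RCF Y (MonoidAlgebra k Γ)) := by
  intro h'
  refine ⟨h', fun g y' y h => ?_⟩
  obtain ⟨rfl, rfl⟩ := cf_one_ne h
  refine ⟨fun o ho => ?_, fun o ho => ?_⟩
  · rwa [one_smul]
  · rwa [inv_one, one_smul]

theorem Far.zero (S : Sys O Y C) : Far S (0 : RCF Y (MonoidAlgebra k Γ)) := by
  intro h'
  exact ⟨h', fun g y' y h => absurd (cf_zero g y' y) h⟩

variable (Γ k)

/-- The ring of a system. -/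
def U (S : Sys O Y C) : Subring (RCF Y (MonoidAlgebra k Γ)) where
  carrier := {z | Lab S z ∧ Far S z ∧ Cof z}
  mul_mem' ha hb := ⟨ha.1.mul hb.1, ha.2.1.mul hb.2.1, ha.2.2.mul hb.2.2⟩
  one_mem' := ⟨Lab.one S, Far.one S, Cof.one⟩
  add_mem' ha hb := ⟨ha.1.add hb.1, ha.2.1.add hb.2.1, ha.2.2.add hb.2.2⟩
  zero_mem' := ⟨Lab.zero S, Far.zero S, Cof.zero⟩
  neg_mem' ha := ⟨ha.1.neg, ha.2.1.neg, ha.2.2.neg⟩

variable {Γ k}

/-- At most `f` far slots on the support, for some height. -/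
def Low (S : Sys O Y C) (f : ℕ) (z : RCF Y (MonoidAlgebra k Γ)) : Prop :=
  ∃ h : O →₀ ℕ, ∀ g y' y, cf z g y' y ≠ 0 → (S.F h y').card ≤ f ∧ (S.F h y).card ≤ f

theorem card_le_of_smul {g : Γ} {A B : Finset O} (h : ∀ o ∈ A, g • o ∈ B) : A.card ≤ B.card :=
  Finset.card_le_card_of_injOn (fun o => g • o) h fun _ _ _ _ hab => MulAction.injective g hab

theorem Low.mul_left {S : Sys O Y C} {f : ℕ} {a b : RCF Y (MonoidAlgebra k Γ)} (ha : Far S a)
    (hb : Low S f b) : Low S f (a * b) := by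
  obtain ⟨h, H⟩ := hb
  obtain ⟨h1, H1⟩ := ha h
  refine ⟨h ⊔ h1, fun g y' y h2 => ?_⟩
  obtain ⟨v, r, l, rfl, e1, e2⟩ := exists_of_cf_mul h2
  refine ⟨?_, le_trans (Finset.card_le_card (S.F_anti le_sup_left y)) (H l v y e2).2⟩
  exact le_trans (card_le_of_smul fun o ho => (H1 r y' v e1).2 o (S.F_anti le_sup_right y' ho))
    (H l v y e2).1

theorem Low.mul_right {S : Sys O Y C} {f : ℕ} {a b : RCF Y (MonoidAlgebra k Γ)} (hb : Far S b)
    (ha : Low S f a) : Low S f (a * b) := by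
  obtain ⟨h, H⟩ := ha
  obtain ⟨h1, H1⟩ := hb h
  refine ⟨h ⊔ h1, fun g y' y h2 => ?_⟩
  obtain ⟨v, r, l, rfl, e1, e2⟩ := exists_of_cf_mul h2
  refine ⟨le_trans (Finset.card_le_card (S.F_anti le_sup_left y')) (H r y' v e1).1, ?_⟩
  exact le_trans (card_le_of_smul fun o ho => (H1 l v y e2).1 o (S.F_anti le_sup_right y ho))
    (H r y' v e1).2

theorem Low.add {S : Sys O Y C} {f : ℕ} {a b : RCF Y (MonoidAlgebra k Γ)} (ha : Low S f a)
    (hb : Low S f b) : Low S f (a + b) := by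
  obtain ⟨h1, H1⟩ := ha
  obtain ⟨h2, H2⟩ := hb
  refine ⟨h1 ⊔ h2, fun g y' y h => ?_⟩
  rw [cf_add] at h
  rcases ne_or_ne_of_add h with h | h
  · exact ⟨le_trans (Finset.card_le_card (S.F_anti le_sup_left y')) (H1 g y' y h).1,
      le_trans (Finset.card_le_card (S.F_anti le_sup_left y)) (H1 g y' y h).2⟩
  · exact ⟨le_trans (Finset.card_le_card (S.F_anti le_sup_right y')) (H2 g y' y h).1,
      le_trans (Finset.card_le_card (S.F_anti le_sup_right y)) (H2 g y' y h).2⟩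

variable (Γ k)

/-- The ideal of the matrices supported on the objects with at most `f` far slots. -/
def J (S : Sys O Y C) (f : ℕ) : Ideal (U Γ k S) where
  carrier := {z | Low S f z.1}
  add_mem' ha hb := Low.add ha hb
  zero_mem' := ⟨0, fun g y' y h => absurd (cf_zero g y' y) h⟩
  smul_mem' c z hz := Low.mul_left c.2.2.1 hz

instance (S : Sys O Y C) (f : ℕ) : (J Γ k S f).IsTwoSided where
  mul_mem_of_left b ha := Low.mul_right b.2.2.1 ha

variable {Γ k}

theorem mem_J {S : Sys O Y C} {f : ℕ} {z : U Γ k S} : z ∈ J Γ k S f ↔ Low S f z.1 := Iff.rfl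

theorem J_mono (S : Sys O Y C) {f f' : ℕ} (h : f ≤ f') : J Γ k S f ≤ J Γ k S f' := by
  rintro z ⟨h1, H⟩
  exact ⟨h1, fun g y' y h2 => ⟨le_trans (H g y' y h2).1 h, le_trans (H g y' y h2).2 h⟩⟩

variable (Γ) in
/-- Exact systems. -/
def Sys.Exact (S : Sys O Y C) (f : ℕ) : Prop :=
  (∀ y, (S.A y).card = f) ∧ ∀ (g : Γ) (y y' : Y), S.lab y' = g • S.lab y →
    ∀ o ∈ S.F 0 y, g • o ∈ S.F 0 y'

variable (Γ k) in
/-- The hypothesis on the stabilizers. -/
def SF (S : Sys O Y C) : Prop :=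
  ∀ (y : Y) (F : Finset O), F.Nonempty → F ⊆ S.F 0 y → ∀ H : Subgroup Γ, (∀ g ∈ H, g • F = F) →
    (∀ g ∈ H, g • S.lab y = S.lab y) → ProjSF (MonoidAlgebra k H)

end Ring

section Der

variable {O Y C : Type} [DecidableEq O] (S : Sys O Y C) (f : ℕ) (h : O →₀ ℕ)

/-- A relabelling which only moves the far slots. -/
def shf (φ : O → ℕ → ℕ) : O → ℕ → ℕ := fun o n => if n < h o then n else h o + φ o (n - h o)

theorem F_re_shf (φ : O → ℕ → ℕ) (y : Y) : S.F h (S.re (shf h φ) y) = S.F h y := by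
  ext o
  rw [S.mem_F, S.mem_F, S.A_re]
  simp only [Finset.mem_image, Prod.mk.injEq, Prod.exists]
  constructor
  · rintro ⟨n, ⟨o', m, h1, rfl, rfl⟩, h2⟩
    refine ⟨m, h1, ?_⟩
    unfold shf at h2
    split_ifs at h2 <;> omega
  · rintro ⟨n, h1, h2⟩
    refine ⟨shf h φ o n, ⟨o, n, h1, rfl, rfl⟩, ?_⟩
    unfold shf
    split_ifs <;> omega

/-- The derived system. -/
def Sys.der : Sys O {y : Y // (S.F h y).card = f} (Finset O × C) where
  A y := ((S.A y.1).filter fun s => h s.1 ≤ s.2).image fun s => (s.1, s.2 - h s.1)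
  inj := by
    intro y s hs t ht hst
    rw [Finset.mem_image] at hs ht
    obtain ⟨s', hs', rfl⟩ := hs
    obtain ⟨t', ht', rfl⟩ := ht
    rw [S.inj y.1 s' (Finset.mem_filter.1 hs').1 t' (Finset.mem_filter.1 ht').1 hst]
  fin := by
    intro B
    refine Set.Finite.subset ((S.fin (Sys.low h ∪ B.image fun s => (s.1, s.2 + h s.1))).preimage
      Subtype.val_injective.injOn) fun y hy s hs => ?_
    rw [Finset.mem_union, Sys.mem_low, Finset.mem_image]
    by_cases hc : s.2 < h s.1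
    · exact Or.inl hc
    · refine Or.inr ⟨(s.1, s.2 - h s.1), hy (Finset.mem_image.2 ⟨s, Finset.mem_filter.2
        ⟨hs, by omega⟩, rfl⟩), ?_⟩
      ext
      · rfl
      · change s.2 - h s.1 + h s.1 = s.2
        omega
  lab y := (S.F h y.1, S.lab y.1)
  re φ y := ⟨S.re (shf h φ) y.1, by rw [F_re_shf]; exact y.2⟩
  A_re := by
    intro φ y
    ext ⟨o, n⟩
    simp only [S.A_re, Finset.mem_image, Finset.mem_filter, Prod.exists, Prod.mk.injEq]
    constructor
    · rintro ⟨o, a, ⟨⟨o', b, h1, rfl, rfl⟩, h2⟩, rfl, rfl⟩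
      have hb : h o' ≤ b := by
        unfold shf at h2
        split_ifs at h2 <;> omega
      refine ⟨o', b - h o', ⟨o', b, ⟨h1, hb⟩, rfl, rfl⟩, rfl, ?_⟩
      unfold shf
      rw [if_neg (by omega)]
      omega
    · rintro ⟨o, a, ⟨o', b, ⟨h1, h2⟩, rfl, rfl⟩, rfl, rfl⟩
      refine ⟨o', shf h φ o' b, ⟨⟨o', b, h1, rfl, rfl⟩, ?_⟩, rfl, ?_⟩
      · unfold shf
        split_ifs <;> omega
      · unfold shf
        rw [if_neg (by omega)]
        omega
  lab_re := by
    intro φ y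
    exact Prod.ext (F_re_shf S h φ y.1) (S.lab_re _ _)
  re_re := by
    intro φ ψ y
    refine Subtype.ext ?_
    change S.re _ (S.re _ y.1) = S.re _ y.1
    rw [S.re_re]
    refine congrFun (congrArg S.re ?_) y.1
    funext o n
    change shf h φ o (shf h ψ o n) = shf h (fun o n => φ o (ψ o n)) o n
    unfold shf
    by_cases hn : n < h o
    · simp only [if_pos hn]
    · simp only [if_neg hn]
      rw [if_neg (by omega)]
      congr 2
      omega
  re_congr := by
    intro φ ψ y hy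
    refine Subtype.ext (S.re_congr _ _ _ fun s hs => ?_)
    unfold shf
    by_cases hn : s.2 < h s.1
    · rw [if_pos hn, if_pos hn]
    · rw [if_neg hn, if_neg hn]
      have := hy (s.1, s.2 - h s.1) (Finset.mem_image.2 ⟨s, Finset.mem_filter.2
        ⟨hs, by omega⟩, rfl⟩)
      exact congrArg _ this
  re_id := by
    intro y
    refine Subtype.ext ?_
    change S.re _ y.1 = y.1
    conv_rhs => rw [← S.re_id y.1]
    refine S.re_congr _ _ _ fun s _ => ?_
    change (if s.2 < h s.1 then s.2 else h s.1 + (s.2 - h s.1)) = s.2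
    split_ifs
    · rfl
    · omega

theorem F_der (h1 : O →₀ ℕ) (y : {y : Y // (S.F h y).card = f}) :
    (S.der f h).F h1 y = S.F (h + h1) y.1 := by
  ext o
  rw [Sys.mem_F, Sys.mem_F]
  change (∃ n, (o, n) ∈ ((S.A y.1).filter fun s => h s.1 ≤ s.2).image
    (fun s => (s.1, s.2 - h s.1)) ∧ _) ↔ _
  simp only [Finset.mem_image, Finset.mem_filter, Prod.mk.injEq, Prod.exists, Finsupp.add_apply]
  constructor
  · rintro ⟨n, ⟨o', m, ⟨h2, h3⟩, rfl, rfl⟩, h4⟩
    exact ⟨m, h2, by omega⟩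
  · rintro ⟨n, h2, h3⟩
    exact ⟨n - h o, ⟨o, n, ⟨h2, by omega⟩, rfl, rfl⟩, by omega⟩

theorem F_der_zero (y : {y : Y // (S.F h y).card = f}) : (S.der f h).F 0 y = S.F h y.1 := by
  rw [F_der, add_zero]

theorem der_exact (Γ : Type) [Group Γ] [MulAction Γ O] [MulAction Γ C] :
    (S.der f h).Exact Γ f := by
  refine ⟨fun y => ?_, fun g y y' hl o ho => ?_⟩
  · change (((S.A y.1).filter fun s => h s.1 ≤ s.2).image fun s => (s.1, s.2 - h s.1)).card = f
    rw [Finset.card_image_of_injOn, ← S.card_F, y.2]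
    intro s hs t ht hst
    exact S.inj y.1 s (Finset.mem_filter.1 hs).1 t (Finset.mem_filter.1 ht).1
      (Prod.ext_iff.1 hst).1
  · rw [F_der_zero] at ho ⊢
    have h1 : S.F h y'.1 = g • S.F h y.1 := congrArg Prod.fst hl
    rw [h1]
    exact Finset.smul_mem_smul_finset ho

theorem der_SF {Γ k : Type} [Group Γ] [MulAction Γ O] [MulAction Γ C] [CommRing k]
    (hS : SF Γ k S) : SF Γ k (S.der f h) := by
  intro y F hF hFy H h1 h2
  rw [F_der_zero] at hFy
  exact hS y.1 F hF (hFy.trans (S.F_anti (fun _ => Nat.zero_le _) y.1)) H h1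
    fun g hg => congrArg Prod.snd (h2 g hg)

end Der

section Eps

variable {O Y C Γ k : Type} [DecidableEq O] [Group Γ] [MulAction Γ O] [MulAction Γ C] [CommRing k]

theorem push_mem_U (S : Sys O Y C) (f : ℕ) (h : O →₀ ℕ) {z : RCF {y : Y // (S.F h y).card = f} (MonoidAlgebra k Γ)}
    (hz : z ∈ U Γ k (S.der f h)) : push Subtype.val_injective z ∈ U Γ k S := by
  obtain ⟨h1, h2, P, hP, h3⟩ := hz
  refine ⟨fun g y' y hc => ?_, fun h' => ?_, P, hP, fun g y' y => ?_⟩
  · obtain ⟨y', y, rfl, rfl, hd⟩ := cf_push_ne _ hc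
    exact congrArg Prod.snd (h1 g y' y hd)
  · obtain ⟨h4, H⟩ := h2 h'
    refine ⟨h + h4, fun g y' y hc => ?_⟩
    obtain ⟨y', y, rfl, rfl, hd⟩ := cf_push_ne _ hc
    obtain ⟨H1, H2⟩ := H g y' y hd
    simp only [F_der] at H1 H2
    exact ⟨fun o ho => S.F_anti le_add_self _ (H1 o ho),
      fun o ho => S.F_anti le_add_self _ (H2 o ho)⟩
  · by_cases hc : cf (push Subtype.val_injective z) g y' y = 0
    · rw [hc]
      exact P.zero_mem
    · obtain ⟨y', y, rfl, rfl, _⟩ := cf_push_ne _ hc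
      rw [cf_push]
      exact h3 g y' y

variable (Γ k) (S : Sys O Y C) (f : ℕ) (h : O →₀ ℕ)

/-- The inclusion of the ring of the derived system. -/
noncomputable def eps : U Γ k (S.der f h) →ₙ+* U Γ k S where
  toFun z := ⟨push Subtype.val_injective z.1, push_mem_U S f h z.2⟩
  map_mul' a b := Subtype.ext (map_mul (push Subtype.val_injective) a.1 b.1)
  map_zero' := Subtype.ext (map_zero (push Subtype.val_injective))
  map_add' a b := Subtype.ext (map_add (push Subtype.val_injective) a.1 b.1)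

variable {Γ k}

theorem eps_val (z : U Γ k (S.der f h)) :
    (eps Γ k S f h z).1 = push Subtype.val_injective z.1 := rfl

theorem eps_mem_J (z : U Γ k (S.der f h)) : eps Γ k S f h z ∈ J Γ k S f := by
  refine ⟨h, fun g y' y hc => ?_⟩
  obtain ⟨y', y, rfl, rfl, hc⟩ := cf_push_ne _ hc
  exact ⟨le_of_eq y'.2, le_of_eq y.2⟩

end Eps

end Pool.Agent.CC
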