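import Pool.Agent.Lib.MP_8f66f0_al_CC.Sys.PsiData
import Pool.Agent.Lib.MP_8f66f0_al_CC.Sys.TwI
import Pool.Agent.Lib.MP_8f66f0_al_CC.End.FinSpec

/-!
# Theorem CC: Lemma E over the Euclidean domains `L` and over `L[t]`
-/

set_option autoImplicit false

namespace Pool.Agent.CC

open Pool.Agent.Wald Pool.Agent.TQ Pool.Agent.Ind Matrix
open scoped Pointwise Polynomial

/-- **Lemma E** over the Euclidean domains `L` and over `L[t]`. -/
theorem sE (hs : S_sh) (hAB : S_AB) (hL1 : S_L1) (hpsi : S_psi) : S_E := by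
  intro O Y C Γ _ _ _ _ S hSF L _ _ hL
  have hTw : ∀ (k : Type) [CommRing k], P0 k → ∃ (k'' : Type) (_ : CommRing k''), P0 k'' ∧
      ∀ (Y C : Type) [MulAction Γ C] (S : Sys O Y C) (f : ℕ), PsiD Γ k k'' S f := by
    intro k _ hk
    obtain ⟨k', i, hk', ⟨D⟩⟩ := hk.ext
    exact ⟨k', i, hk', fun Y C _ S f => psiD_of hpsi D S f⟩
  have hS : ∀ (k : Type) [CommRing k], P0 k → SF Γ k S := by
    intro k _ hk
    cases hk with
    | euc _ h1 => exact (hSF k h1).1
    | poly L' h1 => exact (hSF L' h1).2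
  have hdom : ∀ (k : Type) [CommRing k], P0 k → IsDomain k := fun k _ hk => hk.dom
  exact ⟨lftD_of hs hAB hL1 (fun k [CommRing k] => P0 k) hTw hdom Y C S hS L (P0.euc L hL),
    lftD_of hs hAB hL1 (fun k [CommRing k] => P0 k) hTw hdom Y C S hS L[X] (P0.poly L hL)⟩

end Pool.Agent.CC
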