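import Pool.Agent.Lib.MP_8f66f0_al_CC.Sys.Ring

/-!
# Theorem CC: absorbing a finite set of objects, the matrix identities

`absorb`: the diagonal idempotent `d` over the ring `X` is stably conjugate to the diagonal idempotent
of the predicate `P'`, if the difference is supported by finitely many matrix units `b y * c y` which
are absorbed by the isometries `u y`.
-/

set_option autoImplicit false
set_option linter.unusedSectionVars false

namespace Pool.Agent.CC

open Matrix Pool.Agent.Wald

section

variable {X : Type} [Ring X] {N T : Type} [Fintype N] [DecidableEq N] [Fintype T] [DecidableEq T]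

/-- The row block. -/
def bB (N : Type) [DecidableEq N] (b : T → X) : Matrix N (N × T) X :=
  Matrix.of fun p δ => if p = δ.1 then b δ.2 else 0

/-- The column block. -/
def bC (N : Type) [DecidableEq N] (c : T → X) : Matrix (N × T) N X :=
  Matrix.of fun δ p => if p = δ.1 then c δ.2 else 0

theorem bC_mul_bB (c b : T → X) (δ δ' : N × T) :
    (bC N c * bB N b) δ δ' = if δ.1 = δ'.1 then c δ.2 * b δ'.2 else 0 := by
  rw [Matrix.mul_apply]
  simp only [bC, bB, Matrix.of_apply, ite_mul, zero_mul]
  rw [Finset.sum_ite_eq' Finset.univ δ.1]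
  simp

theorem bC_mul_diag_bB (c b : T → X) (d : N → X) (δ δ' : N × T) :
    (bC N c * diagonal d * bB N b) δ δ' = if δ.1 = δ'.1 then c δ.2 * d δ.1 * b δ'.2 else 0 := by
  rw [Matrix.mul_apply]
  simp only [Matrix.mul_diagonal, bC, bB, Matrix.of_apply, ite_mul, zero_mul]
  rw [Finset.sum_ite_eq' Finset.univ δ.1]
  simp

theorem bB_diag_bC (b c : T → X) (e : N × T → X) (p q : N) :
    (bB N b * diagonal e * bC N c) p q = if p = q then ∑ y, b y * e (p, y) * c y else 0 := by
  rw [Matrix.mul_apply, Fintype.sum_prod_type]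
  simp only [Matrix.mul_diagonal, bC, bB, Matrix.of_apply, ite_mul, zero_mul]
  rw [Finset.sum_comm]
  simp only [Finset.sum_ite_eq]
  by_cases h : p = q
  · subst h
    simp
  · simp [h, Ne.symm h]

theorem mc_diag {N : Type} [DecidableEq N] {J : Ideal X} {v : N → X} (hv : ∀ i, v i - 1 ∈ J) :
    MC J (diagonal v) 1 := by
  intro i j
  by_cases h : i = j
  · subst h
    rw [diagonal_apply_eq, Matrix.one_apply_eq]
    exact hv i
  · rw [diagonal_apply_ne _ h, Matrix.one_apply_ne h, sub_self]
    exact J.zero_mem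

theorem blocks {N M : Type} [Fintype N] [DecidableEq N] [Fintype M] [DecidableEq M]
    (A : Matrix N N X) (B : Matrix N M X) (C : Matrix M N X) (s w : Matrix M M X)
    (D : Matrix N N X) (r r' : Matrix M M X) (Z : Matrix N N X) (k1 : A * A + B * C = 1)
    (k2 : A * B = 0) (k3 : C * A = 0) (k4 : B * s = 0) (k5 : w * C = 0) (k6 : w * s = 1)
    (k7 : C * B + s * w = 1) (k8 : A * D * A + B * r' * C = Z) (k9 : A * D * B = 0)
    (k10 : C * D * A = 0) (k11 : C * D * B + s * r * w = r) (k12 : w * r' * s = r')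
    (k13 : B * r' * s = 0) (k14 : w * r' * C = 0) :
    (fromBlocks A (fromCols 0 B) (fromRows C 0) (fromBlocks s 0 0 w) *
      fromBlocks A (fromCols B 0) (fromRows 0 C) (fromBlocks w 0 0 s) = 1) ∧
    (fromBlocks A (fromCols B 0) (fromRows 0 C) (fromBlocks w 0 0 s) *
      fromBlocks A (fromCols 0 B) (fromRows C 0) (fromBlocks s 0 0 w) = 1) ∧
    (fromBlocks A (fromCols 0 B) (fromRows C 0) (fromBlocks s 0 0 w) *
      fromBlocks D 0 0 (fromBlocks r 0 0 r') *
      fromBlocks A (fromCols B 0) (fromRows 0 C) (fromBlocks w 0 0 s) =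
        fromBlocks Z 0 0 (fromBlocks r 0 0 r')) := by
  have z1 : (fromCols 0 0 : Matrix N (M ⊕ M) X) = 0 := by
    ext i (j | j) <;> rfl
  have z2 : (fromRows 0 0 : Matrix (M ⊕ M) N X) = 0 := by
    ext (i | i) j <;> rfl
  have z3 : ∀ Y : Matrix M M X, (fromCols (fromRows Y 0) 0 : Matrix (M ⊕ M) (M ⊕ M) X) =
      fromBlocks Y 0 0 0 := by
    rintro Y
    ext (i | i) (j | j) <;> rfl
  have z4 : ∀ Y : Matrix M M X, (fromCols 0 (fromRows 0 Y) : Matrix (M ⊕ M) (M ⊕ M) X) =
      fromBlocks 0 0 0 Y := by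
    rintro Y
    ext (i | i) (j | j) <;> rfl
  refine ⟨?_, ?_, ?_⟩
  · simp only [fromBlocks_multiply, fromCols_mul_fromRows, mul_fromCols, fromCols_mul_fromBlocks,
      fromRows_mul, fromBlocks_mul_fromRows, Matrix.mul_zero,
      Matrix.zero_mul, zero_add, add_zero, k2, k3, k4, k5, k1, fromBlocks_add, k7, k6, z1, z2,
      z3, fromBlocks_one]
  · simp only [fromBlocks_multiply, fromCols_mul_fromRows, mul_fromCols, fromCols_mul_fromBlocks,
      fromRows_mul, fromBlocks_mul_fromRows, Matrix.mul_zero,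
      Matrix.zero_mul, zero_add, add_zero, k2, k3, k4, k5, k1, fromBlocks_add, k7, k6, z1, z2,
      z4, fromBlocks_one]
  · simp only [fromBlocks_multiply, fromCols_mul_fromRows, mul_fromCols, fromCols_mul_fromBlocks,
      fromRows_mul, fromBlocks_mul_fromRows, Matrix.mul_zero,
      Matrix.zero_mul, zero_add, add_zero, fromBlocks_add, z1, z2, z3, k8, k9, k10, k11, k12, k13,
      k14]

theorem absorb (a : X) (b c u t : T → X) (d : N → X) (P' : N → Prop) (Q : N × T → Prop)
    (h1 : a * a = a) (h2 : a + ∑ y, b y * c y = 1) (h3 : ∀ y, a * b y = 0)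
    (h4 : ∀ y, c y * a = 0) (h5 : ∀ y, b y * u y = 0) (h6 : ∀ y, t y * c y = 0)
    (h7 : ∀ y, t y * u y = 1) (h8 : ∀ y, c y * b y + u y * t y = 1)
    (h9 : ∀ y y', y ≠ y' → c y * b y' = 0)
    (h10 : ∀ p, P' p → a * d p = a) (h11 : ∀ p, ¬ P' p → a * d p = 0)
    (h12 : ∀ p y, Q (p, y) → c y * d p = c y) (h13 : ∀ p y, ¬ Q (p, y) → c y * d p = 0)
    (J : Ideal X) (ha : a - 1 ∈ J) (hb : ∀ y, b y ∈ J) (hc : ∀ y, c y ∈ J)
    (hu : ∀ y, u y - 1 ∈ J) (ht : ∀ y, t y - 1 ∈ J) :
    ∃ V V' : Matrix (N ⊕ (N × T ⊕ N × T)) (N ⊕ (N × T ⊕ N × T)) X, V * V' = 1 ∧ V' * V = 1 ∧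
      MC J V 1 ∧
      V * fromBlocks (diagonal d) 0 0 (pj (Sum.elim Q fun δ => P' δ.1)) * V' =
        pj (Sum.elim P' (Sum.elim Q fun δ => P' δ.1)) := by
  classical
  let A : Matrix N N X := diagonal fun _ => a
  let B : Matrix N (N × T) X := bB N b
  let C : Matrix (N × T) N X := bC N c
  let s : Matrix (N × T) (N × T) X := diagonal fun δ => u δ.2
  let w : Matrix (N × T) (N × T) X := diagonal fun δ => t δ.2
  let r : Matrix (N × T) (N × T) X := pj Q
  let r' : Matrix (N × T) (N × T) X := pj fun δ => P' δ.1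
  have hr : r = diagonal fun δ => if Q δ then 1 else 0 := pj_eq _
  have hr' : r' = diagonal fun δ => if P' δ.1 then 1 else 0 := pj_eq _
  have k1 : A * A + B * C = 1 := by
    ext p q
    have := bB_diag_bC b c (fun _ : N × T => (1 : X)) p q
    rw [diagonal_one, Matrix.mul_one] at this
    rw [Matrix.add_apply, this]
    by_cases h : p = q
    · subst h
      simp only [A, Matrix.diagonal_mul_diagonal, Matrix.diagonal_apply_eq, if_true,
        mul_one, Matrix.one_apply_eq]
      rw [h1, h2]
    · simp only [A, Matrix.diagonal_mul_diagonal, Matrix.diagonal_apply_ne _ h, if_neg h,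
        Matrix.one_apply_ne h, add_zero]
  have k2 : A * B = 0 := by
    ext p δ
    rw [Matrix.diagonal_mul]
    change a * (if p = δ.1 then b δ.2 else 0) = 0
    split_ifs
    · exact h3 _
    · exact mul_zero _
  have k3 : C * A = 0 := by
    ext δ p
    rw [Matrix.mul_diagonal]
    change (if p = δ.1 then c δ.2 else 0) * a = 0
    split_ifs
    · exact h4 _
    · exact zero_mul _
  have k4 : B * s = 0 := by
    ext p δ
    rw [Matrix.mul_diagonal]
    change (if p = δ.1 then b δ.2 else 0) * u δ.2 = 0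
    split_ifs
    · exact h5 _
    · exact zero_mul _
  have k5 : w * C = 0 := by
    ext δ p
    rw [Matrix.diagonal_mul]
    change t δ.2 * (if p = δ.1 then c δ.2 else 0) = 0
    split_ifs
    · exact h6 _
    · exact mul_zero _
  have k6 : w * s = 1 := by
    change diagonal _ * diagonal _ = _
    rw [diagonal_mul_diagonal, ← diagonal_one]
    congr 1
    funext δ
    exact h7 _
  have k7 : C * B + s * w = 1 := by
    ext δ δ'
    rw [Matrix.add_apply, bC_mul_bB]
    by_cases h : δ = δ'
    · subst h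
      rw [if_pos rfl, Matrix.one_apply_eq, diagonal_mul_diagonal, diagonal_apply_eq]
      exact h8 _
    · rw [diagonal_mul_diagonal, diagonal_apply_ne _ h, Matrix.one_apply_ne h, add_zero]
      split_ifs with h'
      · exact h9 _ _ fun h'' => h (Prod.ext h' h'')
      · rfl
  have k8 : A * diagonal d * A + B * r' * C = pj P' := by
    ext p q
    rw [Matrix.add_apply, hr', bB_diag_bC]
    by_cases h : p = q
    · subst h
      simp only [A, Matrix.diagonal_mul_diagonal, Matrix.diagonal_apply_eq, if_true]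
      by_cases hP : P' p
      · rw [pj_apply_pos hP, h10 p hP, h1]
        simp only [if_pos hP, mul_one]
        exact h2
      · rw [pj_apply_neg fun h => hP h.2, h11 p hP, zero_mul]
        simp only [if_neg hP, mul_zero, zero_mul, Finset.sum_const_zero, add_zero]
    · simp only [A, Matrix.diagonal_mul_diagonal, Matrix.diagonal_apply_ne _ h, if_neg h,
        add_zero]
      rw [pj_apply_neg fun h' => h h'.1]
  have k9 : A * diagonal d * B = 0 := by
    ext p δ
    rw [diagonal_mul_diagonal, Matrix.diagonal_mul]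
    change a * d p * (if p = δ.1 then b δ.2 else 0) = 0
    split_ifs
    · by_cases hP : P' p
      · rw [h10 p hP, h3]
      · rw [h11 p hP, zero_mul]
    · exact mul_zero _
  have k10 : C * diagonal d * A = 0 := by
    ext δ p
    rw [Matrix.mul_diagonal, Matrix.mul_diagonal]
    change (if p = δ.1 then c δ.2 else 0) * d p * a = 0
    split_ifs with h
    · subst h
      by_cases hQ : Q δ
      · rw [h12 _ _ hQ, h4]
      · rw [h13 _ _ hQ, zero_mul]
    · rw [zero_mul, zero_mul]
  have k11 : C * diagonal d * B + s * r * w = r := by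
    ext δ δ'
    rw [Matrix.add_apply, bC_mul_diag_bB, hr]
    by_cases h : δ = δ'
    · subst h
      rw [if_pos rfl]
      simp only [s, w, diagonal_mul_diagonal, diagonal_apply_eq]
      by_cases hQ : Q δ
      · rw [if_pos hQ, mul_one, h12 _ _ hQ]
        exact h8 _
      · rw [if_neg hQ, mul_zero, zero_mul, h13 _ _ hQ, zero_mul, add_zero]
    · simp only [s, w, diagonal_mul_diagonal, diagonal_apply_ne _ h, add_zero]
      split_ifs with h'
      · by_cases hQ : Q δ
        · rw [h12 _ _ hQ]
          exact h9 _ _ fun h'' => h (Prod.ext h' h'')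
        · rw [h13 _ _ hQ, zero_mul]
      · rfl
  have k12 : w * r' * s = r' := by
    rw [hr']
    simp only [w, s, diagonal_mul_diagonal]
    congr 1
    funext δ
    by_cases hP : P' δ.1
    · rw [if_pos hP, mul_one, h7]
    · rw [if_neg hP, mul_zero, zero_mul]
  have k13 : B * r' * s = 0 := by
    ext p δ
    rw [hr', Matrix.mul_diagonal, Matrix.mul_diagonal]
    change (if p = δ.1 then b δ.2 else 0) * (if P' δ.1 then 1 else 0) * u δ.2 = 0
    split_ifs
    · rw [mul_one, h5]
    · rw [mul_zero, zero_mul]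
    · rw [zero_mul, zero_mul]
    · rw [zero_mul, zero_mul]
  have k14 : w * r' * C = 0 := by
    ext δ p
    rw [hr', diagonal_mul_diagonal, Matrix.diagonal_mul]
    change t δ.2 * (if P' δ.1 then 1 else 0) * (if p = δ.1 then c δ.2 else 0) = 0
    split_ifs
    · rw [mul_one, h6]
    · rw [mul_zero]
    · rw [mul_zero, zero_mul]
    · rw [mul_zero]
  have hpj : (pj (Sum.elim Q fun δ => P' δ.1) : Matrix (N × T ⊕ N × T) (N × T ⊕ N × T) X) =
      fromBlocks r 0 0 r' := pj_sum _ _
  obtain ⟨e1, e2, e3⟩ := blocks A B C s w (diagonal d) r r' (pj P') k1 k2 k3 k4 k5 k6 k7 k8 k9 k10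
    k11 k12 k13 k14
  refine ⟨fromBlocks A (fromCols 0 B) (fromRows C 0) (fromBlocks s 0 0 w),
    fromBlocks A (fromCols B 0) (fromRows 0 C) (fromBlocks w 0 0 s), e1, e2, ?_, ?_⟩
  · have hA : MC J A 1 := mc_diag fun _ => ha
    rw [← fromBlocks_one]
    refine MC.fromBlocks hA ?_ ?_ ?_
    · rintro p (δ | δ)
      · change (0 : X) - 0 ∈ J
        rw [sub_self]
        exact J.zero_mem
      · change (if p = δ.1 then b δ.2 else 0) - 0 ∈ J
        rw [sub_zero]
        split_ifs
        · exact hb _
        · exact J.zero_mem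
    · rintro (δ | δ) p
      · change (if p = δ.1 then c δ.2 else 0) - 0 ∈ J
        rw [sub_zero]
        split_ifs
        · exact hc _
        · exact J.zero_mem
      · change (0 : X) - 0 ∈ J
        rw [sub_self]
        exact J.zero_mem
    · rw [← fromBlocks_one]
      exact MC.fromBlocks (mc_diag fun δ => hu δ.2) (MC.refl _) (MC.refl _)
        (mc_diag fun δ => ht δ.2)
  · rw [hpj, e3, pj_sum, pj_sum]

end

end Pool.Agent.CC
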