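import Pool.Agent.Lib.MP_8f66f0_al_FH.Stb

/-!
# Finite blocks

Idempotent matrices over `k[Γ]` which respect labels are stably conjugate, by matrices which respect
labels, to diagonal idempotents, if the finitely generated projective modules over the group rings of
the stabilizers of the labels are stably free.
-/

set_option autoImplicit false

namespace Pool.Agent.CC

open Matrix Pool.Agent.Wald Pool.Agent.FH

section

variable {Γ C : Type} [Group Γ] [MulAction Γ C]

/-- Equality as an invariant equivalence relation. -/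
def eqr (Γ C : Type) [Group Γ] [MulAction Γ C] : Eqr Γ C where
  rel x y := x = y
  refl _ := rfl
  symm h := h.symm
  trans h h' := h.trans h'
  inv _ h := congrArg _ h

/-- Matrices which respect labels. -/
def Lb {k : Type} [CommRing k] {n m : Type} (p : n → C) (q : m → C)
    (a : Matrix n m (MonoidAlgebra k Γ)) : Prop := SupR (· = ·) p q a

theorem eqr_st (c : C) : (eqr Γ C).st c = MulAction.stabilizer Γ c := by
  ext g
  rw [MulAction.mem_stabilizer_iff]
  exact eq_comm

variable {k : Type} [CommRing k]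

theorem Lb.one {n : Type} [DecidableEq n] (p : n → C) :
    Lb p p (1 : Matrix n n (MonoidAlgebra k Γ)) := by
  classical
  intro i j g hg
  by_cases h : i = j
  · subst h
    rw [Matrix.one_apply_eq] at hg
    have : g = 1 := by
      by_contra h1
      apply hg
      rw [MonoidAlgebra.one_def, MonoidAlgebra.coeff_single, Finsupp.single_apply, if_neg (Ne.symm h1)]
    rw [this, one_smul]
  · rw [Matrix.one_apply_ne h] at hg
    exact absurd rfl hg

theorem Lb.zero {n m : Type} (p : n → C) (q : m → C) :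
    Lb p q (0 : Matrix n m (MonoidAlgebra k Γ)) := fun _ _ _ h => absurd rfl h

theorem Lb.fromBlocks {n n' m m' : Type} {p : n → C} {p' : n' → C} {q : m → C} {q' : m' → C}
    {a : Matrix n m (MonoidAlgebra k Γ)} {b : Matrix n m' (MonoidAlgebra k Γ)}
    {c : Matrix n' m (MonoidAlgebra k Γ)} {d : Matrix n' m' (MonoidAlgebra k Γ)}
    (ha : Lb p q a) (hb : Lb p q' b) (hc : Lb p' q c) (hd : Lb p' q' d) :
    Lb (Sum.elim p p') (Sum.elim q q') (Matrix.fromBlocks a b c d) := by
  rintro (i | i) (j | j) g hg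
  · exact ha i j g hg
  · exact hb i j g hg
  · exact hc i j g hg
  · exact hd i j g hg

theorem Lb.sub {n m : Type} {p : n → C} {q : m → C} {a b : Matrix n m (MonoidAlgebra k Γ)}
    (ha : Lb p q a) (hb : Lb p q b) : Lb p q (a - b) := by
  intro i j g hg
  by_cases h : (a i j).coeff g = 0
  · refine hb i j g fun h' => hg ?_
    rw [Matrix.sub_apply, MonoidAlgebra.coeff_sub, Finsupp.sub_apply, h, h', sub_zero]
  · exact ha i j g h

end

private theorem FinStep_sq {R N M : Type} [Ring R] [Fintype N] [DecidableEq N] [Fintype M]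
    [DecidableEq M] (E : Matrix N N R) (u : Matrix N M R) (v : Matrix M N R) (h1 : u * v = E)
    (h2 : v * u = 1) : fromBlocks (1 - E) u v 0 * fromBlocks (1 - E) u v 0 = 1 ∧
      fromBlocks (1 - E) u v 0 * fromBlocks E 0 0 0 * fromBlocks (1 - E) u v 0 =
        fromBlocks 0 0 0 1 := by
  have a1 : E * u = u := by
    calc E * u = u * v * u := by rw [h1]
      _ = u := by rw [Matrix.mul_assoc, h2, Matrix.mul_one]
  have a2 : v * E = v := by
    calc v * E = v * (u * v) := by rw [h1]
      _ = v := by rw [← Matrix.mul_assoc, h2, Matrix.one_mul]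
  have hE : E * E = E := by
    calc E * E = u * v * E := by rw [h1]
      _ = u * v := by rw [Matrix.mul_assoc, a2]
      _ = E := h1
  constructor
  · rw [fromBlocks_multiply, ← fromBlocks_one]
    congr 1
    · rw [h1, Matrix.sub_mul, Matrix.mul_sub, Matrix.mul_sub, Matrix.one_mul, Matrix.mul_one,
        Matrix.one_mul, hE]
      abel
    · rw [Matrix.sub_mul, Matrix.one_mul, a1, Matrix.mul_zero, sub_self, add_zero]
    · rw [Matrix.mul_sub, Matrix.mul_one, a2, Matrix.zero_mul, sub_self, add_zero]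
    · rw [h2, Matrix.mul_zero, add_zero]
  · rw [fromBlocks_multiply, fromBlocks_multiply]
    congr 1
    · rw [Matrix.sub_mul, Matrix.one_mul, hE, sub_self]
      simp
    · rw [Matrix.sub_mul, Matrix.one_mul, hE, sub_self]
      simp
    · rw [a2]
      simp [Matrix.mul_sub, a2]
    · rw [a2]
      simp [h2]

/-- **Finite step.** -/
theorem fin_step {Γ C : Type} [Group Γ] [MulAction Γ C] {k : Type} [CommRing k] [IsDomain k]
    {n : Type} [Fintype n] [DecidableEq n] (l : n → C) (q : Matrix n n (MonoidAlgebra k Γ))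
    (hq : q * q = q) (hs : Lb l l q)
    (hP : ∀ i, ProjSF (MonoidAlgebra k (MulAction.stabilizer Γ (l i)))) :
    ∃ (n₁ n₂ : Type) (_ : Fintype n₁) (_ : DecidableEq n₁) (_ : Fintype n₂) (_ : DecidableEq n₂)
      (i₁ : n₁ → n) (i₂ : n₂ → n)
      (w : Matrix ((n ⊕ n₁) ⊕ n₂) ((n ⊕ n₁) ⊕ n₂) (MonoidAlgebra k Γ)),
      Lb (Sum.elim (Sum.elim l (l ∘ i₁)) (l ∘ i₂)) (Sum.elim (Sum.elim l (l ∘ i₁)) (l ∘ i₂)) w ∧
      w * w = 1 ∧ w * fromBlocks (fromBlocks q 0 0 1) 0 0 0 * w = fromBlocks 0 0 0 1 := by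
  have hP' : ∀ i, ProjSF (MonoidAlgebra k ((eqr Γ C).st (l i))) := by
    intro i
    rw [eqr_st]
    exact hP i
  obtain ⟨n₁, n₂, _, _, _, _, i₁, i₂, u, v, hu, hv, h1, h2⟩ :=
    stb k Γ C (eqr Γ C) n l q hq hs hP'
  refine ⟨n₁, n₂, inferInstance, inferInstance, inferInstance, inferInstance, i₁, i₂,
    fromBlocks (1 - fromBlocks q 0 0 1) u v 0, ?_, ?_, ?_⟩
  · refine Lb.fromBlocks (Lb.sub (Lb.one _) (Lb.fromBlocks hs (Lb.zero _ _) (Lb.zero _ _)
      (Lb.one _))) hu hv (Lb.zero _ _)
  · exact (FinStep_sq _ u v h1 h2).1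
  · exact (FinStep_sq _ u v h1 h2).2

end Pool.Agent.CC
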