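import Pool.Agent.Lib.MP_8f66f0_al_Wald.Defs

/-!
# Matrices modulo an ideal

`MC J A B`: the matrices `A`, `B` over the ring `X` are congruent modulo the two-sided ideal `J`.
`lift_diag`: if `z` is invertible modulo `J`, then `diag(z, z')` lifts to an invertible matrix.
`KZ J J' H`: idempotents which are congruent to a diagonal idempotent modulo `J` are stably
conjugate, by matrices which are congruent to `1` modulo `H`, to idempotents congruent to it modulo
`J'`.
-/

set_option autoImplicit false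

namespace Pool.Agent.CC

open Matrix Pool.Agent.Wald

section MC

variable {X : Type} [Ring X] (J : Ideal X)

/-- Congruence of matrices modulo an ideal. -/
def MC {m n : Type} (A B : Matrix m n X) : Prop := ∀ i j, A i j - B i j ∈ J

variable {J} {m n l k : Type}

theorem MC.refl (A : Matrix m n X) : MC J A A := fun i j => by rw [sub_self]; exact J.zero_mem

theorem MC.of_eq {A B : Matrix m n X} (h : A = B) : MC J A B := h ▸ MC.refl A

theorem MC.symm {A B : Matrix m n X} (h : MC J A B) : MC J B A := fun i j => by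
  rw [← neg_sub]; exact J.neg_mem (h i j)

theorem MC.trans {A B C : Matrix m n X} (h : MC J A B) (h' : MC J B C) : MC J A C := fun i j => by
  rw [← sub_add_sub_cancel]; exact J.add_mem (h i j) (h' i j)

theorem MC.add {A B A' B' : Matrix m n X} (h : MC J A B) (h' : MC J A' B') :
    MC J (A + A') (B + B') := fun i j => by
  rw [Matrix.add_apply, Matrix.add_apply, add_sub_add_comm]; exact J.add_mem (h i j) (h' i j)

theorem MC.neg {A B : Matrix m n X} (h : MC J A B) : MC J (-A) (-B) := fun i j => by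
  rw [Matrix.neg_apply, Matrix.neg_apply, neg_sub_neg]; exact h.symm i j

theorem MC.sub {A B A' B' : Matrix m n X} (h : MC J A B) (h' : MC J A' B') :
    MC J (A - A') (B - B') := by
  rw [sub_eq_add_neg, sub_eq_add_neg]; exact h.add h'.neg

theorem MC.mono {J' : Ideal X} (hJ : J ≤ J') {A B : Matrix m n X} (h : MC J A B) : MC J' A B :=
  fun i j => hJ (h i j)

theorem mc_bot {A B : Matrix m n X} : MC ⊥ A B ↔ A = B := by
  constructor
  · intro h
    exact Matrix.ext fun i j => sub_eq_zero.1 (h i j)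
  · exact MC.of_eq

theorem MC.mul_left [Fintype n] (C : Matrix m n X) {A B : Matrix n l X} (h : MC J A B) :
    MC J (C * A) (C * B) := fun i j => by
  rw [Matrix.mul_apply, Matrix.mul_apply, ← Finset.sum_sub_distrib]
  refine J.sum_mem fun k _ => ?_
  rw [← mul_sub]
  exact J.mul_mem_left _ (h k j)

theorem MC.mul_right [J.IsTwoSided] [Fintype n] {A B : Matrix m n X} (h : MC J A B)
    (C : Matrix n l X) : MC J (A * C) (B * C) := fun i j => by
  rw [Matrix.mul_apply, Matrix.mul_apply, ← Finset.sum_sub_distrib]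
  refine J.sum_mem fun k _ => ?_
  rw [← sub_mul]
  exact J.mul_mem_right _ (h i k)

theorem MC.mul [J.IsTwoSided] [Fintype n] {A B : Matrix m n X} {A' B' : Matrix n l X}
    (h : MC J A B) (h' : MC J A' B') : MC J (A * A') (B * B') :=
  (h.mul_right A').trans (h'.mul_left B)

theorem MC.fromBlocks {A A' : Matrix m n X} {B B' : Matrix m l X} {C C' : Matrix k n X}
    {D D' : Matrix k l X} (h1 : MC J A A') (h2 : MC J B B') (h3 : MC J C C') (h4 : MC J D D') :
    MC J (Matrix.fromBlocks A B C D) (Matrix.fromBlocks A' B' C' D') := by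
  rintro (i | i) (j | j)
  · exact h1 i j
  · exact h2 i j
  · exact h3 i j
  · exact h4 i j

theorem MC.submatrix {A B : Matrix m n X} (h : MC J A B) (f : l → m) (g : k → n) :
    MC J (A.submatrix f g) (B.submatrix f g) := fun i j => h (f i) (g j)

end MC

section Lift

variable {X : Type} [Ring X] {J : Ideal X} [J.IsTwoSided] {n : Type} [Fintype n] [DecidableEq n]

/-- `diag(z, z')` lifts to an invertible matrix if `z`, `z'` are inverse to each other modulo
`J`. -/
theorem lift_diag (z z' : Matrix n n X) (h1 : MC J (z * z') 1) (h2 : MC J (z' * z) 1) :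
    ∃ w w' : Matrix (n ⊕ n) (n ⊕ n) X, w * w' = 1 ∧ w' * w = 1 ∧
      MC J w (fromBlocks z 0 0 z') ∧ MC J w' (fromBlocks z' 0 0 z) := by
  refine ⟨fromBlocks (z + z - z * z' * z) (z * z' - 1) (1 - z' * z) z',
    fromBlocks z' (1 - z' * z) (z * z' - 1) (z + z - z * z' * z), ?_, ?_, ?_, ?_⟩
  · rw [fromBlocks_multiply, ← fromBlocks_one]
    congr 1 <;> noncomm_ring
  · rw [fromBlocks_multiply, ← fromBlocks_one]
    congr 1 <;> noncomm_ring
  · have e1 : MC J (z + z - z * z' * z) z := by
      have h3 := (MC.refl (J := J) (z + z)).sub (h1.mul_right z)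
      rw [one_mul, add_sub_cancel_right] at h3
      exact h3
    refine MC.fromBlocks e1 ?_ ?_ (MC.refl _)
    · have h3 := h1.sub (MC.refl 1)
      rwa [sub_self] at h3
    · have h3 := (MC.refl (J := J) (1 : Matrix n n X)).sub h2
      rwa [sub_self] at h3
  · have e1 : MC J (z + z - z * z' * z) z := by
      have h3 := (MC.refl (J := J) (z + z)).sub (h1.mul_right z)
      rw [one_mul, add_sub_cancel_right] at h3
      exact h3
    refine MC.fromBlocks (MC.refl _) ?_ ?_ e1
    · have h3 := (MC.refl (J := J) (1 : Matrix n n X)).sub h2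
      rwa [sub_self] at h3
    · have h3 := h1.sub (MC.refl 1)
      rwa [sub_self] at h3

end Lift

section KZ

variable {X : Type} [Ring X]

open Classical in
/-- The diagonal idempotent of a predicate. -/
noncomputable def pj {n : Type} (P : n → Prop) : Matrix n n X :=
  Matrix.of fun i j => if i = j ∧ P i then 1 else 0

theorem pj_apply_pos {n : Type} {P : n → Prop} {i : n} (h : P i) : (pj P : Matrix n n X) i i = 1 :=
  if_pos ⟨rfl, h⟩

theorem pj_apply_neg {n : Type} {P : n → Prop} {i j : n} (h : ¬ (i = j ∧ P i)) :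
    (pj P : Matrix n n X) i j = 0 := if_neg h

theorem pj_eq {n : Type} [DecidableEq n] (P : n → Prop) [DecidablePred P] :
    (pj P : Matrix n n X) = Matrix.diagonal fun i => if P i then 1 else 0 := by
  ext i j
  by_cases h : i = j
  · subst h
    rw [Matrix.diagonal_apply_eq]
    by_cases hP : P i
    · rw [pj_apply_pos hP, if_pos hP]
    · rw [pj_apply_neg fun h => hP h.2, if_neg hP]
  · rw [Matrix.diagonal_apply_ne _ h, pj_apply_neg fun h' => h h'.1]

theorem pj_true {n : Type} [DecidableEq n] : (pj (fun _ => True) : Matrix n n X) = 1 := by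
  rw [pj_eq, ← Matrix.diagonal_one]
  simp

theorem pj_false {n : Type} : (pj (fun _ => False) : Matrix n n X) = 0 :=
  Matrix.ext fun _ _ => pj_apply_neg fun h => h.2

theorem pj_sum {n m : Type} (P : n → Prop) (R : m → Prop) :
    (pj (Sum.elim P R) : Matrix (n ⊕ m) (n ⊕ m) X) = fromBlocks (pj P) 0 0 (pj R) := by
  classical
  rw [pj_eq, pj_eq, pj_eq, fromBlocks_diagonal]
  congr 1
  funext i
  cases i <;> rfl

theorem pj_mul {n : Type} [Fintype n] (P R : n → Prop) :
    (pj P : Matrix n n X) * pj R = pj fun i => P i ∧ R i := by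
  classical
  rw [pj_eq, pj_eq, pj_eq, diagonal_mul_diagonal]
  congr 1
  funext i
  by_cases h1 : P i <;> by_cases h2 : R i <;> simp [h1, h2]

theorem pj_idem {n : Type} [Fintype n] (P : n → Prop) : (pj P : Matrix n n X) * pj P = pj P := by
  rw [pj_mul]
  simp only [and_self]

theorem pj_submatrix {n m : Type} (P : n → Prop) (f : m → n) (hf : Function.Injective f) :
    (pj P : Matrix n n X).submatrix f f = pj (P ∘ f) := by
  ext i j
  rw [submatrix_apply]
  by_cases h : i = j ∧ P (f i)
  · obtain ⟨rfl, h⟩ := h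
    rw [pj_apply_pos h, pj_apply_pos (P := P ∘ f) h]
  · rw [pj_apply_neg (P := P ∘ f) h, pj_apply_neg fun h' => h ⟨hf h'.1, h'.2⟩]

/-- Idempotents congruent to a diagonal idempotent modulo `J` can be improved to congruence modulo
`J'`, by conjugation with a matrix which is `1` modulo `H`. -/
def KZ (J J' H : Ideal X) : Prop :=
  ∀ (n : Type) [Fintype n] [DecidableEq n] (P : n → Prop) (e : Matrix n n X), e * e = e →
    MC J e (pj P) → ∃ (m : Type) (_ : Fintype m) (_ : DecidableEq m) (R : m → Prop)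
      (v v' : Matrix (n ⊕ m) (n ⊕ m) X), v * v' = 1 ∧ v' * v = 1 ∧ MC H v 1 ∧
        MC J' (v * fromBlocks e 0 0 (pj R) * v') (pj (Sum.elim P R))

theorem KZ.mono {J J' H H' : Ideal X} (h : KZ J J' H) (hH : H ≤ H') : KZ J J' H' := by
  intro n _ _ P e he heP
  obtain ⟨m, i1, i2, R, v, v', a1, a2, a3, a4⟩ := h n P e he heP
  exact ⟨m, i1, i2, R, v, v', a1, a2, a3.mono hH, a4⟩

theorem mc_inv {J : Ideal X} [J.IsTwoSided] {n : Type} [Fintype n] [DecidableEq n]
    {v v' : Matrix n n X} (h : v * v' = 1) (h' : MC J v 1) : MC J v' 1 := by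
  have h1 := h'.mul_right v'
  rw [h, one_mul] at h1
  exact h1.symm

theorem kz_trans {J J' J'' H : Ideal X} [H.IsTwoSided] (h1 : KZ J J' H)
    (h2 : KZ J' J'' H) : KZ J J'' H := by
  intro n _ _ P e he heP
  obtain ⟨m, _, _, R, v, v', a1, a2, a3, a4⟩ := h1 n P e he heP
  have hE : fromBlocks e 0 0 (pj R) * fromBlocks e 0 0 (pj R) = fromBlocks e 0 0 (pj R) := by
    rw [fromBlocks_multiply]
    simp only [Matrix.mul_zero, Matrix.zero_mul, add_zero, zero_add, he, pj_idem]
  have he' : v * fromBlocks e 0 0 (pj R) * v' * (v * fromBlocks e 0 0 (pj R) * v') =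
      v * fromBlocks e 0 0 (pj R) * v' := by
    calc _ = v * (fromBlocks e 0 0 (pj R) * (v' * v) * fromBlocks e 0 0 (pj R)) * v' := by
          noncomm_ring
      _ = _ := by rw [a2, mul_one, hE]
  obtain ⟨k, _, _, S, u, u', b1, b2, b3, b4⟩ := h2 _ _ _ he' a4
  -- the index set `n ⊕ (m ⊕ k)`
  let σ : n ⊕ (m ⊕ k) ≃ (n ⊕ m) ⊕ k := (Equiv.sumAssoc n m k).symm
  let v₁ : Matrix ((n ⊕ m) ⊕ k) ((n ⊕ m) ⊕ k) X := fromBlocks v 0 0 1
  let v₁' : Matrix ((n ⊕ m) ⊕ k) ((n ⊕ m) ⊕ k) X := fromBlocks v' 0 0 1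
  let w := (u * v₁).submatrix σ σ
  let w' := (v₁' * u').submatrix σ σ
  have c0 : ∀ A B : Matrix ((n ⊕ m) ⊕ k) ((n ⊕ m) ⊕ k) X,
      A.submatrix σ σ * B.submatrix σ σ = (A * B).submatrix σ σ := fun A B =>
    (Matrix.submatrix_mul_equiv A B σ σ σ)
  have cv : (fromBlocks v 0 0 1 : Matrix ((n ⊕ m) ⊕ k) ((n ⊕ m) ⊕ k) X) *
      fromBlocks v' 0 0 1 = 1 := by
    rw [fromBlocks_multiply]
    simp [a1]
  have cv' : (fromBlocks v' 0 0 1 : Matrix ((n ⊕ m) ⊕ k) ((n ⊕ m) ⊕ k) X) *
      fromBlocks v 0 0 1 = 1 := by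
    rw [fromBlocks_multiply]
    simp [a2]
  refine ⟨m ⊕ k, inferInstance, inferInstance, Sum.elim R S, w, w', ?_, ?_, ?_, ?_⟩
  · rw [c0]
    have : u * v₁ * (v₁' * u') = u * (v₁ * v₁') * u' := by noncomm_ring
    rw [this, cv, mul_one, b1, submatrix_one_equiv]
  · rw [c0]
    have : v₁' * u' * (u * v₁) = v₁' * (u' * u) * v₁ := by noncomm_ring
    rw [this, b2, mul_one, cv', submatrix_one_equiv]
  · have h3 : MC H v₁ 1 := by
      rw [← fromBlocks_one]
      exact MC.fromBlocks a3 (MC.refl _) (MC.refl _) (MC.refl _)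
    have h4 := b3.mul h3
    rw [mul_one] at h4
    have h5 := h4.submatrix σ σ
    rwa [submatrix_one_equiv] at h5
  · have h3 := b4.submatrix σ σ
    rw [pj_submatrix _ _ σ.injective] at h3
    have e1 : (Sum.elim (Sum.elim P R) S) ∘ σ = Sum.elim P (Sum.elim R S) := by
      funext i
      rcases i with i | i | i <;> rfl
    rw [e1] at h3
    have e2 : (u * fromBlocks (v * fromBlocks e 0 0 (pj R) * v') 0 0 (pj S) * u').submatrix σ σ =
        w * fromBlocks e 0 0 (pj (Sum.elim R S)) * w' := by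
      have e3 : fromBlocks e 0 0 (pj (Sum.elim R S)) =
          (fromBlocks (fromBlocks e 0 0 (pj R)) 0 0 (pj S)).submatrix σ σ := by
        rw [pj_sum]
        ext i j
        rcases i with i | i | i <;> rcases j with j | j | j <;> rfl
      rw [e3, c0, c0]
      congr 1
      have e4 : fromBlocks (v * fromBlocks e 0 0 (pj R) * v') 0 0 (pj S) =
          v₁ * fromBlocks (fromBlocks e 0 0 (pj R)) 0 0 (pj S) * v₁' := by
        simp only [v₁, v₁']
        rw [fromBlocks_multiply, fromBlocks_multiply]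
        simp
      rw [e4]
      noncomm_ring
    rw [← e2]
    exact h3

theorem fb_sub {m n l k : Type} (A A' : Matrix m n X) (B B' : Matrix m l X) (C C' : Matrix k n X)
    (D D' : Matrix k l X) : Matrix.fromBlocks A B C D - Matrix.fromBlocks A' B' C' D' =
      Matrix.fromBlocks (A - A') (B - B') (C - C') (D - D') := by
  ext i j
  rcases i with i | i <;> rcases j with j | j <;> rfl

/-- Invertible matrices modulo `J` lift stably if `KZ J ⊥ J` holds. -/
theorem lift_of_kz {J : Ideal X} [J.IsTwoSided] (h : KZ J ⊥ J) {n : Type} [Fintype n]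
    [DecidableEq n] (z z' : Matrix n n X) (h1 : MC J (z * z') 1) (h2 : MC J (z' * z) 1) :
    ∃ (m : Type) (_ : Fintype m) (_ : DecidableEq m) (u u' : Matrix (n ⊕ m) (n ⊕ m) X),
      u * u' = 1 ∧ u' * u = 1 ∧ MC J u (fromBlocks z 0 0 1) := by
  obtain ⟨w, w', a1, a2, a3, a4⟩ := lift_diag z z' h1 h2
  let P : n ⊕ n → Prop := Sum.elim (fun _ => True) fun _ => False
  have hp : (pj P : Matrix (n ⊕ n) (n ⊕ n) X) = fromBlocks 1 0 0 0 := by
    rw [pj_sum, pj_true, pj_false]
  have hpp := pj_idem (X := X) P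
  have he : w * pj P * w' * (w * pj P * w') = w * pj P * w' := by
    calc _ = w * (pj P * (w' * w) * pj P) * w' := by noncomm_ring
      _ = _ := by rw [a2, mul_one, hpp]
  have heP : MC J (w * pj P * w') (pj P) := by
    refine ((a3.mul_right _).mul a4).trans ?_
    rw [hp, fromBlocks_multiply, fromBlocks_multiply]
    simp only [Matrix.mul_zero, Matrix.zero_mul, add_zero, mul_one]
    exact MC.fromBlocks h1 (MC.refl _) (MC.refl _) (MC.refl _)
  obtain ⟨k, _, _, R, v, v', b1, b2, b3, b4⟩ := h _ _ _ he heP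
  rw [mc_bot, pj_sum P R] at b4
  -- `y` commutes with `q`
  let q : Matrix ((n ⊕ n) ⊕ k) ((n ⊕ n) ⊕ k) X := fromBlocks (pj P) 0 0 (pj R)
  let w₁ : Matrix ((n ⊕ n) ⊕ k) ((n ⊕ n) ⊕ k) X := fromBlocks w 0 0 1
  let w₁' : Matrix ((n ⊕ n) ⊕ k) ((n ⊕ n) ⊕ k) X := fromBlocks w' 0 0 1
  let y := v * w₁
  let y' := w₁' * v'
  have cw : (fromBlocks w 0 0 1 : Matrix ((n ⊕ n) ⊕ k) ((n ⊕ n) ⊕ k) X) *
      fromBlocks w' 0 0 1 = 1 := by
    rw [fromBlocks_multiply]
    simp [a1]
  have cw' : (fromBlocks w' 0 0 1 : Matrix ((n ⊕ n) ⊕ k) ((n ⊕ n) ⊕ k) X) *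
      fromBlocks w 0 0 1 = 1 := by
    rw [fromBlocks_multiply]
    simp [a2]
  have y1 : y * y' = 1 := by
    have : y * y' = v * (w₁ * w₁') * v' := by
      simp only [y, y']; noncomm_ring
    rw [this, cw, mul_one, b1]
  have y2 : y' * y = 1 := by
    have : y' * y = w₁' * (v' * v) * w₁ := by
      simp only [y, y']; noncomm_ring
    rw [this, b2, mul_one, cw']
  have yq : y * q * y' = q := by
    have e4 : fromBlocks (w * pj P * w') 0 0 (pj R) = w₁ * q * w₁' := by
      simp only [q, w₁, w₁']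
      rw [fromBlocks_multiply, fromBlocks_multiply]
      simp
    have : y * q * y' = v * (w₁ * q * w₁') * v' := by
      simp only [y, y']; noncomm_ring
    rw [this, ← e4]
    exact b4
  have qq : q * q = q := by
    simp only [q]
    rw [fromBlocks_multiply]
    simp only [Matrix.mul_zero, Matrix.zero_mul, add_zero, zero_add, pj_idem]
  have yq' : y * q = q * y := by
    calc y * q = y * q * (y' * y) := by rw [y2, mul_one]
      _ = y * q * y' * y := by noncomm_ring
      _ = q * y := by rw [yq]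
  have y'q : y' * q = q * y' := by
    calc y' * q = y' * q * (y * y') := by rw [y1, mul_one]
      _ = y' * (q * y) * y' := by noncomm_ring
      _ = y' * (y * q) * y' := by rw [yq']
      _ = (y' * y) * q * y' := by noncomm_ring
      _ = q * y' := by rw [y2, one_mul]
  let u0 := q * y + (1 - q)
  let u0' := q * y' + (1 - q)
  have u1 : u0 * u0' = 1 := by
    calc u0 * u0' = q * (y * q) * y' + (q * y - q * (y * q)) + (q - q * q) * y' +
          (1 - q - q + q * q) := by simp only [u0, u0']; noncomm_ring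
      _ = (q * q) * (y * y') + (q * y - (q * q) * y) + (q - q * q) * y' + (1 - q - q + q * q) := by
          rw [yq', ← mul_assoc, ← mul_assoc q q y]; noncomm_ring
      _ = 1 := by rw [y1, qq]; noncomm_ring
  have u2 : u0' * u0 = 1 := by
    calc u0' * u0 = q * (y' * q) * y + (q * y' - q * (y' * q)) + (q - q * q) * y +
          (1 - q - q + q * q) := by simp only [u0, u0']; noncomm_ring
      _ = (q * q) * (y' * y) + (q * y' - (q * q) * y') + (q - q * q) * y + (1 - q - q + q * q) := by
          rw [y'q, ← mul_assoc, ← mul_assoc q q y']; noncomm_ring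
      _ = 1 := by rw [y2, qq]; noncomm_ring
  have u3 : MC J u0 (fromBlocks (fromBlocks z 0 0 1) 0 0 1) := by
    have h3 : MC J y (fromBlocks (fromBlocks z 0 0 z') 0 0 1) := by
      have h4 : MC J w₁ (fromBlocks (fromBlocks z 0 0 z') 0 0 1) :=
        MC.fromBlocks a3 (MC.refl _) (MC.refl _) (MC.refl _)
      have h5 := b3.mul h4
      rwa [one_mul] at h5
    have h6 := (h3.mul_left q).add (MC.refl (J := J) (1 - q))
    refine h6.trans (MC.of_eq ?_)
    have e1 : (pj P : Matrix (n ⊕ n) (n ⊕ n) X) * fromBlocks z 0 0 z' + (1 - pj P) =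
        fromBlocks z 0 0 1 := by
      rw [hp, fromBlocks_multiply, ← fromBlocks_one, fb_sub, fromBlocks_add]
      simp
    simp only [q]
    rw [fromBlocks_multiply, ← fromBlocks_one (l := n ⊕ n) (m := k), fb_sub, fromBlocks_add]
    simp only [Matrix.mul_zero, Matrix.zero_mul, add_zero, zero_add, sub_zero, mul_one, e1]
    simp
  let σ : n ⊕ (n ⊕ k) ≃ (n ⊕ n) ⊕ k := (Equiv.sumAssoc n n k).symm
  have c0 : ∀ A B : Matrix ((n ⊕ n) ⊕ k) ((n ⊕ n) ⊕ k) X,
      A.submatrix σ σ * B.submatrix σ σ = (A * B).submatrix σ σ := fun A B =>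
    (Matrix.submatrix_mul_equiv A B σ σ σ)
  refine ⟨n ⊕ k, inferInstance, inferInstance, u0.submatrix σ σ, u0'.submatrix σ σ, ?_, ?_, ?_⟩
  · rw [c0, u1, submatrix_one_equiv]
  · rw [c0, u2, submatrix_one_equiv]
  · have h7 := u3.submatrix σ σ
    refine h7.trans (MC.of_eq ?_)
    ext i j
    rcases i with i | i | i <;> rcases j with j | j | j <;>
      simp [σ, fromBlocks, Matrix.one_apply]

end KZ

end Pool.Agent.CC
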