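import Pool.Agent.Lib.MP_8f66f0_al_CC.Sys.Defs
import Pool.Agent.Lib.MP_8f66f0_al_CC.Sys.Ring
import Pool.Agent.Lib.MP_8f66f0_al_CC.Sys.FinStep

/-!
# Matrices which are constant and diagonal outside a finite block

`gl s a P`: the matrix over `RCF Y A` with the block `a` on the finite set `s` of objects and with the
diagonal entries `1` (if `P`) or `0` outside `s`.
-/

set_option autoImplicit false

namespace Pool.Agent.CC

open Matrix Pool.Agent.TQ

section

variable {Y A N : Type} [Ring A]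

theorem ent_sum {ι : Type} (t : Finset ι) (T : ι → RCF Y A) (y x : Y) :
    ent (∑ i ∈ t, T i) y x = ∑ i ∈ t, ent (T i) y x := by
  classical
  induction t using Finset.induction_on with
  | empty => rw [Finset.sum_empty, Finset.sum_empty, ent_zero]
  | insert i t hi ih => rw [Finset.sum_insert hi, Finset.sum_insert hi, ent_add, ih]

open Classical in
/-- The entries of `gl`. -/
noncomputable def glE (s : Finset Y) (a : Matrix (N × s) (N × s) A) (P : N → Prop) (p q : N)
    (y' y : Y) : A :=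
  if h : y' ∈ s ∧ y ∈ s then a (p, ⟨y', h.1⟩) (q, ⟨y, h.2⟩)
  else if (y' = y ∧ y ∉ s) ∧ p = q ∧ P p then 1 else 0

variable {s : Finset Y} {a b : Matrix (N × s) (N × s) A} {P Q : N → Prop} {p q : N} {y' y : Y}

theorem glE_in (h' : y' ∈ s) (h : y ∈ s) : glE s a P p q y' y = a (p, ⟨y', h'⟩) (q, ⟨y, h⟩) := by
  rw [glE, dif_pos ⟨h', h⟩]

theorem glE_ne (h' : y' ∉ s ∨ y ∉ s) (h : ¬ (y' = y ∧ p = q ∧ P p)) :
    glE s a P p q y' y = 0 := by
  rw [glE, dif_neg fun h1 => h'.elim (fun h2 => h2 h1.1) fun h2 => h2 h1.2,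
    if_neg fun h1 => h ⟨h1.1.1, h1.2⟩]

theorem glE_out (h : y ∉ s) (hP : P p) : glE s a P p p y y = 1 := by
  rw [glE, dif_neg fun h1 => h h1.1, if_pos ⟨⟨rfl, h⟩, rfl, hP⟩]

theorem glE_supp (h : glE s a P p q y' y ≠ 0) : (y' ∈ s ∧ y ∈ s) ∨ (y' = y ∧ y ∉ s ∧ p = q) := by
  by_cases h1 : y' ∈ s ∧ y ∈ s
  · exact Or.inl h1
  · rw [glE, dif_neg h1] at h
    right
    by_contra h2
    apply h
    rw [if_neg]
    rintro ⟨⟨rfl, h3⟩, rfl, _⟩
    exact h2 ⟨rfl, h3, rfl⟩

/-- The matrix with the block `a` on `s`. -/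
noncomputable def gl (s : Finset Y) (a : Matrix (N × s) (N × s) A) (P : N → Prop) :
    Matrix N N (RCF Y A) := fun p q => mkK (glE s a P p q)
  (fun y => by
    classical
    refine (insert y s).finite_toSet.subset fun x hx => ?_
    rw [Finset.mem_coe, Finset.mem_insert]
    rcases glE_supp hx with h | h
    · exact Or.inr h.2
    · exact Or.inl h.1.symm)
  (fun x => by
    classical
    refine (insert x s).finite_toSet.subset fun y hy => ?_
    rw [Finset.mem_coe, Finset.mem_insert]
    rcases glE_supp hy with h | h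
    · exact Or.inr h.1
    · exact Or.inl h.1)

theorem ent_gl (s : Finset Y) (a : Matrix (N × s) (N × s) A) (P : N → Prop) (p q : N) (y' y : Y) :
    ent (gl s a P p q) y' y = glE s a P p q y' y := by rw [gl, ent_mkK]

theorem gl_mul [Fintype N] (s : Finset Y) (a b : Matrix (N × s) (N × s) A)
    (P Q : N → Prop) : gl s a P * gl s b Q = gl s (a * b) fun i => P i ∧ Q i := by
  classical
  refine Matrix.ext fun p q => ent_ext fun y' y => ?_
  rw [Matrix.mul_apply, ent_sum, ent_gl]
  by_cases hy : y ∈ s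
  · have h1 : ∀ r, ent (gl s a P p r * gl s b Q r q) y' y =
        ∑ v ∈ s, glE s a P p r y' v * glE s b Q r q v y := by
      intro r
      rw [ent_mul_col _ _ y' y s fun v hv => ?_]
      · refine Finset.sum_congr rfl fun v _ => ?_
        rw [ent_gl, ent_gl]
      · rw [ent_gl] at hv
        rcases glE_supp hv with h | h
        · exact h.1
        · exact absurd hy h.2.1
    rw [Finset.sum_congr rfl fun r _ => h1 r]
    by_cases hy' : y' ∈ s
    · rw [glE_in hy' hy, Matrix.mul_apply, Fintype.sum_prod_type]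
      refine Finset.sum_congr rfl fun r _ => ?_
      rw [← Finset.sum_coe_sort s]
      refine Finset.sum_congr rfl fun v _ => ?_
      rw [glE_in hy' v.2, glE_in v.2 hy]
    · rw [glE_ne (Or.inl hy') fun h => hy' (h.1 ▸ hy)]
      refine Finset.sum_eq_zero fun r _ => Finset.sum_eq_zero fun v hv => ?_
      rw [glE_ne (Or.inl hy') fun h => hy' (h.1 ▸ hv), zero_mul]
  · have h1 : ∀ r, ent (gl s a P p r * gl s b Q r q) y' y =
        glE s a P p r y' y * glE s b Q r q y y := by
      intro r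
      rw [ent_mul_col _ _ y' y {y} fun v hv => ?_]
      · rw [Finset.sum_singleton, ent_gl, ent_gl]
      · rw [ent_gl] at hv
        rcases glE_supp hv with h | h
        · exact absurd h.2 hy
        · rw [h.1]
          exact Finset.mem_singleton_self _
    rw [Finset.sum_congr rfl fun r _ => h1 r]
    rw [Finset.sum_eq_single q (fun r _ hr => by
      rw [glE_ne (Or.inr hy) fun h => hr h.2.1, mul_zero])
      (fun h => absurd (Finset.mem_univ _) h)]
    by_cases hQ : Q q
    · rw [glE_out hy hQ, mul_one]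
      by_cases h2 : y' = y ∧ p = q ∧ P p
      · obtain ⟨rfl, rfl, hP⟩ := h2
        rw [glE_out hy hP, glE_out (P := fun i => P i ∧ Q i) hy ⟨hP, hQ⟩]
      · rw [glE_ne (Or.inr hy) h2, glE_ne (Or.inr hy) fun h => h2 ⟨h.1, h.2.1, h.2.2.1⟩]
    · rw [glE_ne (P := Q) (Or.inr hy) fun h => hQ h.2.2, mul_zero,
        glE_ne (Or.inr hy)]
      rintro ⟨_, h3, _, h4⟩
      rw [h3] at h4
      exact hQ h4

theorem gl_one [DecidableEq N] [DecidableEq Y] (s : Finset Y) :
    gl s (1 : Matrix (N × s) (N × s) A) (fun _ => True) = 1 := by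
  classical
  refine Matrix.ext fun p q => ent_ext fun y' y => ?_
  rw [ent_gl]
  by_cases hpq : p = q
  · subst hpq
    rw [Matrix.one_apply_eq, ent_one]
    by_cases hyy : y' = y
    · subst hyy
      rw [if_pos rfl]
      by_cases hy : y' ∈ s
      · rw [glE_in hy hy, Matrix.one_apply_eq]
      · rw [glE_out hy trivial]
    · rw [if_neg hyy]
      by_cases hy : y' ∈ s ∧ y ∈ s
      · rw [glE_in hy.1 hy.2, Matrix.one_apply_ne]
        intro h
        exact hyy (congrArg (fun x => x.2.1) h)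
      · rw [glE_ne (not_and_or.1 hy) fun h => hyy h.1]
  · rw [Matrix.one_apply_ne hpq, ent_zero]
    by_cases hy : y' ∈ s ∧ y ∈ s
    · rw [glE_in hy.1 hy.2, Matrix.one_apply_ne]
      intro h
      exact hpq (congrArg Prod.fst h)
    · rw [glE_ne (not_and_or.1 hy) fun h => hpq h.2.1]

/-- A matrix is of the form `gl` if it is diagonal and constant outside `s`. -/
theorem eq_gl (s : Finset Y) (z : Matrix N N (RCF Y A)) (P : N → Prop)
    (h1 : ∀ p q y' y, (y' ∉ s ∨ y ∉ s) → ¬ (y' = y ∧ p = q ∧ P p) → ent (z p q) y' y = 0)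
    (h2 : ∀ p y, y ∉ s → P p → ent (z p p) y y = 1) :
    z = gl s (Matrix.of fun i j => ent (z i.1 j.1) i.2 j.2) P := by
  refine Matrix.ext fun p q => ent_ext fun y' y => ?_
  rw [ent_gl]
  by_cases hy : y' ∈ s ∧ y ∈ s
  · rw [glE_in hy.1 hy.2, Matrix.of_apply]
  · by_cases h : y' = y ∧ p = q ∧ P p
    · obtain ⟨rfl, rfl, hP⟩ := h
      have hy1 : y' ∉ s := fun h => hy ⟨h, h⟩
      rw [glE_out hy1 hP, h2 p y' hy1 hP]
    · rw [glE_ne (not_and_or.1 hy) h, h1 p q y' y (not_and_or.1 hy) h]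

end

end Pool.Agent.CC
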