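import Pool.Agent.Lib.MP_8f66f0_al_CC.Sys.LL
import Pool.Agent.Lib.MP_8f66f0_al_CC.Sys.Lift
import Pool.Agent.Lib.MP_8f66f0_al_CC.Sys.FinS
import Pool.Agent.Lib.MP_8f66f0_al_CC.Sys.RayIff
import Pool.Agent.Lib.MP_8f66f0_al_CC.End.Sh

/-!
# Lifting for exact systems of size 1
-/

set_option autoImplicit false
set_option linter.unusedSectionVars false

namespace Pool.Agent.CC

open Matrix Pool.Agent.TQ Pool.Agent.FH Pool.Agent.Wald
open scoped Pointwise

section Iso

variable {Y A : Type} [Ring A]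

theorem shR_eq (ρ : ℕ ↪ Y) : shR A ρ = isoK A (shM ρ) (shM_inj ρ) := by
  classical
  refine ent_ext fun y x => ?_
  rw [ent_shRm, ent_isoK]
  exact if_congr eq_comm rfl rfl

theorem shL_eq (ρ : ℕ ↪ Y) : shL A ρ = adjK A (shM ρ) (shM_inj ρ) := by
  classical
  refine ent_ext fun y x => ?_
  rw [ent_shLm, ent_adjK]
  exact if_congr eq_comm rfl rfl

theorem range_shM (ρ : ℕ ↪ Y) : Set.range (shM ρ) = {ρ 0}ᶜ := by
  ext y
  constructor
  · rintro ⟨x, rfl⟩
    exact shM_ne ρ x
  · intro hy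
    exact shM_surj ρ hy

theorem prK_mul (T T' : Set Y) : prK A T * prK A T' = prK A (T ∩ T') := by
  classical
  refine ent_ext fun y x => ?_
  rw [ent_prK_mul, ent_prK, ent_prK]
  by_cases hy : y ∈ T
  · rw [if_pos hy]
    by_cases h : y = x ∧ x ∈ T'
    · rw [if_pos h, if_pos ⟨h.1, h.1 ▸ hy, h.2⟩]
    · rw [if_neg h, if_neg fun h' => h ⟨h'.1, h'.2.2⟩]
  · rw [if_neg hy, if_neg]
    rintro ⟨rfl, h, _⟩
    exact hy h

theorem prK_univ : prK A (Set.univ : Set Y) = 1 := by
  classical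
  refine ent_ext fun y x => ?_
  rw [ent_one]
  by_cases h : y = x
  · rw [if_pos h, ent_prK]
    exact if_pos ⟨h, trivial⟩
  · rw [if_neg h, ent_prK]
    exact if_neg fun h' => h h'.1

theorem prK_empty : prK A (∅ : Set Y) = 0 := by
  classical
  refine ent_ext fun y x => ?_
  rw [ent_prK, if_neg fun h => h.2, ent_zero]

theorem one_sub_prK (T : Set Y) : 1 - prK A T = prK A Tᶜ := by
  classical
  refine ent_ext fun y x => ?_
  rw [ent_sub, ent_one, ent_prK, ent_prK]
  by_cases h : y = x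
  · rw [if_pos h]
    by_cases hx : x ∈ T
    · rw [if_pos ⟨h, hx⟩, if_neg fun h' => h'.2 hx, sub_self]
    · rw [if_neg fun h' => hx h'.2, if_pos ⟨h, hx⟩, sub_zero]
  · rw [if_neg h, if_neg fun h' => h h'.1, if_neg fun h' => h h'.1, sub_self]

theorem adj_prK_iso (a : Y → Y) (ha : Function.Injective a) (T : Set Y) :
    adjK A a ha * prK A T * isoK A a ha = prK A (a ⁻¹' T) := by
  classical
  refine ent_ext fun y x => ?_
  rw [ent_mul_isoK, ent_adjK_mul, ent_prK, ent_prK]
  exact if_congr ⟨fun h => ⟨ha h.1, h.2⟩, fun h => ⟨by rw [h.1], h.2⟩⟩ rfl rfl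

end Iso

section L1

variable {O Y C Γ k : Type} [DecidableEq O] [Group Γ] [MulAction Γ O] [MulAction Γ C] [CommRing k]
variable (Γ k)

/-- The shifts along rays, and `1`. -/
def Dsh (S : Sys O Y C) : Set (U Γ k S) :=
  {x | ∃ r : Option (Bool × (ℕ ↪ Y)), (∀ b ρ, r = some (b, ρ) → IsRay S ρ) ∧
    x.1 = shO (MonoidAlgebra k Γ) r}

variable {Γ k} {S : Sys O Y C}

theorem sR_mem {ρ : ℕ ↪ Y} (hρ : IsRay S ρ) : shR (MonoidAlgebra k Γ) ρ ∈ U Γ k S :=
  shE_mem hρ.ry SignType.pos

theorem sL_mem {ρ : ℕ ↪ Y} (hρ : IsRay S ρ) : shL (MonoidAlgebra k Γ) ρ ∈ U Γ k S :=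
  shE_mem hρ.ry SignType.neg

variable (Γ k) in
/-- The isometry of a ray. -/
noncomputable def sR {ρ : ℕ ↪ Y} (hρ : IsRay S ρ) : U Γ k S := ⟨_, sR_mem hρ⟩

variable (Γ k) in
/-- The adjoint. -/
noncomputable def sL {ρ : ℕ ↪ Y} (hρ : IsRay S ρ) : U Γ k S := ⟨_, sL_mem hρ⟩

theorem sL_sR {ρ : ℕ ↪ Y} (hρ : IsRay S ρ) : sL Γ k hρ * sR Γ k hρ = 1 := by
  apply Subtype.ext
  change shL _ ρ * shR _ ρ = 1
  rw [shR_eq, shL_eq, adjK_mul_isoK]

theorem one_sub_sR_sL {ρ : ℕ ↪ Y} (hρ : IsRay S ρ) :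
    1 - sR Γ k hρ * sL Γ k hρ = prU Γ k S {ρ 0} := by
  apply Subtype.ext
  change 1 - shR _ ρ * shL _ ρ = prK _ _
  rw [shR_eq, shL_eq, isoK_mul_adjK, one_sub_prK, range_shM, compl_compl]

theorem prU_singleton_mem (S : Sys O Y C) (y : Y) : prU Γ k S {y} ∈ J Γ k S 0 := by
  obtain ⟨h, hh⟩ := exists_height_fin S (Set.finite_singleton y)
  refine prU_mem_J h fun y' hy' => ?_
  rw [hh y' hy']
  exact le_rfl

theorem sR_sL_mem {ρ : ℕ ↪ Y} (hρ : IsRay S ρ) : 1 - sR Γ k hρ * sL Γ k hρ ∈ J Γ k S 0 := by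
  rw [one_sub_sR_sL]
  exact prU_singleton_mem S _

theorem sL_pr_sR {ρ : ℕ ↪ Y} (hρ : IsRay S ρ) (T : Set Y) :
    sL Γ k hρ * prU Γ k S T * sR Γ k hρ = prU Γ k S (shM ρ ⁻¹' T) := by
  apply Subtype.ext
  change shL _ ρ * prK _ T * shR _ ρ = prK _ _
  rw [shR_eq, shL_eq, adj_prK_iso]

theorem sR_Dsh {ρ : ℕ ↪ Y} (hρ : IsRay S ρ) : sR Γ k hρ ∈ Dsh Γ k S := by
  refine ⟨some (true, ρ), fun b ρ' h => ?_, rfl⟩
  rw [Option.some.injEq, Prod.mk.injEq] at h
  rw [← h.2]
  exact hρ

theorem sL_Dsh {ρ : ℕ ↪ Y} (hρ : IsRay S ρ) : sL Γ k hρ ∈ Dsh Γ k S := by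
  refine ⟨some (false, ρ), fun b ρ' h => ?_, rfl⟩
  rw [Option.some.injEq, Prod.mk.injEq] at h
  rw [← h.2]
  exact hρ

theorem one_Dsh : (1 : U Γ k S) ∈ Dsh Γ k S := ⟨none, fun _ _ h => by simp at h, rfl⟩

theorem Dsh_inv (d : U Γ k S) (hd : d ∈ Dsh Γ k S) :
    ∃ d' ∈ Dsh Γ k S, d * d' - 1 ∈ J Γ k S 0 ∧ d' * d - 1 ∈ J Γ k S 0 := by
  obtain ⟨r, h1, h2⟩ := hd
  rcases r with _ | ⟨b, ρ⟩
  · have h3 : d = 1 := Subtype.ext h2
    subst h3
    refine ⟨1, one_Dsh, ?_, ?_⟩ <;>
    · rw [mul_one, sub_self]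
      exact Ideal.zero_mem _
  · have hρ : IsRay S ρ := h1 b ρ rfl
    cases b with
    | true =>
      have h3 : d = sR Γ k hρ := Subtype.ext h2
      subst h3
      refine ⟨sL Γ k hρ, sL_Dsh hρ, ?_, ?_⟩
      · rw [← neg_sub]
        exact Ideal.neg_mem_iff _ |>.2 (sR_sL_mem hρ)
      · rw [sL_sR, sub_self]
        exact Ideal.zero_mem _
    | false =>
      have h3 : d = sL Γ k hρ := Subtype.ext h2
      subst h3
      refine ⟨sR Γ k hρ, sR_Dsh hρ, ?_, ?_⟩
      · rw [sL_sR, sub_self]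
        exact Ideal.zero_mem _
      · rw [← neg_sub]
        exact Ideal.neg_mem_iff _ |>.2 (sR_sL_mem hρ)

/-- The ray from an object of an exact system of size 1. -/
theorem exists_ray_one (hE : S.Exact Γ 1) (y : Y) : ∃ ρ : ℕ ↪ Y, IsRay S ρ ∧ ρ 0 = y := by
  obtain ⟨s, hs⟩ := Finset.card_eq_one.1 (hE.1 y)
  have hsy : (s.1, s.2) ∈ S.A y := by
    rw [hs]
    exact Finset.mem_singleton_self _
  have ho : s.1 ∈ S.F 0 y := S.mem_F.2 ⟨s.2, hsy, Nat.zero_le _⟩
  let ρ : ℕ ↪ Y := ⟨fun n => S.re (upd s.1 (n + s.2)) y, fun a b hab => by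
    have := upd_injective S ho hab
    omega⟩
  refine ⟨ρ, Ry.isRay ⟨y, s.1, s.2, ho, fun n => rfl⟩, ?_⟩
  change S.re (upd s.1 (0 + s.2)) y = y
  conv_rhs => rw [← S.re_id y]
  refine S.re_congr _ _ _ fun t ht => ?_
  have : t = s := by
    rw [hs] at ht
    exact Finset.mem_singleton.1 ht
  rw [this]
  change (if s.1 = s.1 then 0 + s.2 else s.2) = s.2
  rw [if_pos rfl, zero_add]

/-- The set of the objects where `Xs p` is not the constant `Q p`. -/
def dsc {n : Type} (Q : n → Prop) (Xs : n → Set Y) (p : n) : Set Y := {v | ¬ (v ∈ Xs p ↔ Q p)}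

theorem ll_ind (hE : S.Exact Γ 1) (d : ℕ) : ∀ (n : Type) [Fintype n] [DecidableEq n] (Q : n → Prop)
    (Xs : n → Set Y) (y y' : Matrix n n (U Γ k S)), y * y' = 1 → y' * y = 1 →
    (∀ p, (dsc Q Xs p).Finite) → ∑ p, (dsc Q Xs p).ncard = d →
    y * pj Q * y' = diagonal (fun p => prU Γ k S (Xs p)) →
    LL (J Γ k S 0) (Dsh Γ k S) (pj Q * y + (1 - pj Q)) := by
  induction d with
  | zero =>
    intro n _ _ Q Xs y y' h1 h2 hf hd hy
    classical
    refine LL.of_comm h1 h2 (pj_idem Q) ?_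
    rw [hy, pj_eq]
    congr 1
    funext p
    have h3 : (dsc Q Xs p).ncard = 0 :=
      (Finset.sum_eq_zero_iff.1 hd) p (Finset.mem_univ p)
    have h4 : dsc Q Xs p = ∅ := (Set.ncard_eq_zero (hf p)).1 h3
    have h5 : ∀ v, v ∈ Xs p ↔ Q p := fun v => by
      by_contra hn
      have : v ∈ dsc Q Xs p := hn
      rw [h4] at this
      exact this
    by_cases hQ : Q p
    · rw [if_pos hQ]
      have h6 : Xs p = Set.univ := Set.eq_univ_of_forall fun v => (h5 v).2 hQ
      exact Subtype.ext (by rw [h6]; exact prK_univ)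
    · rw [if_neg hQ]
      have h6 : Xs p = ∅ := Set.eq_empty_of_forall_notMem fun v hv => hQ ((h5 v).1 hv)
      exact Subtype.ext (by rw [h6]; exact prK_empty)
  | succ d ih =>
    intro n _ _ Q Xs y y' h1 h2 hf hd hy
    classical
    obtain ⟨p, hp⟩ : ∃ p, (dsc Q Xs p).ncard ≠ 0 := by
      by_contra hcon
      push Not at hcon
      rw [Finset.sum_eq_zero fun p _ => hcon p] at hd
      omega
    obtain ⟨y0, hy0⟩ : (dsc Q Xs p).Nonempty := by
      rw [Set.nonempty_iff_ne_empty]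
      intro h
      rw [h, Set.ncard_empty] at hp
      exact hp rfl
    obtain ⟨ρ, hρ, hρ0⟩ := exists_ray_one hE y0
    subst hρ0
    let s := sR Γ k hρ
    let s' := sL Γ k hρ
    have hss : s' * s = 1 := sL_sR hρ
    let t : U Γ k S := if Q p then 0 else 1
    let T : n → U Γ k S := fun p => prU Γ k S (Xs p)
    have hQX : ¬ (ρ 0 ∈ Xs p ↔ Q p) := hy0
    have hpi : (1 - s * s') = prU Γ k S {ρ 0} := one_sub_sR_sL hρ
    have k1 : (1 - s * s') * T p = (1 - s * s') * t := by
      rw [hpi]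
      apply Subtype.ext
      change prK _ {ρ 0} * prK _ (Xs p) = prK _ {ρ 0} * t.1
      rw [prK_mul]
      by_cases hQ : Q p
      · have ht : t = 0 := if_pos hQ
        have hx : ρ 0 ∉ Xs p := fun h => hQX ⟨fun _ => hQ, fun _ => h⟩
        rw [ht, show {ρ 0} ∩ Xs p = ∅ from by
          ext v
          constructor
          · rintro ⟨rfl, h⟩
            exact hx h
          · exact fun h => h.elim, prK_empty]
        exact (mul_zero _).symm
      · have ht : t = 1 := if_neg hQ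
        have hx : ρ 0 ∈ Xs p := by
          by_contra h
          exact hQX ⟨fun h' => absurd h' h, fun h' => absurd h' hQ⟩
        rw [ht, show {ρ 0} ∩ Xs p = {ρ 0} from Set.inter_eq_left.2 (Set.singleton_subset_iff.2 hx)]
        exact (mul_one _).symm
    have k2 : T p * (1 - s * s') = t * (1 - s * s') := by
      rw [hpi]
      apply Subtype.ext
      change prK _ (Xs p) * prK _ {ρ 0} = t.1 * prK _ {ρ 0}
      rw [prK_mul, Set.inter_comm]
      by_cases hQ : Q p
      · have ht : t = 0 := if_pos hQ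
        have hx : ρ 0 ∉ Xs p := fun h => hQX ⟨fun _ => hQ, fun _ => h⟩
        rw [ht, show {ρ 0} ∩ Xs p = ∅ from by
          ext v
          constructor
          · rintro ⟨rfl, h⟩
            exact hx h
          · exact fun h => h.elim, prK_empty]
        exact (zero_mul _).symm
      · have ht : t = 1 := if_neg hQ
        have hx : ρ 0 ∈ Xs p := by
          by_contra h
          exact hQX ⟨fun h' => absurd h' h, fun h' => absurd h' hQ⟩
        rw [ht, show {ρ 0} ∩ Xs p = {ρ 0} from Set.inter_eq_left.2 (Set.singleton_subset_iff.2 hx)]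
        exact (one_mul _).symm
    have k3 : t = 0 ∨ t = 1 := by
      by_cases hQ : Q p
      · exact Or.inl (if_pos hQ)
      · exact Or.inr (if_neg hQ)
    refine ll_step (s := s) (s' := s') one_Dsh Dsh_inv (sR_Dsh hρ) (sL_Dsh hρ) (sR_sL_mem hρ)
      p Q y ?_
    let Xs' : n ⊕ Unit → Set Y := Sum.elim (Function.update Xs p (shM ρ ⁻¹' Xs p))
      fun _ => {v | ¬ Q p}
    have e0 : ∀ q, q ≠ p → dsc (Sum.elim Q fun _ : Unit => ¬ Q p) Xs' (Sum.inl q) = dsc Q Xs q := by
      intro q hq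
      change {v | ¬ (v ∈ Function.update Xs p (shM ρ ⁻¹' Xs p) q ↔ Q q)} = _
      rw [Function.update_of_ne hq]
      rfl
    have e1 : dsc (Sum.elim Q fun _ : Unit => ¬ Q p) Xs' (Sum.inl p) = shM ρ ⁻¹' dsc Q Xs p := by
      change {v | ¬ (v ∈ Function.update Xs p (shM ρ ⁻¹' Xs p) p ↔ Q p)} = _
      rw [Function.update_self]
      rfl
    have e2 : ∀ u, dsc (Sum.elim Q fun _ : Unit => ¬ Q p) Xs' (Sum.inr u) = ∅ := by
      intro u
      refine Set.eq_empty_of_forall_notMem fun v hv => ?_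
      exact hv (Iff.rfl)
    have e3 : (shM ρ ⁻¹' dsc Q Xs p).ncard + 1 = (dsc Q Xs p).ncard := by
      have h3 : shM ρ '' (shM ρ ⁻¹' dsc Q Xs p) = dsc Q Xs p \ {ρ 0} := by
        rw [Set.image_preimage_eq_inter_range, range_shM, Set.sdiff_eq]
      rw [← Set.ncard_image_of_injective _ (shM_inj ρ), h3]
      exact Set.ncard_sdiff_singleton_add_one hy0 (hf p)
    have ih' := ih (n ⊕ Unit) (Sum.elim Q fun _ => ¬ Q p) Xs' (wA p s s' * fromBlocks y 0 0 1)
      (fromBlocks y' 0 0 1 * wB p s s')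
    refine ih' ?_ ?_ ?_ ?_ ?_
    · calc _ = wA p s s' * (fromBlocks y 0 0 1 * fromBlocks y' 0 0 1) * wB p s s' := by
            simp only [Matrix.mul_assoc]
        _ = 1 := by rw [fb_one h1, mul_one, wA_wB p hss]
    · calc _ = fromBlocks y' 0 0 1 * (wB p s s' * wA p s s') * fromBlocks y 0 0 1 := by
            simp only [Matrix.mul_assoc]
        _ = 1 := by rw [wB_wA p hss, mul_one, fb_one h2]
    · rintro (q | u)
      · by_cases hq : q = p
        · subst hq
          rw [e1]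
          exact (hf q).preimage (shM_inj ρ).injOn
        · rw [e0 q hq]
          exact hf q
      · rw [e2]
        exact Set.finite_empty
    · rw [Fintype.sum_sum_type]
      simp only [e2, Set.ncard_empty, Finset.sum_const_zero, add_zero]
      have h3 : ∀ q, (dsc (Sum.elim Q fun _ : Unit => ¬ Q p) Xs' (Sum.inl q)).ncard +
          (if q = p then 1 else 0) = (dsc Q Xs q).ncard := by
        intro q
        by_cases hq : q = p
        · subst hq
          rw [if_pos rfl, e1, e3]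
        · rw [if_neg hq, e0 q hq, add_zero]
      have h4 := Finset.sum_congr (s₁ := Finset.univ) rfl fun q (_ : q ∈ Finset.univ) => h3 q
      rw [Finset.sum_add_distrib, Finset.sum_ite_eq' Finset.univ p (fun _ => 1),
        if_pos (Finset.mem_univ p), hd] at h4
      omega
    · have h3 : fromBlocks y 0 0 1 * pj (Sum.elim Q fun _ : Unit => ¬ Q p) *
          fromBlocks y' 0 0 1 = fromBlocks (diagonal T) 0 0 (Matrix.of fun _ _ => t) := by
        rw [pj_sum, fromBlocks_multiply, fromBlocks_multiply]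
        simp only [Matrix.mul_zero, Matrix.zero_mul, add_zero, zero_add, one_mul, mul_one, hy]
        congr 1
        refine Matrix.ext fun i j => ?_
        by_cases hQ : Q p
        · exact (pj_apply_neg (P := fun _ : Unit => ¬ Q p) (i := i) (j := j)
            fun h => h.2 hQ).trans (if_pos hQ).symm
        · have hij : i = j := rfl
          subst hij
          exact (pj_apply_pos (P := fun _ : Unit => ¬ Q p) (i := i) hQ).trans (if_neg hQ).symm
      have h4 : wA p s s' * fromBlocks y 0 0 1 * pj (Sum.elim Q fun _ : Unit => ¬ Q p) *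
          (fromBlocks y' 0 0 1 * wB p s s') = wA p s s' * (fromBlocks y 0 0 1 *
            pj (Sum.elim Q fun _ : Unit => ¬ Q p) * fromBlocks y' 0 0 1) * wB p s s' := by
        simp only [Matrix.mul_assoc]
      rw [h4, h3, wA_mul_wB p hss T t k1 k2 k3]
      have h5 : (Matrix.of fun _ _ => t : Matrix Unit Unit (U Γ k S)) = diagonal fun _ => t := by
        ext1 i j
        rw [show i = j from rfl, diagonal_apply_eq, Matrix.of_apply]
      rw [h5, fromBlocks_diagonal]
      congr 1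
      funext q
      rcases q with q | u
      · change Function.update T p (s' * T p * s) q = prU Γ k S
          (Function.update Xs p (shM ρ ⁻¹' Xs p) q)
        by_cases hq : q = p
        · subst hq
          rw [Function.update_self, Function.update_self]
          exact sL_pr_sR hρ _
        · rw [Function.update_of_ne hq, Function.update_of_ne hq]
      · change t = prU Γ k S {v | ¬ Q p}
        by_cases hQ : Q p
        · rw [show t = 0 from if_pos hQ]
          apply Subtype.ext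
          rw [show {v : Y | ¬ Q p} = ∅ from Set.eq_empty_of_forall_notMem fun v hv => hv hQ]
          exact prK_empty.symm
        · rw [show t = 1 from if_neg hQ]
          apply Subtype.ext
          rw [show {v : Y | ¬ Q p} = Set.univ from Set.eq_univ_of_forall fun v => hQ]
          exact prK_univ.symm

end L1

end Pool.Agent.CC
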