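import Pool.Agent.Lib.MP_8f66f0_al_CC.Sys.Lift
import Pool.Agent.Lib.MP_8f66f0_al_CC.Sys.Base

/-!
# Theorem CC: the data of `kq_of_psi` from `S_psi`
-/

set_option autoImplicit false

namespace Pool.Agent.CC

open Pool.Agent.Wald Pool.Agent.TQ Matrix

open Classical in
theorem shE_ent {Y : Type} (ρ : ℕ ↪ Y) (e : SignType) (y' y : Y) :
    ∃ Q : Prop, ∀ (A : Type) [Ring A], ent (shE A ρ e) y' y = if Q then 1 else 0 := by
  cases e with
  | zero =>
    refine ⟨y' = y, fun A _ => ?_⟩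
    change ent (1 : RCF Y A) y' y = _
    rw [ent_one]
  | pos =>
    refine ⟨(∃ n, y = ρ n ∧ y' = ρ (n + 1)) ∨ (y ∉ Set.range ρ ∧ y' = y), fun A _ => ?_⟩
    change ent (shR A ρ) y' y = _
    rw [shR, ent_mkK]
    by_cases hq : (∃ n, y = ρ n ∧ y' = ρ (n + 1)) ∨ (y ∉ Set.range ρ ∧ y' = y)
    · rw [if_pos hq, if_pos hq]
    · rw [if_neg hq, if_neg hq]
  | neg =>
    refine ⟨(∃ n, y' = ρ n ∧ y = ρ (n + 1)) ∨ (y' ∉ Set.range ρ ∧ y = y'), fun A _ => ?_⟩
    change ent (shL A ρ) y' y = _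
    rw [shL, ent_mkK]
    by_cases hq : (∃ n, y' = ρ n ∧ y = ρ (n + 1)) ∨ (y' ∉ Set.range ρ ∧ y = y')
    · rw [if_pos hq, if_pos hq]
    · rw [if_neg hq, if_neg hq]

/-- The data of `kq_of_psi`. -/
theorem psiD_of (h : S_psi) {O Y C Γ k k' : Type} [DecidableEq O] [Group Γ] [MulAction Γ O]
    [MulAction Γ C] [CommRing k] [CommRing k'] (D : TwE k k') (S : Sys O Y C) (f : ℕ) :
    PsiD Γ k k' S f := by
  classical
  obtain ⟨j, y, y', Ψ, h1, h2, h3, h4, h5, h6, h7⟩ := h O Y C Γ k k' D S f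
  refine ⟨j, y, y', Ψ, ?_, h5, h6, h7, h4, h2, h3, ?_⟩
  · rintro x ⟨b, hb⟩
    refine ⟨b, fun g v w hc => hb g v w fun h0 => hc ?_⟩
    rw [h1, h0, map_zero]
  · intro ρ hρ e
    refine Subtype.ext (cf_ext fun g v w => ?_)
    rw [h1]
    obtain ⟨Q, hQ⟩ := shE_ent ρ e v w
    change D.i (cf (shE (MonoidAlgebra k Γ) ρ e) g v w) = cf (shE (MonoidAlgebra k' Γ) ρ e) g v w
    rw [cf, cf, hQ, hQ]
    split_ifs with hq
    · rw [MonoidAlgebra.one_def, MonoidAlgebra.one_def, MonoidAlgebra.coeff_single,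
        MonoidAlgebra.coeff_single, Finsupp.single_apply, Finsupp.single_apply]
      split_ifs
      · exact map_one D.i
      · exact map_zero D.i
    · rw [MonoidAlgebra.coeff_zero, MonoidAlgebra.coeff_zero]
      exact map_zero D.i

/-- The lifting hypotheses, for a class of coefficient rings closed under `TwE`. -/
theorem lftD_tower (hs : S_sh) (hAB : S_AB) (hL1 : S_L1) (hpsi : S_psi) {O Γ : Type}
    [DecidableEq O] [Group Γ] [MulAction Γ O] (Tw : ∀ (k : Type) [CommRing k], Prop)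
    (hTw : ∀ (k : Type) [CommRing k], Tw k → ∃ (k' : Type) (_ : CommRing k'), Tw k' ∧
      Nonempty (TwE k k'))
    (hdom : ∀ (k : Type) [CommRing k], Tw k → IsDomain k) (Y C : Type) [MulAction Γ C]
    (S : Sys O Y C) (hSF : ∀ (k : Type) [CommRing k], Tw k → SF Γ k S) (k : Type) [CommRing k]
    (hk : Tw k) : LftD Γ k S := by
  refine lftD_of hs hAB hL1 Tw (fun k _ hk => ?_) hdom Y C S hSF k hk
  obtain ⟨k', i, h1, ⟨D⟩⟩ := hTw k hk
  exact ⟨k', i, h1, fun Y C _ S f => psiD_of hpsi D S f⟩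

end Pool.Agent.CC
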